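import Pool.Agent.Work.MP_3d425c_gt.Sv.Line

/-! The boundary components of a stage have finitely generated stabilisers. -/

namespace Pool.Agent.Work.MP_3d425c_gt.Rv
open Set Relation Pool.Agent.Work.MP_3d425c_gt.Md Pool.Agent.Work.MP_3d425c_gt.Cy
  Pool.Agent.Work.MP_3d425c_gt.Bg Pool.Agent.Work.MP_3d425c_gt.Bq

/-- the stabiliser of a component of a cofinite graph with a free action on the vertices -/
theorem fg_comp {D A C : Type} [Group D] [MulAction D A] [MulAction D C] [Finite (Ob D C)]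
    (fr : ∀ (g : D) (v : A), g • v = v → g = 1) (en : C → Bool → A)
    (ee : ∀ (g : D) e i, en (g • e) i = g • en e i) (c : C) {S : Subgroup D}
    (hS : ∀ g, g ∈ S ↔ EqvGen (fun x y => ∃ k l, en x k = en y l) c (g • c)) : S.FG := by
  classical
  obtain ⟨r, hr⟩ : ∃ r, r = EqvGen (fun x y : C => ∃ k l, en x k = en y l) := ⟨_, rfl⟩
  rw [← hr] at hS
  have eq : Equivalence r := hr ▸ EqvGen.is_equivalence _
  have rV : ∀ e e' i j, en e i = en e' j → r e e' := fun e e' i j h =>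
    hr ▸ EqvGen.rel _ _ ⟨i, j, h⟩
  have rs : ∀ (g : D) e e', r e e' → r (g • e) (g • e') := fun g e e' h => by
    rw [hr] at h
    induction h with
    | rel x y c => obtain ⟨k, l, c⟩ := c; exact rV _ _ k l (by rw [ee, ee, c])
    | refl => exact eq.refl _
    | symm _ _ _ ih => exact eq.symm ih
    | trans _ _ _ _ _ i j => exact eq.trans i j
  have ex : ∀ q : Ob D C, ∃ k : C, ∀ x, r c x → ob D x = q → r c k ∧ ob D k = q := fun q => by
    by_cases h : ∃ x, r c x ∧ ob D x = q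
    · exact h.imp fun _ h _ _ _ => h
    · exact ⟨c, fun x a b => absurd ⟨x, a, b⟩ h⟩
  choose ρ hρ using ex
  let F : Set D := ⋃ (q : Ob D C) (q' : Ob D C) (i : Bool) (j : Bool),
    {g | g ∈ S ∧ en (ρ q) i = g • en (ρ q') j}
  have hF : F.Finite := finite_iUnion fun q => finite_iUnion fun q' => finite_iUnion fun i =>
    finite_iUnion fun j => Set.Subsingleton.finite fun g hg h hh =>
      (inv_mul_eq_one.1 (fr (h⁻¹ * g) _ (by rw [mul_smul, ← hg.2, hh.2, inv_smul_smul]))).symm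
  have le : Subgroup.closure F ≤ S := (Subgroup.closure_le _).2 fun g hg => by
    simp only [F, mem_iUnion] at hg
    obtain ⟨_, _, _, _, h, -⟩ := hg
    exact h
  have st : ∀ x y i j, en x i = en y j → r c x →
      (∃ h ∈ Subgroup.closure F, h • ρ (ob D x) = x) →
        ∃ h ∈ Subgroup.closure F, h • ρ (ob D y) = y := by
    rintro x y i j e hx ⟨h, hh, eh⟩
    have hy := eq.trans hx (rV _ _ _ _ e)
    obtain ⟨y1, y2⟩ := hρ _ y hy rfl
    obtain ⟨g, eg⟩ := ob_eq_iff.1 y2.symm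
    have gS : g ∈ S := (hS g).2 (eq.trans hy (eq.symm (eg ▸ rs g _ _ y1)))
    have m : h⁻¹ * g ∈ F := mem_iUnion.2 ⟨ob D x, mem_iUnion.2 ⟨ob D y, mem_iUnion.2 ⟨i,
      mem_iUnion.2 ⟨j, S.mul_mem (S.inv_mem (le hh)) gS, by
        rw [mul_smul, ← ee, eg, ← e, eq_inv_smul_iff, ← ee, eh]⟩⟩⟩⟩
    exact ⟨g, by simpa using mul_mem hh (Subgroup.subset_closure m), eg⟩
  have all : ∀ x y, r x y → r c x → ((∃ h ∈ Subgroup.closure F, h • ρ (ob D x) = x) ↔
      ∃ h ∈ Subgroup.closure F, h • ρ (ob D y) = y) := fun x y h => by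
    have h' := h
    rw [hr] at h'
    induction h' with
    | rel x y k =>
      obtain ⟨i, j, e⟩ := k
      exact fun hx => ⟨st x y i j e hx, st y x j i e.symm (eq.trans hx h)⟩
    | refl => exact fun _ => Iff.rfl
    | symm x y k ih => exact fun hy => (ih (eq.symm h) (eq.trans hy h)).symm
    | trans x y z k l i j =>
      rw [← hr] at k l
      exact fun hx => (i k hx).trans (j l (eq.trans hx k))
  obtain ⟨c1, c2⟩ := hρ _ c (eq.refl c) rfl
  have base : ∃ h ∈ Subgroup.closure F, h • ρ (ob D c) = c :=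
    (all c _ c1 (eq.refl c)).2 ⟨1, one_mem _, by rw [c2, one_smul]⟩
  refine (Subgroup.fg_iff S).2 ⟨F, le_antisymm le fun s hs => ?_, hF⟩
  obtain ⟨h, hh, e⟩ := (all c _ ((hS s).1 hs) (eq.refl c)).1 base
  obtain ⟨h0, hh0, e0⟩ := base
  rw [ob_smul] at e
  have : h⁻¹ * (s * h0) = 1 := fr _ (en (ρ (ob D c)) true) (by
    rw [← ee, mul_smul, mul_smul, e0, ← e, inv_smul_smul])
  rw [show s = h * h0⁻¹ by rw [inv_mul_eq_one.1 this, mul_inv_cancel_right]]
  exact mul_mem hh (inv_mem hh0)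

variable {G X0 X1 X2 X3 : Type} [Group G] [MulAction G X0] [MulAction G X1] [MulAction G X2]
  [MulAction G X3] {T : Tri G X0 X1 X2 X3} {E : Subgroup G} {Ω : Type} [MulAction E Ω]

/-- Either the stage is finite modulo a cyclic group, or the boundary has no positive Euler
characteristic, and when it vanishes the boundary splits along the peripheral subgroups. -/
theorem ufam (hM : Mfd T) (hG : Sf.Csa E) {W : Et T E Ω} {ω : Ω} (fc : W.Fc ω) (bd : ∃ x, W.Bd x)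
    (hz : W.Zp) : (∃ a : E, Sm a (univ : Set Ω)) ∨
    (oc E (W.C1 1 1) + oc E (W.C3 1 3) ≤ oc E (W.C2 1 2) ∧
      (oc E (W.C2 1 2) ≤ oc E (W.C1 1 1) + oc E (W.C3 1 3) →
        ∀ (I : Type) [Fintype I] (P : I → Subgroup E),
        (∀ A : Subgroup E, A.FG → (∀ x ∈ A, ∀ y ∈ A, x * y = y * x) →
          (∀ a : E, ∃ x ∈ A, x ∉ Subgroup.zpowers a) → ∃ i g, ∀ x ∈ A, g * x * g⁻¹ ∈ P i) →
        (∀ i j x g, x ≠ 1 → x ∈ P i → g * x * g⁻¹ ∈ P j → i = j ∧ g ∈ P i) →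
        ∃ u : I → Option Ω → X1 → Option Ω → ℝ, (∀ i, W.Rq (P i) (u i)) ∧
          (∀ a e b, W.Rp a e b → ∑ i, sm1 (P i) (u i) a e b = fi_p b - fi_p a) ∧
          ((∀ i, ∃ s : Option Ω → ℝ, s none = 0 ∧ SmP (P i) {x | s (some x) ≠ 0} ∧
            ∀ a e b, W.Rp a e b → u i a e b = s b - s a) → ∃ i, SmP (P i) (univ : Set Ω)))) := by
  classical
  have := fc.fin
  have := W.finC2 one_pos 2
  have := hM.finC1 W one_pos 1
  obtain ⟨en, sd, e2, e1, s1, e3, s2, ev, lV, lF⟩ := bq_data hM W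
  rcases Sf.surf2 hG
    (fun g c h => W.free_cell g c.2.2.1 (congrArg (fun z : W.C1 1 1 => z.1.2) h))
    (fun g c h => W.free_cell g c.2.2.1 (congrArg (fun z : W.C3 1 3 => z.1.2) h))
    en sd e1 s1 e3 s2 ev lV lF with ⟨a, U, u1, u2, u3, K, hK, u4⟩ | ⟨h1, h2, h3⟩
  · refine Or.inl ⟨a, fill fc hz (U := {v | ∃ c ∈ U, ∃ i, (en c i).1 = v}) ?_ ?_ (fun v => ⟨?_, ?_⟩)
      ⟨(fun p : W.C2 1 2 × Bool => (en p.1 p.2).1) '' (K ×ˢ univ),
        (hK.prod finite_univ).image _, ?_⟩ ?_⟩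
    · obtain ⟨c, hc⟩ := u1
      exact ⟨_, c, hc, true, rfl⟩
    · rintro _ ⟨c, -, i, rfl⟩
      exact (en c i).2
    · rintro ⟨c, hc, i, e⟩
      refine ⟨a⁻¹ • c, (u3 _).1 (by rwa [smul_inv_smul]), i, ?_⟩
      rw [e1]
      show a⁻¹ • (en c i).1 = v
      rw [e, inv_smul_smul]
    · rintro ⟨c, hc, i, rfl⟩
      exact ⟨a • c, (u3 c).2 hc, i, congrArg Subtype.val (e1 a c i)⟩
    · rintro _ ⟨c, hc, i, rfl⟩
      obtain ⟨k, hk, n, rfl⟩ := u4 c hc
      exact ⟨_, ⟨(k, i), ⟨hk, trivial⟩, rfl⟩, n, congrArg Subtype.val (e1 _ k i)⟩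
    · rintro c hc k l ⟨c', hc', i, e⟩ hl
      obtain ⟨j, a1⟩ := e2 ⟨c, hc⟩ k (en c' i) e.symm
      obtain ⟨j', a2⟩ := e2 ⟨c, hc⟩ l ⟨_, hl⟩ rfl
      exact ⟨⟨c, hc⟩, u2 c' hc' _ i j a1.symm, j', congrArg Subtype.val a2⟩
  refine Or.inr ⟨h1, fun h4 I _ P cov mal => ?_⟩
  replace h3 := h3 h4
  obtain ⟨r, hr⟩ : ∃ r, r = EqvGen (fun x y : W.C2 1 2 => ∃ k l, en x k = en y l) := ⟨_, rfl⟩
  rw [← hr] at h2 h3
  have eq : Equivalence r := hr ▸ EqvGen.is_equivalence _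
  have rV : ∀ e e' i j, en e i = en e' j → r e e' := fun e e' i j h =>
    hr ▸ EqvGen.rel _ _ ⟨i, j, h⟩
  have rs : ∀ (g : E) e e', r e e' → r (g • e) (g • e') := fun g e e' h => by
    rw [hr] at h
    induction h with
    | rel x y c => obtain ⟨k, l, c⟩ := c; exact rV _ _ k l (by rw [e1, e1, c])
    | refl => exact eq.refl _
    | symm _ _ _ ih => exact eq.symm ih
    | trans _ _ _ _ _ i j => exact eq.trans i j
  let S : W.C1 1 1 → Subgroup E := fun v =>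
    { carrier := {g | ∀ c i, en c i = v → r c (g • c)}
      one_mem' := fun c _ _ => (one_smul E c).symm ▸ eq.refl c
      mul_mem' := fun {g h} a b c i e => eq.trans (a c i e) (mul_smul g h c ▸ rs g _ _ (b c i e))
      inv_mem' := fun {g} a c i e => eq.symm (by
        have := rs g⁻¹ _ _ (a c i e)
        rwa [inv_smul_smul] at this) }
  have mS : ∀ c i (g : E), g ∈ S (en c i) ↔ r c (g • c) := fun c i g =>
    ⟨fun h => h c i rfl, fun h c' i' e => eq.trans (rV _ _ _ _ e)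
      (eq.trans h (rs g _ _ (rV _ _ _ _ e.symm)))⟩
  obtain ⟨p1, p2, p3⟩ := bq_sort S (fun g v x => by
      obtain ⟨c, i, rfl⟩ := e3 v
      rw [← e1, mS, mS, mul_smul, mul_smul]
      refine ⟨fun h => ?_, fun h => ?_⟩
      · have := rs g⁻¹ _ _ h
        rwa [inv_smul_smul] at this
      · have := rs g _ _ h
        rwa [smul_inv_smul] at this)
    (fun v => by
      obtain ⟨c, i, rfl⟩ := e3 v
      obtain ⟨g, a, b⟩ := h2 c 1
      exact ⟨g, (mS c i g).2 a, fun e => b (by rw [e]; exact Subgroup.one_mem _)⟩) P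
    (fun v => by
      obtain ⟨c, i, rfl⟩ := e3 v
      refine cov _ (fg_comp (fun g c h => W.free_cell g c.2.2.1
          (congrArg (fun z : W.C1 1 1 => z.1.2) h)) en e1 c fun g => hr ▸ mS c i g)
        (fun x hx y hy => h3 c x y ((mS c i x).1 hx) ((mS c i y).1 hy)) fun a => ?_
      obtain ⟨g, a, b⟩ := h2 c a
      exact ⟨g, (mS c i g).2 a, b⟩) mal
  let U : I → Set (X1 × (Fin 2 → Option Ω)) := fun i => Subtype.val '' {v | S v ≤ P i}
  have mU : ∀ i (v : W.C1 1 1), v.1 ∈ U i ↔ S v ≤ P i := fun i v =>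
    Subtype.val_injective.mem_set_image
  have U1 : ∀ i, ∀ c ∈ U i, c ∈ W.C1 1 1 := by
    rintro i _ ⟨v, -, rfl⟩
    exact v.2
  refine ⟨fun i x e y => fi_z (U i) (e, ![x, y]), fun i => bq_rq (U1 i) ?_
    ((p2 i).image _ fun _ _ _ => rfl) ?_, fun a e b k => ?_, fun h => ?_⟩
  · rintro p hp _ ⟨v, hv, rfl⟩
    exact ⟨p • v, p1 i p hp v hv, rfl⟩
  · rintro c hc k l ⟨v, hv, e⟩ hl
    obtain ⟨j, rfl⟩ := e2 ⟨c, hc⟩ k v e.symm
    obtain ⟨j', a2⟩ := e2 ⟨c, hc⟩ l ⟨_, hl⟩ rfl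
    refine (mU i ⟨_, hl⟩).2 (a2 ▸ fun x hx => hv ((mS _ _ _).2 ((mS _ _ _).1 hx)))
  · have val : ∀ i (g : E), fi_z (U i) (g • e, ![g • a, g • b]) =
        if g • (e, ![a, b]) ∈ U i then fi_p b - fi_p a else 0 := fun i g => by
      unfold fi_z
      rw [← bq_cell]
      exact if_congr Iff.rfl (congrArg₂ (· - ·) (bq_p g b) (bq_p g a)) rfl
    simp only [sm1, val]
    by_cases n : fi_p b - fi_p a = 0
    · simp [n]
    let v : W.C1 1 1 := ⟨(e, ![a, b]), k, (fi_np2 _).2 n⟩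
    obtain ⟨i, q, q1, q2, q3⟩ := p3 v
    rw [Finset.sum_eq_single i (fun j _ hj => finsum_eq_zero_of_forall_eq_zero fun q' =>
        if_neg fun c => q3 j hj _ ((mU j (q'.out⁻¹ • v)).1 c)) (by simp)]
    refine (finsum_eq_single _ q fun q' hq => ?_).trans (if_pos ((mU i (q.out⁻¹ • v)).2 q1))
    exact if_neg fun c => hq (q2 q' ((mU i (q'.out⁻¹ • v)).1 c))
  · have : Nonempty (W.C1 1 1) := by
      obtain ⟨x, e, hx | hx⟩ := bd
      · exact ⟨⟨(e, ![some x, none]), hx, show (1 : ℕ) ∈ Icc 1 1 from ⟨le_rfl, le_rfl⟩⟩⟩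
      · exact ⟨⟨(e, ![none, some x]), hx, show (1 : ℕ) ∈ Icc 1 1 from ⟨le_rfl, le_rfl⟩⟩⟩
    obtain ⟨v⟩ := this
    obtain ⟨i, q, q1, -⟩ := p3 v
    obtain ⟨s, s0, s1, s2⟩ := h i
    exact ⟨i, s1.mono fun x _ => bq_fill fc (U := U i) ⟨_, (mU i _).2 q1⟩ (U1 i) s0 s2 x⟩

variable {I : Type} [Fintype I] {P : I → Subgroup E} {z : I → X1 → ℝ}

/-- all walls, at most one character more -/
theorem topB (hM : Mfd T) (tf : ∀ a : G, a ≠ 1 → ¬ IsOfFinOrder a) (hG : Sf.Csa E)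
    (hE : ¬ E.FiniteIndex) (hfg : E.FG) (hd : Dual T E) (hz : ∀ i, Wz T (P i) (z i))
    (ind : IndW T P z) (one : ∀ i, OneW T (P i) (z i))
    (per : ∀ A : Subgroup E, A.FG → (∀ x ∈ A, ∀ y ∈ A, x * y = y * x) →
      (∀ a : E, ∃ x ∈ A, x ∉ Subgroup.zpowers a) → ∃ i g, ∀ x ∈ A, g * x * g⁻¹ ∈ P i)
    (mal : ∀ i j x g, x ≠ 1 → x ∈ P i → g * x * g⁻¹ ∈ P j → i = j ∧ g ∈ P i)
    (ab : ∀ i, ∀ a ∈ P i, ∀ b ∈ P i, a * b = b * a) {n : ℕ} (κ : Fin n → E)
    (h0 : ∀ φ : E →* Multiplicative ℝ, (∀ i, φ (κ i) = 1) → φ = 1)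
    (hn : n ≤ Fintype.card I + 1) (g k : E) : g * k = k * g := by
  obtain ⟨Ω, _, W, ω, fc, ⟨j, j4⟩, t, y, y1, y2⟩ := to_stage hM hE hfg
    ((adm_zp hM (zbase_tf hM tf E)).and
      (Adm.all fun i => adm_i4 (to_base hM hz ind i (one i)))) hz κ h0
  have := fc.fin
  have bd := hM.exists_bd hE fc
  have h1 := hd Ω W ω n fc bd t I _ (fun i => (y1 i).sum) (to_ind ind y1 y2)
  rcases Rv.ufam hM hG fc bd j with ⟨a, h⟩ | ⟨h, h2⟩
  · refine to_comm hG W.free ω ?_ (smP_zpowers.2 h) g k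
    rintro _ ⟨m, rfl⟩ _ ⟨l, rfl⟩
    exact zpow_mul_comm a m l
  obtain ⟨u, u1, u2, u3⟩ := h2 (by omega) I P per mal
  choose c s si ss es using fun i => one i _ (pf1_wz hM (u1 i))
  have k1 : ∀ i e, pf1 W (sm1 (P i) (u i)) e = c i * sm0 (P i) (z i) e +
      (sm0 (P i) (s i) (T.d1 e 0) - sm0 (P i) (s i) (T.d1 e 1)) := fun i e =>
    (pf1_sm1 (u1 i) e).trans (to_sm0 (hz i).sup (ss i) (es i) e)
  have c0 : c = 0 := by
    refine ind c (fun x => pf0 W fi_p x - ∑ i, sm0 (P i) (s i) x) (fun g x => ?_)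
      (to_sub (pf0_sm _) (to_sum fun i => to_sup (ss i))) fun e => ?_
    · rw [to_pf0 fun g a => by cases a <;> rfl]
      simp only [fun i => to_inv (si i) g x]
    · have a1 := (pf1_congr u2 e).trans (pf1_d (s := fi_p) (if_neg nofun) e)
      have a2 := pf1_sum (W := W) (fun _ => 1) (fun i => sm1 (P i) (u i)) e
      simp only [one_mul, k1, Finset.sum_add_distrib, Finset.sum_sub_distrib] at a2
      linarith
  obtain ⟨i, hi⟩ := u3 fun i => j4 i _ (u1 i) (to_inj ind y1 y2 (fun m => by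
      have := hd Ω W ω n fc bd t (Option I) _ (fun o => by
        cases o
        exacts [(u1 i).sum, (y1 _).sum]) m
      rw [Fintype.card_option] at this
      omega) (to_inv (si i)) (to_sup (ss i)) fun e => by
    rw [k1, c0, Pi.zero_apply, zero_mul, zero_add])
  exact to_comm hG W.free ω (ab i) hi g k

end Pool.Agent.Work.MP_3d425c_gt.Rv
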