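import Pool.Agent.Work.MP_3d425c_gt.To.CvA
import Pool.Agent.Work.MP_3d425c_gt.Sv.Wall
import Pool.Agent.Work.MP_3d425c_gt.Nz.EZorn
import Pool.Agent.Work.MP_3d425c_gt.Cw.AB
import Pool.Agent.Work.MP_3d425c_gt.Md.Flow
import Pool.Agent.Work.MP_3d425c_gt.Bg.End1
import Pool.Agent.Work.MP_3d425c_gt.Nz.Big
import Pool.Agent.Work.MP_3d425c_gt.Nz.Surf4
import Pool.Agent.Work.MP_3d425c_gt.Bq.Dual1
import Pool.Agent.Work.MP_3d425c_gt.Bg.LatEnd
import Pool.Agent.Work.MP_3d425c_gt.Bg.Tf2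
import Pool.Agent.Work.MP_3d425c_gt.Nz.Star

-- merged part: Pool.Agent.Work.MP_3d425c_gt.To.CvI
section
/-! Conversion of a zigzag into a line: the index set of the cells. -/

namespace Pool.Agent.Work.MP_3d425c_gt.To.Cv
open Set Filter Topology Pool.Agent.Work.MP_3d425c_gt.Cy

universe u v w
variable {G : Type v} {X : Type u} [Group G] [MulAction G X] {C : Set (ℝ → X)} {up : X → X → Prop}

/-- the cocycle of the section of the cosets -/
noncomputable def ciC {P : Subgroup G} (g : G) (c : G ⧸ P) : G := (g • c).out⁻¹ * g * c.out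

theorem ciC_mem {P : Subgroup G} (g : G) (c : G ⧸ P) : ciC g c ∈ P := by
  have h : ((g • c).out : G ⧸ P) = ((g * c.out : G) : G ⧸ P) := by
    rw [QuotientGroup.out_eq', ← smul_eq_mul, MulAction.Quotient.coe_smul_out]
  have h2 := QuotientGroup.eq.1 h
  rwa [← mul_assoc] at h2

theorem ciC_mul {P : Subgroup G} (g h : G) (c : G ⧸ P) :
    ciC (g * h) c = ciC g (h • c) * ciC h c := by
  simp only [ciC, mul_smul]
  group

theorem ciC_one {P : Subgroup G} (c : G ⧸ P) : ciC 1 c = 1 := by simp [ciC]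

theorem ciC_out {P : Subgroup G} (g : G) (c : G ⧸ P) : (g • c).out * ciC g c = g * c.out := by
  simp only [ciC]
  group

theorem ciC_fix {P : Subgroup G} {g : G} {c : G ⧸ P} (h : g • c = c) :
    ciC g c = c.out⁻¹ * g * c.out := by rw [ciC, h]

theorem ci_conj {P : Subgroup G} (c : G ⧸ P) {p : G} (hp : p ∈ P) :
    (c.out * p * c.out⁻¹) • c = c := by
  have h : (c.out * p * c.out⁻¹) • c = ((c.out * p * c.out⁻¹ * c.out : G) : G ⧸ P) := by
    rw [← smul_eq_mul _ c.out, MulAction.Quotient.coe_smul_out]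
  rw [h, inv_mul_cancel_right, QuotientGroup.mk_mul_of_mem _ hp, QuotientGroup.out_eq']

/-- the cells -/
structure CI {J : Type w} (P : J → Subgroup G) : Type (max v w) where
  j : J
  c : G ⧸ P j
  k : ℤ

/-- the shift of the cells -/
def ciS {J : Type w} (P : J → Subgroup G) (n : ℤ) : Equiv.Perm (CI P) where
  toFun i := ⟨i.j, i.c, i.k + n⟩
  invFun i := ⟨i.j, i.c, i.k - n⟩
  left_inv := by
    rintro ⟨j, c, k⟩
    simp
  right_inv := by
    rintro ⟨j, c, k⟩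
    simp

theorem ciS_app {J : Type w} (P : J → Subgroup G) (n : ℤ) (j : J) (c : G ⧸ P j) (k : ℤ) :
    ciS P n ⟨j, c, k⟩ = ⟨j, c, k + n⟩ := rfl

theorem ciS_add {J : Type w} (P : J → Subgroup G) (m n : ℤ) :
    ciS P (m + n) = ciS P m * ciS P n := by
  ext1 ⟨j, c, k⟩
  rw [Equiv.Perm.mul_apply, ciS_app, ciS_app, ciS_app, add_assoc, add_comm n m]

theorem ciS_zero {J : Type w} (P : J → Subgroup G) : ciS P 0 = 1 := by
  ext1 ⟨j, c, k⟩
  rw [ciS_app, add_zero]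
  rfl

theorem ciS_pow {J : Type w} (P : J → Subgroup G) (n : ℤ) : ciS P 1 ^ n = ciS P n := by
  induction n using Int.induction_on with
  | zero => rw [zpow_zero, ciS_zero]
  | succ n ih => rw [zpow_add_one, ih, ciS_add]
  | pred n ih =>
    rw [zpow_sub_one, ih, mul_inv_eq_iff_eq_mul, ← ciS_add, sub_add_cancel]

theorem ci_lg (sm : ∀ g : G, ∀ c ∈ C, (fun t => g • c t) ∈ C) (g : G) {x y : X}
    (hxy : LG C x y) : LG C (g • x) (g • y) := by
  obtain ⟨c, hc, d, hd, h1, h2, h3⟩ := hxy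
  exact ⟨_, sm g c hc, _, sm g d hd, congrArg (g • ·) h1, congrArg (g • ·) h2,
    fun u hu => congrArg (g • ·) (h3 u hu)⟩

theorem ci_le (sm : ∀ g : G, ∀ c ∈ C, (fun t => g • c t) ∈ C) (g : G) {x y : X}
    (e : Ax.Le C x y) : Ax.Le C (g • x) (g • y) := by
  refine e.imp (congrArg _) ?_
  rintro ⟨c, hc, s, t, st, rfl, rfl⟩
  exact ⟨_, sm g c hc, s, t, st, rfl, rfl⟩

theorem ix_of_seq [Countable G] {J : Type w} [Countable J] (P : J → Subgroup G)
    (hP : ∀ j, ∀ p ∈ P j, ∀ q ∈ P j, p * q = q * p)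
    (mal : ∀ j k (g p : G), p ∈ P j → p ≠ 1 → g * p * g⁻¹ ∈ P k → j = k ∧ g ∈ P j)
    (δ : J → G → ℤ) (ν ν' ω ω' : J → ℤ → X) (hq : ∀ j, Sq C (P j) (δ j) (ν j) (ν' j) (ω j) (ω' j))
    (sm : ∀ g : G, ∀ c ∈ C, (fun t => g • c t) ∈ C)
    (nt : ∀ j, ∃ τ ∈ P j, τ ≠ 1 ∧ δ j τ = 0) (s' : J → G → ℝ)
    (hs : ∀ j, ∀ p ∈ P j, ∀ q ∈ P j, s' j (p * q) = s' j p + s' j q)
    (ker : ∀ j, ∀ p ∈ P j, δ j p = 0 → s' j p = 0 → p = 1) :
    ∃ (I : Type (max v w)) (_ : MulAction G I) (nx : Equiv.Perm I) (μ μ' o o' : I → X)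
      (σ : G → I → ℝ) (b : J → I), Ix G nx ∧ ZZ G C nx μ μ' o o' ∧ Sp G nx σ ∧
      (∀ j, ∀ p ∈ P j, p • b j = (nx ^ δ j p) (b j) ∧ σ p (b j) = s' j p) ∧
      ∀ (g : G) (i : I), g • i = i → ∃ j x, x⁻¹ * g * x ∈ P j := by
  have d1 : ∀ j, δ j 1 = 0 := fun j => by
    have := (hq j).add 1 (one_mem _) 1 (one_mem _)
    rw [mul_one] at this
    omega
  let A : MulAction G (CI P) :=
    { smul := fun g i => ⟨i.j, g • i.c, i.k + δ i.j (ciC g i.c)⟩
      one_smul := by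
        rintro ⟨j, c, k⟩
        change (⟨j, (1 : G) • c, k + δ j (ciC 1 c)⟩ : CI P) = ⟨j, c, k⟩
        rw [one_smul, ciC_one, d1, add_zero]
      mul_smul := by
        rintro g h ⟨j, c, k⟩
        change (⟨j, (g * h) • c, k + δ j (ciC (g * h) c)⟩ : CI P) =
          ⟨j, g • h • c, k + δ j (ciC h c) + δ j (ciC g (h • c))⟩
        rw [ciC_mul, (hq j).add _ (ciC_mem _ _) _ (ciC_mem _ _), mul_smul, add_assoc,
          add_comm (δ j (ciC h c))] }
  have act : ∀ (g : G) (j : J) (c : G ⧸ P j) (k : ℤ),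
      g • (⟨j, c, k⟩ : CI P) = ⟨j, g • c, k + δ j (ciC g c)⟩ := fun _ _ _ _ => rfl
  have fix : ∀ (g : G) (j : J) (c : G ⧸ P j) (k : ℤ), g • (⟨j, c, k⟩ : CI P) = ⟨j, c, k⟩ →
      g • c = c ∧ δ j (ciC g c) = 0 := by
    intro g j c k h
    rw [act] at h
    have h2 := (CI.mk.inj h).2
    exact ⟨eq_of_heq h2.1, by have := h2.2; omega⟩
  have eqv : ∀ a : J → ℤ → X, (∀ j, ∀ p ∈ P j, ∀ k, p • a j k = a j (k + δ j p)) →
      ∀ (g : G) (i : CI P), (g • i).c.out • a (g • i).j (g • i).k =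
        g • i.c.out • a i.j i.k := by
    rintro a ha g ⟨j, c, k⟩
    change (g • c).out • a j (k + δ j (ciC g c)) = g • c.out • a j k
    rw [← ha j _ (ciC_mem g c), ← mul_smul, ciC_out, mul_smul]
  have smd : ∀ g : G, ∀ c ∈ dualC C, (fun t => g • c t) ∈ dualC C := fun g c hc => sm g _ hc
  refine ⟨CI P, A, ciS P 1, fun i => i.c.out • ν i.j i.k, fun i => i.c.out • ν' i.j i.k,
    fun i => i.c.out • ω i.j i.k, fun i => i.c.out • ω' i.j i.k,
    fun g i => s' i.j (ciC g i.c), fun j => ⟨j, ((1 : G) : G ⧸ P j), 0⟩,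
    ⟨?_, ?_, ?_, ?_⟩, ⟨eqv ν fun j => (hq j).e1, eqv ν' fun j => (hq j).e2,
      eqv ω fun j => (hq j).e3, eqv ω' fun j => (hq j).e4,
      fun i => ci_lg sm _ ((hq i.j).lg _), fun i e => (hq i.j).ne _ (smul_left_cancel _ e),
      fun i => ci_le sm _ ((hq i.j).le _), fun i => ci_le sm _ ((hq i.j).le' _),
      fun i => ci_lg smd _ ((hq i.j).ug _), fun i e => (hq i.j).ne' _ (smul_left_cancel _ e)⟩,
    ⟨fun g h i => ?_, fun _ _ => rfl, ?_⟩, fun j p hp => ?_, ?_⟩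
  · have : ∀ j, Countable (G ⧸ P j) := fun j => QuotientGroup.mk_surjective.countable
    refine Function.Surjective.countable
      (f := fun x : Σ j : J, (G ⧸ P j) × ℤ => (⟨x.1, x.2.1, x.2.2⟩ : CI P)) ?_
    rintro ⟨j, c, k⟩
    exact ⟨⟨j, c, k⟩, rfl⟩
  · rintro g ⟨j, c, k⟩
    rw [act, ciS_app, ciS_app, act, add_right_comm]
  · rintro ⟨j, c, k⟩
    obtain ⟨τ, h1, h2, h3⟩ := nt j
    refine ⟨c.out * τ * c.out⁻¹, fun e => h2 (by simpa using e), ?_⟩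
    have h4 : ciC (c.out * τ * c.out⁻¹) c = τ := by
      rw [ciC_fix (ci_conj c h1)]
      group
    rw [act, h4, h3, add_zero, ci_conj c h1]
  · rintro g ⟨j, c, k⟩ ⟨j', c', k'⟩ g1 h h'
    have h1 := (fix g j c k h).1
    have h2 := (fix g j' c' k' h').1
    have m1 := ciC_mem g c
    have m2 := ciC_mem g c'
    rw [ciC_fix h1] at m1
    rw [ciC_fix h2] at m2
    have n1 : c.out⁻¹ * g * c.out ≠ 1 := fun e => g1 (by
      have : g = c.out * (c.out⁻¹ * g * c.out) * c.out⁻¹ := by group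
      rw [this, e]
      simp)
    obtain ⟨rfl, h4⟩ := mal j j' (c'.out⁻¹ * c.out) _ m1 n1 (by
      have : c'.out⁻¹ * c.out * (c.out⁻¹ * g * c.out) * (c'.out⁻¹ * c.out)⁻¹ =
        c'.out⁻¹ * g * c'.out := by group
      rwa [this])
    have h5 : c' = c := by
      have := QuotientGroup.eq.2 h4
      rwa [QuotientGroup.out_eq', QuotientGroup.out_eq'] at this
    refine ⟨k' - k, ?_⟩
    rw [ciS_pow, ciS_app, h5, add_sub_cancel]
  · obtain ⟨j, c, k⟩ := i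
    change s' j (ciC (g * h) c) = s' j (ciC g (h • c)) + s' j (ciC h c)
    rw [ciC_mul, hs j _ (ciC_mem _ _) _ (ciC_mem _ _)]
  · rintro g ⟨j, c, k⟩ h h0
    obtain ⟨h1, h2⟩ := fix g j c k h
    have h3 := ker j _ (ciC_mem g c) h2 h0
    rw [ciC_fix h1] at h3
    have : g = c.out * (c.out⁻¹ * g * c.out) * c.out⁻¹ := by group
    rw [this, h3]
    simp
  · have h1 : p • (((1 : G) : G ⧸ P j)) = ((1 : G) : G ⧸ P j) := by
      rw [MulAction.Quotient.smul_coe, smul_eq_mul, mul_one, QuotientGroup.eq]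
      simpa using hp
    have h2 : (((1 : G) : G ⧸ P j)).out ∈ P j := by
      have := QuotientGroup.eq.1 (QuotientGroup.out_eq' (((1 : G) : G ⧸ P j))).symm
      simpa using this
    have h3 : ciC p (((1 : G) : G ⧸ P j)) = p := by
      rw [ciC_fix h1, mul_assoc, hP j p hp _ h2, inv_mul_cancel_left]
    refine ⟨?_, ?_⟩
    · rw [act, ciS_pow, ciS_app, h1, h3]
    · change s' j (ciC p (((1 : G) : G ⧸ P j))) = s' j p
      rw [h3]
  · rintro g ⟨j, c, k⟩ h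
    have h1 := (fix g j c k h).1
    exact ⟨j, c.out, ciC_fix h1 ▸ ciC_mem g c⟩

end Pool.Agent.Work.MP_3d425c_gt.To.Cv
end

-- merged part: Pool.Agent.Work.MP_3d425c_gt.To.CvF
section
/-! A degenerate zigzag is blown up with a flow and folded twice; the core of the conversion. -/

namespace Pool.Agent.Work.MP_3d425c_gt.To.Cv
open Set Filter Topology Pool.Agent.Work.MP_3d425c_gt.Cy

universe u v w
variable {G : Type v} {X : Type u} [Group G] [MulAction G X] {C : Set (ℝ → X)} {up : X → X → Prop}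
  {I : Type w} [MulAction G I]

theorem exists_flow : ∃ fl : ℝ → II ≃o II, (∀ a b, fl (a + b) = fl a * fl b) ∧
    ∀ a, 0 < a → ∀ s : II, 0 < s → s < 1 → s < fl a s := by
  have d : ∀ (a : ℝ) (s : II), 0 < Real.exp a * s + (1 - s) := fun a s => by
    have := Real.exp_pos a
    rcases s.2.1.eq_or_lt with e | e
    · rw [← e]; norm_num
    · have := mul_pos this e
      linarith [s.2.2]
  let F : ℝ → II → II := fun a s => ⟨Real.exp a * s / (Real.exp a * s + (1 - s)),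
    div_nonneg (mul_nonneg (Real.exp_pos a).le s.2.1) (d a s).le,
    (div_le_one (d a s)).2 (by linarith [s.2.2])⟩
  have m : ∀ a, StrictMono (F a) := fun a s t e => by
    have e' : (s : ℝ) < t := e
    show Real.exp a * s / _ < Real.exp a * t / _
    rw [div_lt_div_iff₀ (d a s) (d a t)]
    nlinarith [mul_pos (Real.exp_pos a) (sub_pos.2 e')]
  have c : ∀ a b s, F (a + b) s = F a (F b s) := fun a b s => Subtype.ext (by
    have d1 := (d b s).ne'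
    have d2 := (d (a + b) s).ne'
    have d3 := (d a (F b s)).ne'
    show Real.exp (a + b) * s / _ = Real.exp a * (F b s) / _
    rw [div_eq_div_iff d2 d3]
    simp only [F, Real.exp_add]
    field_simp
    ring)
  have o : ∀ s, F 0 s = s := fun s => Subtype.ext (by simp [F])
  refine ⟨fun a => (m a).orderIsoOfSurjective _ fun s => ⟨F (-a) s, by rw [← c, add_neg_cancel, o]⟩,
    fun a b => OrderIso.ext (funext (c a b)), fun a ha s s0 s1 => ?_⟩
  have s0' : (0 : ℝ) < s := s0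
  have s1' : (s : ℝ) < 1 := s1
  show (s : ℝ) < Real.exp a * s / _
  rw [lt_div_iff₀ (d a s)]
  nlinarith [mul_pos (mul_pos s0' (sub_pos.2 s1')) (sub_pos.2 (Real.one_lt_exp_iff.2 ha))]

theorem exists_rev (W : II ≃o II) :
    ∃ V : II ≃o II, ∀ s, (1 : ℝ) - V s = W (unitInterval.symm s) := by
  refine ⟨StrictMono.orderIsoOfSurjective (fun s => unitInterval.symm (W (unitInterval.symm s)))
    (fun s t e => unitInterval.strictAnti_symm (W.strictMono (unitInterval.strictAnti_symm e)))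
    fun t => ⟨unitInterval.symm (W.symm (unitInterval.symm t)), by simp⟩, fun s => ?_⟩
  show (1 : ℝ) - (1 - _) = _
  ring

theorem sy1 (s : II) : unitInterval.symm s < 1 ↔ 0 < s :=
  show (1 : ℝ) - s < 1 ↔ (0 : ℝ) < s from sub_lt_self_iff _

theorem sy0 (s : II) : 0 < unitInterval.symm s ↔ s < 1 :=
  show (0 : ℝ) < 1 - s ↔ (s : ℝ) < 1 from sub_pos

theorem asc_bt {D : Set X} (h : Om G C up) (hD : D.Countable) {x y : X} (e : Ax.Le C x y)
    (hy : y ∈ D) : Asc (blC C D) (blB D x) (blT D y) := by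
  obtain ⟨c, hc, τ, a, l, a0, a1⟩ := lift_seg h hD (p := blB D x) (q := blT D y)
    (e.symm.imp_right fun k => ⟨k, (zero_lt_one' II).trans_eq (if_pos hy).symm⟩)
  exact ⟨a, Lifts_mem hc l, 0, 1, one_pos, a0, a1⟩

variable {nx : Equiv.Perm I} {ν ν' ω ω' : I → X} {σ : G → I → ℝ}

theorem flow_fold (tf : ∀ a : G, a ≠ 1 → ¬ IsOfFinOrder a) (O : Ob G C up) (hI : Ix G nx)
    (z : ZZ G C nx ν ν' ν ν') (hσ : Sp G nx σ) :
    ∃ (Y : Type u) (_ : MulAction G Y) (C' : Set (ℝ → Y)) (up' : Y → Y → Prop) (j : X → Y),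
      Ob G C' up' ∧ Mor G I C C' j ∧ ∃ y : I → Y, ∀ (g : G) (i : I) (k : ℤ),
        g • i = (nx ^ k) i → 0 < σ g i → Asc C' (y i) (g • y i) := by
  have h := O.om
  have := hI.cnt
  obtain ⟨fl, f1, f2⟩ := exists_flow
  have f3 : ∀ a (s : II), 0 < s → s < 1 → fl a s = s → a = 0 := fun a s s0 s1 e => by
    rcases lt_trichotomy a 0 with k | k | k
    · have k1 := f2 (-a) (neg_pos.2 k) s s0 s1
      have k2 := f1 (-a) a
      have k3 := f1 0 0
      rw [add_zero] at k3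
      rw [neg_add_cancel, left_eq_mul.1 k3] at k2
      have k4 : s = fl (-a) (fl a s) := congrArg (fun f : II ≃o II => f s) k2
      rw [e] at k4
      exact absurd k4 k1.ne
    · exact k
    · exact absurd e (f2 a k s s0 s1).ne'
  let e : I ⊕ I → X := Sum.elim ν ν'
  let ix : I ⊕ I → I := Sum.elim id id
  have he : ∀ (g : G) k, e (g • k) = g • e k := by
    rintro g (i | i)
    exacts [z.e1 g i, z.e2 g i]
  have hx : ∀ (g : G) k, ix (g • k) = g • ix k := by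
    rintro g (i | i) <;> rfl
  have fx : ∀ k, ∃ g : G, g ≠ 1 ∧ g • ix k = ix k ∧ g • e k = e k := fun k => by
    obtain ⟨g, k1, k2⟩ := hI.nt (ix k)
    refine ⟨g, k1, k2, ?_⟩
    rcases k with i | i
    exacts [(z.e1 g i).symm.trans (congrArg ν k2), (z.e2 g i).symm.trans (congrArg ν' k2)]
  have cell : ∀ k, Cell C ν ν' ν ν' (ix k) (e k) := by
    rintro (i | i)
    exacts [.inl ⟨.inl rfl, .inl rfl⟩, .inr ⟨.inl rfl, .inl rfl⟩]
  have inj : Function.Injective e := fun k k' q => by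
    obtain ⟨g, k1, k2, k3⟩ := fx k
    obtain ⟨g', k4, k5, k6⟩ := fx k'
    have := z.key tf O hI (cell k) (q ▸ cell k') k1 k2 k3 k4 k5 (q ▸ k6)
    rcases k with i | i <;> rcases k' with j | j <;> obtain rfl : i = j := this
    exacts [rfl, absurd q (z.ne i), absurd q.symm (z.ne i), rfl]
  have hD : (range e).Countable := countable_range _
  have inv : ∀ (g : G) x, x ∈ range e → g • x ∈ range e := by
    rintro g _ ⟨i, rfl⟩
    exact ⟨g • i, he g i⟩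
  obtain ⟨κ, hκ, hκ'⟩ := push e inj he (fun g k => fl (σ g (ix k))) fun g g' k => by
    rw [hσ.coc, f1, hx]
  let _ := blAct2 (range e) inv κ hκ
  have A := blA_act (range e) inv κ hκ
  choose a ha ha' using fun k => gap_chart h hD (mem_range_self (f := e) k)
  have sm : ∀ (g : G) k (s : II), g • a k s = a (g • k) (fl (σ g (ix k)) s) := fun g k s => by
    refine Subtype.ext ?_
    rw [ha']
    exact Prod.ext (by rw [A.sm1, ha', he]) (by rw [A.sm2, ha', hκ'])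
  have ai : ∀ k k' (s t : II), a k s = a k' t → k = k' ∧ s = t := fun k k' s t q => by
    have := congrArg (fun p => p.1) q
    simp only [ha'] at this
    exact ⟨inj (congrArg Prod.fst this), congrArg Prod.snd this⟩
  have a0 : ∀ k, a k 0 = blB _ (e k) := fun k => Subtype.ext (ha' k 0)
  have a1 : ∀ k, a k 1 = blT _ (e k) := fun k =>
    Subtype.ext ((ha' k 1).trans (Prod.ext rfl (if_pos (mem_range_self k)).symm))
  have z1 := z.blow h hD A
  have AR : Arms G (blC C (range e)) (fun i => a (.inl i)) fun i => a (.inr i) := by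
    refine ⟨fun i => ha _, fun i => ha _, fun g i => ⟨fl (σ g i), fun s => ⟨sm g _ s, sm g _ s⟩⟩,
      fun i => ?_, hI.nt, fun i j q => Sum.inl.inj (ai _ _ 0 0 q).1,
      fun i j q => Sum.inl_ne_inr (ai _ _ 0 0 q).1, fun i j s t _ _ q => Sum.inr.inj (ai _ _ s t q).1,
      fun g i j s t _ _ _ _ _ q => absurd (ai _ _ s t q).1 Sum.inl_ne_inr⟩
    rw [a0, a0]
    exact z1.lg i
  obtain ⟨Y, _, π, C1, up1, O1, M1, ch, gl, -, cr, -⟩ := AR.glue tf (O.blow hD A)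
  have rt : ∀ k (s : II) w, Relation.ReflTransGen (Par (fun i => a (.inl i)) fun i => a (.inr i))
      (a k s) w → w = a k s ∨ (s < 1 ∧ w = a (.inl (ix k)) s) := fun k s w q => by
    induction q with
    | refl => exact .inl rfl
    | tail _ q ih =>
      obtain ⟨i, t, ht, q1, rfl⟩ := q
      rcases ih with ih | ih
      · obtain ⟨rfl, rfl⟩ := ai _ _ _ _ (ih.symm.trans q1)
        exact .inr ⟨ht, rfl⟩
      · exact absurd (ai _ _ _ _ (ih.2.symm.trans q1)).1 Sum.inl_ne_inr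
  have pi : ∀ k k' (s t : II), π (a k s) = π (a k' t) → ix k = ix k' ∧ s = t ∧ (k = k' ∨ s < 1) :=
    fun k k' s t q => by
      obtain ⟨w, w1, w2⟩ := cr _ _ q
      rcases rt _ _ _ w1 with rfl | ⟨b1, rfl⟩ <;> rcases rt _ _ _ w2 with b | ⟨b2, b⟩ <;>
        obtain ⟨b3, rfl⟩ := ai _ _ _ _ b
      · exact ⟨congrArg ix b3, rfl, .inl b3⟩
      · exact ⟨(congrArg ix b3 :), rfl, .inr b2⟩
      · exact ⟨(congrArg ix b3 :), rfl, .inr b1⟩
      · exact ⟨(congrArg ix b3 :), rfl, .inr b1⟩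
  have dm : ∀ k, (fun t => π (a k (1 - t))) ∈ dualC C1 := fun k =>
    O1.om.reparam (ch _ (ha k)) (f := fun t => 1 - -t) (fun s t q => by linarith) (by fun_prop)
  have pj : ∀ k k' (s t : II), π (a k (1 - s)) = π (a k' (1 - t)) →
      ix k = ix k' ∧ s = t ∧ (k = k' ∨ 0 < s) := fun k k' s t q => by
    obtain ⟨b1, b2, b3⟩ := pi k k' (unitInterval.symm s) (unitInterval.symm t) q
    exact ⟨b1, unitInterval.symm_bijective.1 b2, b3.imp_right fun b => (sy1 s).1 b⟩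
  have AR2 : Arms G (dualC C1) (fun i t => π (a (.inr i) (1 - t)))
      fun i t => π (a (.inl (nx i)) (1 - t)) := by
    refine ⟨fun i => dm _, fun i => dm _, fun g i => ?_, fun i => ?_, hI.nt,
      fun i j q => (pj _ _ 0 0 q).1, fun i j q => ?_, fun i j s t _ _ q => nx.injective (pj _ _ s t q).1,
      fun g i j s t hs _ gi _ q1 q2 => hσ.ker g i gi ?_⟩
    · obtain ⟨V, hV⟩ := exists_rev (fl (σ g i))
      refine ⟨V, fun s => ⟨?_, ?_⟩⟩
      · rw [hV, ← M1.eq]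
        exact congrArg π (sm g _ (unitInterval.symm s))
      · rw [hV, ← M1.eq, hI.eq, ← hσ.nx]
        exact congrArg π (sm g _ (unitInterval.symm s))
    · rw [sub_zero, a1, a1]
      exact ug_map ch (z1.ug i)
    · exact (pj _ _ 0 0 q).2.2.elim Sum.inr_ne_inl (lt_irrefl _)
    · have s0 : 0 < s := (pj _ _ s t q2).2.2.resolve_left Sum.inr_ne_inl
      rw [← M1.eq] at q1
      have q3 := (congrArg π (sm g (.inr i) (unitInterval.symm s))).symm.trans q1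
      exact f3 _ _ ((sy0 s).2 hs) ((sy1 s).2 s0)
        (pi _ _ _ (unitInterval.symm s) q3).2.1
  obtain ⟨Z, _, ρ, C2, up2, O2, M2, -, gl2, -⟩ := AR2.glue tf O1.dual
  have M2' := M2.dual
  rw [dualC_dualC] at M2'
  have st : ∀ i (t : II), 0 < t → t < 1 → ρ (π (a (.inl (nx i)) t)) = ρ (π (a (.inl i) t)) :=
    fun i t t0 t1 => by
      have := gl2 i (unitInterval.symm t) ((sy1 t).2 t0)
      simp only [unitInterval.coe_symm_eq, sub_sub_cancel] at this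
      rw [← this]
      exact congrArg ρ (gl i t t1).symm
  have sk : ∀ (k : ℤ) i (t : II), 0 < t → t < 1 →
      ρ (π (a (.inl ((nx ^ k) i)) t)) = ρ (π (a (.inl i) t)) := fun k i t t0 t1 => by
    induction k using Int.induction_on with
    | zero => rfl
    | succ k ih => rw [add_comm, zpow_add, zpow_one, Equiv.Perm.mul_apply, st _ t t0 t1, ih]
    | pred k ih =>
      rw [← st _ t t0 t1, ← Equiv.Perm.mul_apply, ← zpow_one_add, add_sub_cancel, ih]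
  obtain ⟨t, t0, t1⟩ := exists_between (zero_lt_one' II)
  refine ⟨Z, inferInstance, dualC C2, dualU up2, _, O2.dual,
    ((Mor.blow tf O hD A ?_).comp M1).comp M2', fun i => ρ (π (a (.inl i) t)), fun g i k gi s0 => ?_⟩
  · rintro _ ⟨k, rfl⟩
    obtain ⟨g, k1, k2, k3⟩ := fx k
    exact ⟨g, _, k1, k2, k3⟩
  · have b := f2 _ s0 t t0 t1
    rw [← M2.eq, ← M1.eq, sm]
    show Asc _ _ (ρ (π (a (.inl (g • i)) (fl (σ g i) t))))
    rw [gi, sk k i _ (t0.trans b) (iso_lt_one _ t1)]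
    exact M2'.asc _ _ (M1.asc _ _ ⟨_, ha _, _, _, b, rfl, rfl⟩)

theorem conv_core [Countable G] (tf : ∀ a : G, a ≠ 1 → ¬ IsOfFinOrder a) {I : Type w}
    [MulAction G I] {nx : Equiv.Perm I} {ν ν' ω ω' : I → X} {σ : G → I → ℝ} (O : Ob G C up)
    (hI : Ix G nx) (z : ZZ G C nx ν ν' ω ω') (hσ : Sp G nx σ) :
    ∃ (Y : Type u) (_ : MulAction G Y) (C' : Set (ℝ → Y)) (up' : Y → Y → Prop) (j : X → Y),
      Ob G C' up' ∧ Mor G I C C' j ∧ ∃ y : I → Y, ∀ (g : G) (i : I) (k : ℤ),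
        g • i = (nx ^ k) i → 0 < σ g i → Asc C' (y i) (g • y i) := by
  have h := O.om
  have := hI.cnt
  have hD : (range ω ∪ range ω').Countable := (countable_range _).union (countable_range _)
  have inv : ∀ (g : G) x, x ∈ range ω ∪ range ω' → g • x ∈ range ω ∪ range ω' := by
    rintro g _ (⟨i, rfl⟩ | ⟨i, rfl⟩)
    exacts [.inl ⟨g • i, z.e3 g i⟩, .inr ⟨g • i, z.e4 g i⟩]
  let _ := blAct2 _ inv (fun _ _ => 1) fun _ _ _ => (one_mul _).symm
  have A := blA_act _ inv (fun _ _ => 1) fun _ _ _ => (one_mul _).symm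
  have M0 : Mor G I C _ _ := Mor.blow tf O hD A (by
    rintro _ (⟨i, rfl⟩ | ⟨i, rfl⟩) <;> obtain ⟨g, k1, k2⟩ := hI.nt i
    exacts [⟨g, i, k1, k2, by rw [← z.e3, k2]⟩, ⟨g, i, k1, k2, by rw [← z.e4, k2]⟩])
  obtain ⟨Y1, _, C1, up1, j1, μ, μ', o', O1, M1, z1, -, s1⟩ := absorb tf (O.blow hD A) hI
    (z.blow h hD A) fun i => asc_bt h hD (z.le i) (.inl ⟨i, rfl⟩)
  obtain ⟨Y2, _, C2, up2, j2, p', p, o, O2, M2, z2, s2, -⟩ := absorb tf O1 hI.swap (z1.swap hI)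
    (s1 fun i => asc_bt h hD (z.le' i) (.inr ⟨i, rfl⟩))
  obtain rfl : p = o := funext (s2 fun _ => rfl)
  have z3 := z2.swap hI.swap
  rw [inv_inv] at z3
  obtain ⟨Y3, _, C3, up3, j3, O3, M3, k⟩ := flow_fold tf O2 hI z3 hσ
  exact ⟨Y3, inferInstance, C3, up3, _, O3, ((M0.comp M1).comp M2).comp M3, k⟩

end Pool.Agent.Work.MP_3d425c_gt.To.Cv
end

-- merged part: Pool.Agent.Work.MP_3d425c_gt.To.CvC
section
/-! The core of the conversion is proved in the imported file. -/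
end

-- merged part: Pool.Agent.Work.MP_3d425c_gt.To.Cv
section
/-! Conversion of the zigzags of a family of tori into lines. -/

namespace Pool.Agent.Work.MP_3d425c_gt.To.Cv
open Set Filter Topology Pool.Agent.Work.MP_3d425c_gt.Cy

universe u v w
variable {G : Type v} {X : Type u} [Group G] [MulAction G X] {C : Set (ℝ → X)} {up : X → X → Prop}

theorem conv [Countable G] (tf : ∀ a : G, a ≠ 1 → ¬ IsOfFinOrder a) (O : Ob G C up)
    {J : Type w} [Countable J] (P : J → Subgroup G)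
    (hP : ∀ j, ∀ p ∈ P j, ∀ q ∈ P j, p * q = q * p)
    (mal : ∀ j k (g p : G), p ∈ P j → p ≠ 1 → g * p * g⁻¹ ∈ P k → j = k ∧ g ∈ P j)
    (s' : J → G → ℝ) (hs' : ∀ j, ∀ p ∈ P j, ∀ q ∈ P j, s' j (p * q) = s' j p + s' j q)
    (hx : ∀ j, (∃ y, ∀ p ∈ P j, 0 < s' j p → Asc C y (p • y)) ∨
      ∃ (s : G → ℝ) (m n : X), (∀ p ∈ P j, ∀ q ∈ P j, s (p * q) = s p + s q) ∧
        (∃ t ∈ P j, s t = 1) ∧ (∀ q ∈ P j, (∃ k : ℤ, s q = k) ∧ (0 < s q ↔ Ax.Skew C up q m n) ∧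
          (s q = 0 ↔ q • m = m ∧ q • n = n)) ∧ (∃ τ ∈ P j, τ ≠ 1 ∧ s τ = 0) ∧
        ((∀ p ∈ P j, 0 < s' j p → 0 < s p) ∨ ∀ p ∈ P j, s p = 0 → s' j p = 0 → p = 1)) :
    ∃ (Y : Type u) (_ : MulAction G Y) (C' : Set (ℝ → Y)) (up' : Y → Y → Prop),
      Ob G C' up' ∧ ∀ j, ∃ y : Y, ∀ p ∈ P j, 0 < s' j p → Lt up' y (p • y) := by
  classical
  let K : J → Prop := fun j => ∃ (s : G → ℝ) (m n : X),
    (∀ p ∈ P j, ∀ q ∈ P j, s (p * q) = s p + s q) ∧ (∃ t ∈ P j, s t = 1) ∧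
    (∀ q ∈ P j, (∃ k : ℤ, s q = k) ∧ (0 < s q ↔ Ax.Skew C up q m n) ∧
      (s q = 0 ↔ q • m = m ∧ q • n = n)) ∧ (∃ τ ∈ P j, τ ≠ 1 ∧ s τ = 0) ∧
    ∀ p ∈ P j, s p = 0 → s' j p = 0 → p = 1
  have k1 : ∀ j : {j // K j}, ∃ (δ : G → ℤ) (ν ν' ω ω' : ℤ → X), Sq C (P j) δ ν ν' ω ω' ∧
      (∃ τ ∈ P j, τ ≠ 1 ∧ δ τ = 0) ∧ ∀ p ∈ P j, δ p = 0 → s' j p = 0 → p = 1 := fun j => by
    obtain ⟨s, m, n, a1, a2, a3, ⟨τ, t1, t2, t3⟩, a5⟩ := j.2
    obtain ⟨δ, ν, ν', ω, ω', q, e⟩ := seq_of_skew O.om (hP j) a1 a2 a3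
    exact ⟨δ, ν, ν', ω, ω', q, ⟨τ, t1, t2, (e τ t1).1.2 t3⟩,
      fun p hp d => a5 p hp ((e p hp).1.1 d)⟩
  choose δ ν ν' ω ω' q nt ker using k1
  obtain ⟨I, _, nx, μ, μ', o, o', σ, b, hI, z, hσ, hb, fx⟩ :=
    ix_of_seq (J := {j // K j}) (fun j => P j) (fun j => hP j)
      (fun j k g p hp p1 e => ⟨Subtype.ext (mal j k g p hp p1 e).1, (mal j k g p hp p1 e).2⟩)
      δ ν ν' ω ω' q O.om.smul nt (fun j => s' j) (fun j => hs' j) ker
  obtain ⟨Y, _, C', up', f, O', m, y, hy⟩ := conv_core tf O hI z hσ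
  refine ⟨Y, inferInstance, C', up', O', fun j => ?_⟩
  by_cases kj : K j
  · refine ⟨y (b ⟨j, kj⟩), fun p hp l => O'.om.asc (.single ?_)⟩
    obtain ⟨e1, e2⟩ := hb ⟨j, kj⟩ p hp
    exact hy p _ _ e1 (e2 ▸ l)
  rcases hx j with ⟨x, hx⟩ | ⟨s, u, v, a1, a2, a3, ⟨τ, t1, t2, t3⟩, a5⟩
  · exact ⟨f x, fun p hp l => O'.om.asc (.single (m.eq p x ▸ m.asc _ _ (hx p hp l)))⟩
  have a6 := a5.resolve_right fun a5 => kj ⟨s, u, v, a1, a2, a3, ⟨τ, t1, t2, t3⟩, a5⟩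
  obtain ⟨d, c, c', w, w', r, e⟩ := seq_of_skew O.om (hP j) a1 a2 a3
  refine ⟨f (c' 0), fun p hp l => Sq.lt O'.om (r.mor m t1 ((e τ t1).1.2 t3) fun n i hn k => ?_)
    hp ((e p hp).2.2 (a6 p hp l))⟩
  obtain ⟨j', x, k'⟩ := fx _ i k
  have n1 : τ ^ n ≠ 1 := fun e => hn
    (injective_zpow_iff_not_isOfFinOrder.mpr (tf τ t2) (e.trans (zpow_zero τ).symm))
  exact kj ((mal j j' x⁻¹ _ ((P j).zpow_mem t1 n) n1 (by simpa using k')).1 ▸ j'.2)


end Pool.Agent.Work.MP_3d425c_gt.To.Cv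
end

-- merged part: Pool.Agent.Work.MP_3d425c_gt.To.Top
section
/-! Assembly along the tree: hyperbolic vertices and vertices that change slopes. -/

namespace Pool.Agent.Work.MP_3d425c_gt.To.Top
open Set MulAction Pool.Agent.Work.MP_3d425c_gt.Cy Pool.Agent.Work.MP_3d425c_gt.Gl

universe u

section Abs
variable {Γ I : Type*} {X : Type u} [Group Γ] [MulAction Γ I] [MulAction Γ X]
  {C : Set (ℝ → X)} {up : X → X → Prop}

theorem Per.cnt [Countable Γ] (P : Per Γ I) : Countable I := by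
  choose a b h1 _ h3 using P.two
  exact Function.Injective.countable (f := a) fun i j e =>
    P.mal (a i) i j (ne_one_of_not_dep (h3 i)).1 (h1 i) (e ▸ h1 j)

/-- a line with slope `s'`, or a broken axis that has this slope or can be converted to it -/
def Cvt (C : Set (ℝ → X)) (up : X → X → Prop) (P : Subgroup Γ) (s' : Γ → ℝ) : Prop :=
  (∃ y, ∀ p ∈ P, 0 < s' p → Asc C y (p • y)) ∨
    ∃ (s : Γ → ℝ) (m n : X), (∀ p ∈ P, ∀ q ∈ P, s (p * q) = s p + s q) ∧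
      (∃ t ∈ P, s t = 1) ∧ (∀ q ∈ P, (∃ k : ℤ, s q = k) ∧ (0 < s q ↔ Ax.Skew C up q m n) ∧
        (s q = 0 ↔ q • m = m ∧ q • n = n)) ∧ (∃ τ ∈ P, τ ≠ 1 ∧ s τ = 0) ∧
      ((∀ p ∈ P, 0 < s' p → 0 < s p) ∨ ∀ p ∈ P, s p = 0 → s' p = 0 → p = 1)

theorem Per.conv [Countable Γ] (tf : ∀ a : Γ, a ≠ 1 → ¬ IsOfFinOrder a) (P : Per Γ I)
    {s : I → Γ → ℝ} (S : PSl s) (O : Cv.Ob Γ C up) (x₀ : X)
    (hx : ∀ i, Cvt C up (stabilizer Γ i) (s i)) :
    ∃ (Y : Type u) (_ : MulAction Γ Y) (_ : Y) (C' : Set (ℝ → Y)) (up' : Y → Y → Prop),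
      Om Γ C' up' ∧ Nf Γ C' ∧ Rk1 Γ Y ∧
        ∀ i, ∃ y : Y, ∀ p : Γ, p • i = i → 0 < s i p → Lt up' y (p • y) := by
  obtain ⟨Y, _, y₀, C', up', O', anc⟩ : ∃ (Y : Type u) (_ : MulAction Γ Y) (_ : Y)
      (C' : Set (ℝ → Y)) (up' : Y → Y → Prop), Cv.Ob Γ C' up' ∧
        ∀ i, ∃ y : Y, ∀ p : Γ, p • i = i → 0 < s i p → Lt up' y (p • y) := by
    rcases isEmpty_or_nonempty I with _ | ⟨⟨i₀⟩⟩
    · exact ⟨X, _, x₀, C, up, O, fun i => isEmptyElim i⟩
    have := P.cnt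
    obtain ⟨Y, _, C', up', O', k⟩ := Cv.conv tf O (J := orbitRel.Quotient Γ I)
      (fun j => stabilizer Γ j.out) (fun j p hp q hq => P.comm _ p q hp hq)
      (fun j k g p hp n hk => by
        have e : g • j.out = k.out := P.mal (g * p * g⁻¹) _ _ (by simpa using n)
          (by rw [mul_smul, mul_smul, inv_smul_smul, show p • j.out = j.out from hp]) hk
        have e' : j = k := by
          have q : orbitRel Γ I k.out j.out := ⟨g, e⟩
          exact j.out_eq'.symm.trans ((Quotient.sound' q).symm.trans k.out_eq')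
        exact ⟨e', by rw [mem_stabilizer_iff, e, e']⟩)
      (fun j => s j.out) (fun j p hp q hq => S.add _ p q hp hq) fun j => hx j.out
    refine ⟨Y, _, (k (Quotient.mk'' i₀)).choose, C', up', O', fun i => ?_⟩
    obtain ⟨y, hy⟩ := k (Quotient.mk'' i)
    obtain ⟨g, e⟩ : ∃ g : Γ, g • i = (Quotient.mk'' i : orbitRel.Quotient Γ I).out :=
      Quotient.mk_out' (s₁ := orbitRel Γ I) i
    refine ⟨g⁻¹ • y, fun p hp l => ?_⟩
    have := hy (g * p * g⁻¹) (by rw [mem_stabilizer_iff, ← e]; simp [mul_smul, hp])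
      (by rw [← e, S.eqv g i p hp]; exact l)
    refine ⟨?_, fun q => this.2 ?_⟩
    · simpa [mul_smul] using O'.om.ups g⁻¹ _ _ this.1
    · simpa [mul_smul] using O'.om.ups g _ _ q
  obtain ⟨Z, _, C'', up'', j, a, b, c, d, e⟩ := exists_nf tf O'
  refine ⟨Z, _, j y₀, C'', up'', a, b, dep_of_cyc c, fun i => ?_⟩
  obtain ⟨y, k⟩ := anc i
  exact ⟨j y, fun p hp l => d p y ▸ e _ _ (k p hp l)⟩

end Abs

variable {G V : Type*} [Group G] [MulAction G V] {T : SimpleGraph V} {σ σ' : V → V → G → ℝ}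
  {X : Type u} [MulAction G X] {C : Set (ℝ → X)} {up : X → X → Prop}

theorem ob_sub (O : Cv.Ob G C up) (A : Subgroup G) : Cv.Ob A C up := by
  refine ⟨om_sub O.om A, fun x => ?_, O.sp⟩
  obtain ⟨k, hk⟩ := O.cy x
  have : IsCyclic (A ⊓ stabilizer G x : Subgroup G) :=
    Subgroup.isCyclic_of_le (H' := Subgroup.zpowers k) fun a ha => hk a ha.2
  obtain ⟨z, hz⟩ := this.exists_zpow_surjective
  refine ⟨⟨z.1, z.2.1⟩, fun a ha => ?_⟩
  obtain ⟨n, hn⟩ := hz ⟨a.1, a.2, ha⟩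
  have e : z.1 ^ n = a.1 := congrArg Subtype.val hn
  exact ⟨n, Subtype.ext e⟩

theorem Slo.ker_ne (J : Jsj G T) (S : Slo T σ) {v w : V} (a : T.Adj v w)
    (z : ∀ q ∈ Eg G v w, ∃ k : ℤ, σ v w q = k) : ∃ τ ∈ Eg G v w, τ ≠ 1 ∧ σ v w τ = 0 := by
  obtain ⟨x, y, -, n, e⟩ := J.edge v w a
  have hx : x ∈ Eg G v w := e ▸ Subgroup.subset_closure (by simp)
  have hy : y ∈ Eg G v w := e ▸ Subgroup.subset_closure (by simp)
  obtain ⟨i, hi⟩ := z x hx
  obtain ⟨j, hj⟩ := z y hy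
  by_cases k : j = 0 ∧ i = 0
  · exact ⟨x, hx, (ne_one_of_not_dep n).1, by rw [hi, k.2, Int.cast_zero]⟩
  refine ⟨x ^ j * y ^ (-i), mul_mem (zpow_mem hx _) (zpow_mem hy _), fun q => n ⟨j, i, k, ?_⟩, ?_⟩
  · rwa [zpow_neg, mul_inv_eq_one] at q
  · rw [S.add v w a _ (zpow_mem hx _) _ (zpow_mem hy _), Ax.add_zpow (S.add v w a) hx,
      Ax.add_zpow (S.add v w a) hy, hi, hj]
    push_cast
    ring

/-- A hyperbolic vertex detects slopes that differ from the natural ones on broken axes only. -/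
theorem Jsj.hyp_ord2 [Countable G] (J : Jsj G T) (S : Slo T σ) (S' : Slo T σ') {v : V}
    (hy : Hy (stabilizer G v)) (hB : Bg2 (stabilizer G v)) (m : Mal G T v) (O : Cv.Ob G C up)
    (x₀ : X) (N : ∀ w, T.Adj v w → Nt C up (Eg G v w) (σ v w))
    (alt : ∀ w, T.Adj v w → (∀ p ∈ Eg G v w, σ' v w p = σ v w p) ∨
      (Zg C up (Eg G v w) (σ v w) ∧ ∀ p ∈ Eg G v w, σ v w p = 0 → σ' v w p = 0 → p = 1)) :
    ∃ r, Ord (stabilizer G v) (Fam T v (σ' v)) r := by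
  let _ := nbAct J v
  have mem : ∀ (i : T.neighborSet v) (p : stabilizer G v),
      p ∈ stabilizer (stabilizer G v) i ↔ p.1 ∈ Eg G v i := fun i p =>
    ⟨fun k => ⟨p.2, congrArg Subtype.val k⟩, fun k => Subtype.ext k.2⟩
  obtain ⟨Y, _, y₀, C', up', a, b, c, d⟩ := (J.per m).conv hy.tf (S'.psl J v) (ob_sub O _) x₀
    fun i => by
      have z : Zg C up (Eg G v i) (σ v i) → ((∀ p ∈ Eg G v i, σ' v i p = σ v i p) ∨
          ∀ p ∈ Eg G v i, σ v i p = 0 → σ' v i p = 0 → p = 1) →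
          Cvt C up (stabilizer (stabilizer G v) i) fun p => σ' v i p := by
        rintro ⟨⟨t, ht, t1⟩, z1, m, n, z2⟩ k
        obtain ⟨τ, hτ, τ1, τ0⟩ := S.ker_ne J i.2 z1
        refine .inr ⟨fun p => σ v i p, m, n,
          fun p hp q hq => S.add v i i.2 _ ((mem i p).1 hp) _ ((mem i q).1 hq),
          ⟨⟨t, ht.1⟩, (mem i _).2 ht, t1⟩, fun q hq => ⟨z1 _ ((mem i q).1 hq), ?_,
            (z2 _ ((mem i q).1 hq)).2⟩,
          ⟨⟨τ, hτ.1⟩, (mem i _).2 hτ, fun e => τ1 (congrArg Subtype.val e), τ0⟩,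
          k.imp (fun k p hp l => l.trans_eq (k _ ((mem i p).1 hp)))
            fun k p hp l l' => Subtype.ext (k _ ((mem i p).1 hp) l l')⟩
        exact (z2 _ ((mem i q).1 hq)).1.trans
          ⟨fun e => ⟨e.lg, e.ne, e.un, e.um⟩, fun e => ⟨e.lg, e.ne, e.un, e.um⟩⟩
      rcases alt i i.2 with k | k
      · rcases N i i.2 with ⟨y, L⟩ | Z
        · exact .inl ⟨y, fun p hp l =>
            L.asc _ ((mem i p).1 hp) (l.trans_eq (k _ ((mem i p).1 hp)))⟩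
        · exact z Z (.inl k)
      · exact z k.1 (.inr k.2)
  exact J.hyp_ord S' hy hB m a y₀ b c fun w e =>
    let ⟨y, k⟩ := d ⟨w, e⟩
    ⟨y, fun p q => k p (Subtype.ext q)⟩

theorem ord_congr {A : Subgroup G} {v : V} {s s' : V → G → ℝ} {r : G → G → Prop}
    (e : ∀ w, T.Adj v w → ∀ p ∈ Eg G v w, s' w p = s w p) (o : Ord A (Fam T v s) r) :
    Ord A (Fam T v s') r := by
  refine ⟨o.1, o.2.1, ?_⟩
  rintro _ ⟨w, a, rfl⟩ x hx p hp q hq sp sq
  exact o.2.2 _ ⟨w, a, rfl⟩ x hx p hp q hq (sp.trans_eq (e w a p hp)) (sq.trans_eq (e w a q hq))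

theorem conj_mul' (g p q : G) : g * (p * q) * g⁻¹ = g * p * g⁻¹ * (g * q * g⁻¹) := by group

theorem Out.tr (J : Jsj G T) (S : Slo T σ) (h : Om G C up) (g : G) {v : V} {s : V → G → ℝ}
    (o : Out T C up σ (g • v) s) : Out T C up σ v fun w p => s (g • w) (g * p * g⁻¹) := by
  have st : ∀ x, x ∈ stabilizer G v → g * x * g⁻¹ ∈ stabilizer G (g • v) := fun x hx => by
    rw [mem_stabilizer_iff] at hx ⊢
    simp [mul_smul, hx]
  refine ⟨fun k w hk a p hp => ?_, fun w a p hp q hq => ?_, fun w a => ?_, fun w a => ?_, ?_⟩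
  · have := o.eqv (g * k * g⁻¹) (g • w) (st k hk) (J.act g _ _ a) _ ((conj_Eg g).2 hp)
    rw [← this]
    congr 1
    · simp [mul_smul]
    · group
  · rw [conj_mul', o.add _ (J.act g _ _ a) _ ((conj_Eg g).2 hp) _ ((conj_Eg g).2 hq)]
  · obtain ⟨p, hp, k⟩ := o.pos _ (J.act g _ _ a)
    exact ⟨g⁻¹ * p * g, (conj_Eg g).1 (by simpa [mul_assoc] using hp),
      by simpa [mul_assoc] using k⟩
  · refine (o.alt _ (J.act g _ _ a)).imp (fun k p hp => ?_) fun k =>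
      ⟨zg_tr h g (fun p hp => (S.eqv g v w a p hp).symm) k.1, fun p hp l l' => ?_⟩
    · rw [k _ ((conj_Eg g).2 hp), S.eqv g v w a p hp]
    · simpa using k.2 _ ((conj_Eg g).2 hp) ((S.eqv g v w a p hp).trans l) l'
  · obtain ⟨r, l, i, d⟩ := o.ord
    refine ⟨fun x y => r (g * x * g⁻¹) (g * y * g⁻¹), ⟨fun x hx => l.irr _ (st x hx),
      fun x hx y hy z hz => l.trans _ (st x hx) _ (st y hy) _ (st z hz),
      fun x hx y hy n => l.tot _ (st x hx) _ (st y hy) (by simpa using n)⟩,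
      fun k hk x hx y hy e => ?_, ?_⟩
    · simp only [conj_mul' g k]
      exact i _ (st k hk) _ (st x hx) _ (st y hy) e
    · rintro _ ⟨w, a, rfl⟩ x hx p hp q hq sp sq e
      simp only [conj_mul' g _ x] at e ⊢
      exact d _ ⟨g • w, J.act g _ _ a, rfl⟩ _ (st x hx) _ ((conj_Eg g).2 hp) _
        ((conj_Eg g).2 hq) sp sq e

theorem SfOut.tr (J : Jsj G T) (S : Slo T σ) (h : Om G C up) (g : G) {v : V}
    (o : SfOut T C up σ (g • v)) : SfOut T C up σ v := by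
  refine ⟨fun w a Z => ?_, let ⟨_, k⟩ := o.out; ⟨_, k.tr J S h g⟩⟩
  have Z' : Zg C up (Eg G (g • v) (g • w)) (σ (g • v) (g • w)) :=
    zg_tr h g⁻¹ (s := σ v w) (fun p hp => by
      simpa using (S.eqv g⁻¹ _ _ (J.act g _ _ a) p hp).symm) (by simpa using Z)
  obtain ⟨τ, t1, t2, t3, t4⟩ := o.zz _ (J.act g _ _ a) Z'
  have m : g⁻¹ * τ * g ∈ Eg G v w := (conj_Eg g).1 (by simpa [mul_assoc] using t1)
  refine ⟨_, m, fun e => t2 ?_, ?_, fun k hk => ?_⟩
  · simpa [mul_assoc] using congrArg (fun x => g * x * g⁻¹) e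
  · rw [← S.eqv g v w a _ m, ← t3]
    congr 1
    group
  · obtain ⟨n, hn⟩ := t4 (g * k * g⁻¹) (by simp [mul_smul, hk])
    refine ⟨n, ?_⟩
    have := conj_zpow (i := n) (a := g⁻¹) (b := τ)
    simp only [inv_inv] at this hn ⊢
    rw [this, hn]
    group

theorem Nm.zpow {v : V} {τ : G} (k : Nm v τ) (n : ℤ) : Nm v (τ ^ n) := fun g hg => by
  obtain ⟨i, hi⟩ := k g hg
  refine ⟨i, ?_⟩
  simp only at hi ⊢
  rw [← conj_zpow, ← hi, ← zpow_mul, ← zpow_mul, mul_comm]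

/-- The assembly. -/
theorem phase2 [Countable G] (tf : ∀ a : G, a ≠ 1 → ¬ IsOfFinOrder a) (J : Jsj G T)
    (nm : ∀ v w (τ : G), T.Adj v w → τ ∈ Eg G v w → τ ≠ 1 → Nm v τ → ¬ Nm w τ)
    (O : Cv.Ob G C up) (x₀ : X)
    (hv : ∀ σ : V → V → G → ℝ, Slo T σ → (∀ v w, T.Adj v w → Nt C up (Eg G v w) (σ v w)) → ∀ v,
      (Hy (stabilizer G v) ∧ Bg2 (stabilizer G v) ∧ Mal G T v) ∨ SfOut T C up σ v) :
    ∃ r : G → G → Prop, IsStrictTotalOrder G r ∧ ∀ a b c, r a b ↔ r (c * a) (c * b) := by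
  classical
  obtain ⟨σ, S, N⟩ := J.nat O.om x₀ (dep_of_cyc O.cy)
  obtain ⟨Q, hQ⟩ : ∃ Q : V → Prop, ∀ v, Q v ↔ SfOut T C up σ v := ⟨_, fun _ => Iff.rfl⟩
  have qi : ∀ (g : G) v, Q (g • v) ↔ Q v := fun g v => by
    rw [hQ, hQ]
    exact ⟨fun k => k.tr J S O.om g, fun k => SfOut.tr J S O.om g⁻¹ (by simpa using k)⟩
  obtain ⟨s, s1, s2⟩ : ∃ s : V → V → G → ℝ, (∀ v, Q v → Out T C up σ v (s v)) ∧
      ∀ (g : G) v w, Q v → T.Adj v w → ∀ p ∈ Eg G v w,
        s (g • v) (g • w) (g * p * g⁻¹) = s v w p := by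
    obtain ⟨ρ, r1, r2⟩ : ∃ ρ : V → V, (∀ v, ∃ g : G, g • v = ρ v) ∧
        ∀ (g : G) v, ρ (g • v) = ρ v :=
      ⟨fun v => (Quotient.mk'' v : orbitRel.Quotient G V).out,
        fun v => Quotient.mk_out' (s₁ := orbitRel G V) v,
        fun g v => congrArg Quotient.out (Quotient.sound' ⟨g, rfl⟩)⟩
    choose γ hγ using r1
    choose! s₀ h₀ using fun v (k : Q v) => ((hQ v).1 k).out
    have q : ∀ v, Q v → Out T C up σ (γ v • v) (s₀ (ρ v)) := fun v k => by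
      rw [hγ]
      exact h₀ _ (hγ v ▸ (qi _ v).2 k)
    refine ⟨fun v w p => s₀ (ρ v) (γ v • w) (γ v * p * (γ v)⁻¹),
      fun v k => (q v k).tr J S O.om _, fun g v w k a p hp => ?_⟩
    have := (q v k).eqv (γ (g • v) * g * (γ v)⁻¹) (γ v • w)
      (by rw [mul_smul, mul_smul, inv_smul_smul, hγ, hγ, r2]) (J.act _ _ _ a) _
      ((conj_Eg (γ v)).2 hp)
    simp only [r2]
    rw [← this]
    congr 1
    · simp [mul_smul]
    · group
  have both : ∀ v w, T.Adj v w → Q v → Q w → ∀ p ∈ Eg G v w, s v w p = σ v w p := by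
    intro v w a qv qw
    refine ((s1 v qv).alt w a).resolve_right fun ⟨Z, _⟩ => ?_
    obtain ⟨τ, t1, t2, t3, t4⟩ := ((hQ v).1 qv).zz w a Z
    obtain ⟨υ, u1, u2, u3, u4⟩ := ((hQ w).1 qw).zz v a.symm
      (by rw [← S.symm v w a, Eg_comm G w v]; exact Z)
    obtain ⟨κ, -, -, k⟩ := S.ker J a
    obtain ⟨i, rfl⟩ := k τ t1 t3
    obtain ⟨j, rfl⟩ := k υ (Eg_comm G w v ▸ u1) (by rw [S.symm v w a]; exact u3)
    have j0 : j ≠ 0 := fun e => u2 (by simp [e])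
    refine nm v w _ a (zpow_mem t1 j) (fun e => tf _ t2 (isOfFinOrder_iff_zpow_eq_one.2
      ⟨j, j0, e⟩)) (t4.zpow j) ?_
    have := u4.zpow i
    simp only [← zpow_mul] at this ⊢
    rwa [mul_comm]
  obtain ⟨σ', k0, k1, k2, k3⟩ : ∃ σ' : V → V → G → ℝ, (∀ v w p, p ∉ Eg G v w → σ' v w p = 0) ∧
      (∀ v w, Q v → ∀ p ∈ Eg G v w, σ' v w p = s v w p) ∧
      (∀ v w, T.Adj v w → Q w → ∀ p ∈ Eg G v w, σ' v w p = s w v p) ∧
      ∀ v w, ¬ Q v → ¬ Q w → ∀ p ∈ Eg G v w, σ' v w p = σ v w p := by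
    refine ⟨fun v w p => if p ∈ Eg G v w then
      if Q v then s v w p else if Q w then s w v p else σ v w p else 0,
      fun v w p k => if_neg k, fun v w q p k => by simp only [if_pos k, if_pos q],
      fun v w a q p k => ?_, fun v w q q' p k => by simp only [if_pos k, if_neg q, if_neg q']⟩
    by_cases q' : Q v
    · simp only [if_pos k, if_pos q']
      rw [both v w a q' q p k, both w v a.symm q q' p (Eg_comm G v w ▸ k), S.symm v w a]
    · simp only [if_pos k, if_neg q', if_pos q]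
  have S' : Slo T σ' := by
    refine ⟨fun v w a => funext fun p => ?_, fun g v w a p hp => ?_, fun v w a p hp q hq => ?_,
      fun v w a => ?_⟩
    · by_cases hp : p ∈ Eg G v w
      · have hp' : p ∈ Eg G w v := Eg_comm G v w ▸ hp
        by_cases qv : Q v
        · rw [k1 v w qv p hp, k2 w v a.symm qv p hp']
        by_cases qw : Q w
        · rw [k2 v w a qw p hp, k1 w v qw p hp']
        · rw [k3 v w qv qw p hp, k3 w v qw qv p hp', S.symm v w a]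
      · rw [k0 v w p hp, k0 w v p (Eg_comm G v w ▸ hp)]
    · have m := (conj_Eg g).2 hp
      by_cases qv : Q v
      · rw [k1 v w qv p hp, k1 _ _ ((qi g v).2 qv) _ m, s2 g v w qv a p hp]
      by_cases qw : Q w
      · rw [k2 v w a qw p hp, k2 _ _ (J.act g _ _ a) ((qi g w).2 qw) _ m,
          s2 g w v qw a.symm p (Eg_comm G v w ▸ hp)]
      · rw [k3 v w qv qw p hp, k3 _ _ (mt (qi g v).1 qv) (mt (qi g w).1 qw) _ m,
          S.eqv g v w a p hp]
    · have m := mul_mem hp hq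
      by_cases qv : Q v
      · rw [k1 v w qv _ m, k1 v w qv p hp, k1 v w qv q hq, (s1 v qv).add w a p hp q hq]
      by_cases qw : Q w
      · rw [k2 v w a qw _ m, k2 v w a qw p hp, k2 v w a qw q hq,
          (s1 w qw).add v a.symm p (Eg_comm G v w ▸ hp) q (Eg_comm G v w ▸ hq)]
      · rw [k3 v w qv qw _ m, k3 v w qv qw p hp, k3 v w qv qw q hq, S.add v w a p hp q hq]
    · by_cases qv : Q v
      · obtain ⟨p, hp, k⟩ := (s1 v qv).pos w a
        exact ⟨p, hp, k.trans_eq (k1 v w qv p hp).symm⟩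
      by_cases qw : Q w
      · obtain ⟨p, hp, k⟩ := (s1 w qw).pos v a.symm
        rw [Eg_comm G w v] at hp
        exact ⟨p, hp, k.trans_eq (k2 v w a qw p hp).symm⟩
      · obtain ⟨p, hp, k⟩ := S.pos v w a
        exact ⟨p, hp, k.trans_eq (k3 v w qv qw p hp).symm⟩
  refine J.lo S' fun v => ?_
  by_cases qv : Q v
  · obtain ⟨r, o⟩ := (s1 v qv).ord
    exact ⟨r, ord_congr (fun w _ => k1 v w qv) o⟩
  obtain ⟨hy, hB, m⟩ := (hv σ S N v).resolve_right fun k => qv ((hQ v).2 k)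
  refine J.hyp_ord2 S S' hy hB m O x₀ (N v) fun w a => ?_
  by_cases qw : Q w
  · have := (s1 w qw).alt v a.symm
    rw [← S.symm v w a, Eg_comm G w v] at this
    exact this.imp (fun k p hp => (k2 v w a qw p hp).trans (k p hp))
      fun k => ⟨k.1, fun p hp l l' => k.2 p hp l ((k2 v w a qw p hp).symm.trans l')⟩
  · exact .inl (k3 v w qv qw)

end Pool.Agent.Work.MP_3d425c_gt.To.Top
end

-- merged part: Pool.Agent.Work.MP_3d425c_gt.Nv.Main2
section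
/-! Assembly without quoting Novikov's theorem. -/

namespace Pool.Agent.Work.MP_3d425c_gt.Nv
open Pool.Agent.Work.MP_3d425c_gt.Md Pool.Agent.Work.MP_3d425c_gt.Gn
  Pool.Agent.Work.MP_3d425c_gt.Cy

variable {G X0 X1 X2 X3 : Type} [Group G] [MulAction G X0] [MulAction G X1] [MulAction G X2]
  [MulAction G X3]

theorem main2 (T : Tri G X0 X1 X2 X3) (hcy : T.Cyc) (hD : Disc T) (hG : Hyp G) (hB : Big G)
    (ex : ∃ φ, T.Fol φ) : Nontrivial G ∧ LO G := by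
  by_cases h0 : NoHom G
  · obtain ⟨y, hy⟩ := T.flow hcy h0
    exact T.main Ht.shear hcy hG hB ex fun φ hf => nov hD hy hf.1
  · obtain ⟨χ, hχ⟩ := not_forall.1 h0
    refine ⟨?_, lo_of_hom hG hB χ hχ⟩
    by_contra hn
    have := not_nontrivial_iff_subsingleton.1 hn
    exact hχ (MonoidHom.ext fun g => by rw [Subsingleton.elim g 1, map_one, map_one])

end Pool.Agent.Work.MP_3d425c_gt.Nv
end

-- merged part: Pool.Agent.Work.MP_3d425c_gt.Bg.Final
section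
/-! Assembly without the hypothesis on finitely generated subgroups. -/

namespace Pool.Agent.Work.MP_3d425c_gt.Bg
open Set Relation Pool.Agent.Work.MP_3d425c_gt.Md Pool.Agent.Work.MP_3d425c_gt.Cy

variable {G X0 X1 X2 X3 : Type} [Group G] [MulAction G X0] [MulAction G X1] [MulAction G X2]
  [MulAction G X3] {T : Tri G X0 X1 X2 X3}

theorem mfd_end (hD : Nv.Disc T) (mid : ∀ v, ∃ f, T.d1 (T.d2 f 2) 0 = v) (h0 : OneEnd G) :
    Mfd T :=
  mfd_of hD mid (hc1_of_oneEnd T (fun v => let ⟨f, k⟩ := mid v; ⟨f, 2, 0, k⟩) h0)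

theorem mfd_taut (hD : Nv.Disc T) (mid : ∀ v, ∃ f, T.d1 (T.d2 f 2) 0 = v)
    (h0 : OneEnd G ∨ NoHom G) {φ : X2 → ℝ ≃o ℝ} (hf : T.Fol φ) (ht : T.Taut φ) : Mfd T := by
  rcases h0 with h0 | h0
  · exact mfd_end hD mid h0
  · obtain ⟨ρ, hρ, hb⟩ := Tri.ball h0 hf ht mid
    obtain ⟨y, hy⟩ := hb φ hf fun f t => by rw [sub_self, abs_zero]; exact hρ.le
    obtain ⟨S⟩ := Nv.fw_surf hy hf.1
    exact mfd_of hD mid (Nv.hc1_surf hf.1 S hD (hy.inf hf) (pure_of mid))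

theorem mfd_cyc (hD : Nv.Disc T) (mid : ∀ v, ∃ f, T.d1 (T.d2 f 2) 0 = v)
    (h0 : OneEnd G ∨ NoHom G) (hc : T.Cyc) {φ : X2 → ℝ ≃o ℝ} (hf : T.Fol φ) : Mfd T := by
  rcases h0 with h0 | h0
  · exact mfd_end hD mid h0
  · obtain ⟨y, hy⟩ := T.flow hc h0
    exact mfd_of hD mid (Nv.hc1_flw hD hy hf (pure_of mid))

theorem Mfd.big (hM : Mfd T) (hG : Hyp G) : Big G := Bg.big Sf.surf hM hG

/-- taut foliations, one end or no real character -/
theorem main_taut (T : Tri G X0 X1 X2 X3) (hG : Hyp G) (h0 : OneEnd G ∨ NoHom G) (hD : Nv.Disc T)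
    (mid : ∀ v, ∃ f, T.d1 (T.d2 f 2) 0 = v) (φ : X2 → ℝ ≃o ℝ) (hf : T.Fol φ) (ht : T.Taut φ) :
    Nontrivial G ∧ LO G :=
  T.main_taut hG ((mfd_taut hD mid h0 hf ht).big hG) hD mid φ hf ht

/-- recurrent orientations, one end or no real character -/
theorem main_cyc (T : Tri G X0 X1 X2 X3) (hG : Hyp G) (h0 : OneEnd G ∨ NoHom G) (hD : Nv.Disc T)
    (mid : ∀ v, ∃ f, T.d1 (T.d2 f 2) 0 = v) (hc : T.Cyc) (ex : ∃ φ, T.Fol φ) :
    Nontrivial G ∧ LO G :=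
  let ⟨_, hf⟩ := ex
  Nv.main2 T hc hD hG ((mfd_cyc hD mid h0 hc hf).big hG) ex

/-- taut foliations, uniform lattices -/
theorem main_lat (T : Tri G X0 X1 X2 X3) {ρ : G →* Matrix.ProjectiveSpecialLinearGroup (Fin 2) ℂ}
    (L : Lt.Lat ρ) (tf : ∀ a : G, a ≠ 1 → ¬ IsOfFinOrder a) (hD : Nv.Disc T)
    (mid : ∀ v, ∃ f, T.d1 (T.d2 f 2) 0 = v) (φ : X2 → ℝ ≃o ℝ) (hf : T.Fol φ) (ht : T.Taut φ) :
    Nontrivial G ∧ LO G :=
  main_taut T (L.hyp tf) (Or.inl (oneEnd_of_lat L)) hD mid φ hf ht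

end Pool.Agent.Work.MP_3d425c_gt.Bg
end

-- merged part: Pool.Agent.Work.MP_3d425c_gt.Fn.Hyp
section
/-! Closed hyperbolic three-manifolds, and rational homology spheres with cyclic centralisers. -/

namespace Pool.Agent.Work.MP_3d425c_gt.Fn
open Pool.Agent.Work.MP_3d425c_gt.Md
open scoped Manifold ContDiff

variable {M : Type} [TopologicalSpace M] [ChartedSpace (EuclideanSpace ℝ (Fin 3)) M]
  [IsManifold 𝓘(ℝ, EuclideanSpace ℝ (Fin 3)) ∞ M] [CompactSpace M] [T2Space M] [ConnectedSpace M]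

theorem main_lat (m : M)
    (ρ : FundamentalGroup M m →* Matrix.ProjectiveSpecialLinearGroup (Fin 2) ℂ) (L : Lt.Lat ρ)
    {A : Set (OpenPartialHomeomorph M ((ℝ × ℝ) × ℝ))} (hA : Sm.Foliation A) (hT : Sm.Taut A) :
    Nontrivial (FundamentalGroup M m) ∧ LO (FundamentalGroup M m) := by
  obtain ⟨Y, _, _, p, hp, _⟩ := Tp.exists_universal_cover_manifold Sm.E3 m
  obtain ⟨X0, X1, X2, X3, _, _, _, _, T, φ, a, b, c, d⟩ := Sm.normal_form p hp hA hT
  have e := Bg.oneEnd_of_lat L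
  exact Bg.main_taut T (Bg.hyp_of_lat L (Bg.mfd_end a b e) a) (Or.inl e) a b φ c d

theorem main_qhs (m : M)
    (cent : ∀ a : FundamentalGroup M m, a ≠ 1 → IsCyclic (Subgroup.centralizer {a}))
    (h0 : ∀ χ : FundamentalGroup M m →* Multiplicative ℝ, χ = 1)
    {A : Set (OpenPartialHomeomorph M ((ℝ × ℝ) × ℝ))} (hA : Sm.Foliation A) (hT : Sm.Taut A) :
    Nontrivial (FundamentalGroup M m) ∧ LO (FundamentalGroup M m) := by
  obtain ⟨Y, _, _, p, hp, _⟩ := Tp.exists_universal_cover_manifold Sm.E3 m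
  obtain ⟨X0, X1, X2, X3, _, _, _, _, T, φ, a, b, c, d⟩ := Sm.normal_form p hp hA hT
  obtain ⟨ρ, hρ, hb⟩ := Tri.ball h0 c d b
  obtain ⟨y, hy⟩ := hb φ c fun f t => by rw [sub_self, abs_zero]; exact hρ.le
  have := Bg.inf_of_nc (Nv.fw_nov a hy c.1) (hy.inf c)
  exact Bg.main_taut T ⟨Bg.tf_disc (Bg.mfd_taut a b (Or.inr h0) c d) a, cent⟩ (Or.inr h0) a b φ c d

end Pool.Agent.Work.MP_3d425c_gt.Fn
end

-- merged part: Pool.Agent.Work.MP_3d425c_gt.Nz.Fold3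
section
/-! The fold theorem with control of the new stabilisers. -/

namespace Pool.Agent.Work.MP_3d425c_gt.Nz
open Set Filter Topology Pool.Agent.Work.MP_3d425c_gt.Cy Pool.Agent.Work.MP_3d425c_gt.To

variable {G X : Type*} [Group G] [MulAction G X] {C : Set (ℝ → X)} {up : X → X → Prop}

theorem cj_ne {a : G} (g : G) (n : a ≠ 1) : g * a * g⁻¹ ≠ 1 := fun e => n (by
  calc a = g⁻¹ * (g * a * g⁻¹) * g := by group
    _ = 1 := by rw [e]; group)

/-- The generic action on an arm. -/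
theorem generic4 [Countable G] {O : G → II → II → Prop} (hO : Grpd O) {Γ : Subgroup G} {τ : G}
    (ct : ∀ x y : G, x * τ = τ * x → y * τ = τ * y → x * y = y * x)
    (mn : ∀ g : G, τ * (g * τ * g⁻¹) = g * τ * g⁻¹ * τ → g * τ = τ * g)
    (hτ : τ ∈ Γ) (h1 : τ ≠ 1) (hc : ∀ γ ∈ Γ, γ * τ = τ * γ)
    {θ : G → ℝ} (hadd : ∀ a ∈ Γ, ∀ b ∈ Γ, θ (a * b) = θ a + θ b)
    (hinj : ∀ a ∈ Γ, θ a = 0 → a = 1) (hpos : 0 < θ τ) (T : II ≃o II)
    (hT : ∀ s, s < 1 → O τ s (T s)) :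
    ∃ ρ, To.Mv Γ τ T θ ρ ∧ (∀ γ ∈ Γ, ∀ t, T t = t → ρ γ t = t) ∧
      (∀ a : G, a ≠ 1 → NI {s | To.Rl O Γ ρ a s s}) ∧
      (∀ s κ, κ ≠ 1 → O κ s s → (∀ a, To.Rl O Γ ρ a s s → O a s s) ∨ ∃ c u, T u = u ∧ O c s u ∧
        ∀ a, To.Rl O Γ ρ a s s → ∃ p ∈ Γ, ∃ x, O x u u ∧ c * a * c⁻¹ = p * x) ∧
      ∀ s, s < 1 → (∃ z, To.Rl O Γ ρ z s s ∧ ∀ a, To.Rl O Γ ρ a s s → ∃ i : ℤ, a = z ^ i) ∨
        ∃ c u, To.Rl O Γ ρ c s u ∧ ((∀ a, To.Rl O Γ ρ a s s → O (c * a * c⁻¹) u u) ∨ (T u = u ∧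
          ∀ a, To.Rl O Γ ρ a s s → ∃ p ∈ Γ, ∃ x, O x u u ∧ c * a * c⁻¹ = p * x)) := by
  classical
  obtain ⟨ρ0, r1, r2, r3, r4⟩ := Tg.fl_action (A := Γ) T (θ := fun p => θ p)
    (fun a b => hadd a a.2 b b.2) (τ := ⟨τ, hτ⟩) hpos
  have M : Tg.Mv O Γ.subtype ⟨τ, hτ⟩ T ρ0 := ⟨h1, hT, r1, r2, fun p t h =>
    (r3 p t h).imp_left fun k => Subtype.ext (hinj p p.2 k)⟩
  have S : Tg.Cs Γ.subtype ⟨τ, hτ⟩ := ⟨fun p => hc p p.2, ct, fun γ h => mn γ h.symm⟩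
  obtain ⟨φ, hφ, -, nf, old, all⟩ := St.generic3 M S hO
  have M' := M.cja hφ
  obtain ⟨ρ, e⟩ : ∃ ρ : G → II ≃o II, ∀ p : Γ, ρ p = Tg.cja φ ρ0 p :=
    ⟨fun g => if h : g ∈ Γ then Tg.cja φ ρ0 ⟨g, h⟩ else 1, fun p => dif_pos p.2⟩
  have eT : ∀ t, T (φ⁻¹ t) = φ⁻¹ (T t) := fun t =>
    congrArg (fun f : II ≃o II => f t) (Commute.inv_left hφ).eq.symm
  have cv : ∀ {a : G} {u}, (∃ (p : Γ) (x : G), O x u u ∧ a = Γ.subtype p * x) →
      ∃ p ∈ Γ, ∃ x, O x u u ∧ a = p * x := fun ⟨p, k⟩ => ⟨p, p.2, k⟩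
  refine ⟨ρ, ⟨fun a ha b hb => ?_, (e ⟨τ, hτ⟩).trans M'.eq, fun a ha h0 t => ?_⟩,
    fun γ hγ t k => (e ⟨γ, hγ⟩).symm ▸ M'.fix _ t k, fun a ha => ?_, fun s κ n k => ?_,
    fun s hs => ?_⟩
  · rw [e ⟨a, ha⟩, e ⟨b, hb⟩, ← map_mul]
    exact e (⟨a, ha⟩ * ⟨b, hb⟩)
  · rw [e ⟨a, ha⟩]
    refine ⟨M'.fix _ t, fun k => ?_, fun k => ?_⟩
    · have := φ.strictMono ((r4 ⟨a, ha⟩ h0 (φ⁻¹ t)).1 (by rw [eT]; exact (φ⁻¹).strictMono k))
      rwa [RelIso.apply_inv_self] at this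
    · have := φ.strictMono ((r4 ⟨a, ha⟩ h0 (φ⁻¹ t)).2 (by rw [eT]; exact (φ⁻¹).strictMono k))
      rwa [RelIso.apply_inv_self] at this
  · simpa only [tg_rl_sub e] using nf a ha
  · simp only [tg_rl_sub e]
    exact (old s κ n k).imp_right fun ⟨c, u, a1, a2, l⟩ => ⟨c, u, a1, a2, fun a m => cv (l a m)⟩
  · simp only [tg_rl_sub e]
    exact (all s hs).imp_right fun ⟨c, u, a1, l⟩ =>
      ⟨c, u, a1, l.imp_right fun l => ⟨l.1, fun a m => cv (l.2 a m)⟩⟩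

/-- The fold along a group `Γ` of elements that commute with the generator of the stabiliser. -/
theorem foldG [Countable G] (h : Om G C up) (hg : Good G C Eq up) {μ : X} {Γ : Subgroup G}
    {τ : G} (ct : ∀ x y : G, x * τ = τ * x → y * τ = τ * y → x * y = y * x)
    (mn : ∀ g : G, τ * (g * τ * g⁻¹) = g * τ * g⁻¹ * τ → g * τ = τ * g)
    (hτ : τ ∈ Γ) (h1 : τ ≠ 1) (hc : ∀ γ ∈ Γ, γ * τ = τ * γ)
    {θ : G → ℝ} (hadd : ∀ a ∈ Γ, ∀ b ∈ Γ, θ (a * b) = θ a + θ b)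
    (hinj : ∀ a ∈ Γ, θ a = 0 → a = 1) (hpos : 0 < θ τ) (hfix : τ • μ = μ)
    (hst : ∀ γ : G, γ • μ = μ → ∃ n : ℤ, γ = τ ^ n) (hL : ∀ γ ∈ Γ, LG C (γ • μ) μ) :
    ∃ r U, Good G C r U ∧ (∀ γ ∈ Γ, r (γ • μ) μ) ∧
      (∀ (x : X) (a : G), a ≠ 1 → a • x = x → (∀ b : G, r (b • x) x → b • x = x) ∨
        ∃ g : G, (g * τ * g⁻¹) • x = x ∧ (∀ γ ∈ Γ, r ((g * γ * g⁻¹) • x) x) ∧
          ∀ b : G, r (b • x) x → ∃ γ ∈ Γ, ∃ y : G, y • x = x ∧ b = g * γ * g⁻¹ * y) ∧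
      ∀ x : X, (∃ z : G, r (z • x) x ∧ ∀ b : G, r (b • x) x → ∃ i : ℤ, b = z ^ i) ∨
        ∃ (x₂ : X) (a : G), r x x₂ ∧ a ≠ 1 ∧ a • x₂ = x₂ := by
  obtain ⟨A, hA, rfl, T, hT⟩ := h.armI hfix
  have hO : Grpd (rfO (G := G) A) := h.grpd hg hA
  obtain ⟨ρ, M, fixT, hnf, old, all⟩ := generic4 hO ct mn hτ h1 hc hadd hinj hpos T
    fun t ht => ⟨ht, iso_lt_one _ ht, hT t ht⟩
  have F := rf_pf h hA M hτ hL hT hst
  have Q : Gq G C (rfR A Γ ρ) fun x y => ∃ x', rfR A Γ ρ x x' ∧ up x' y := F.gq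
  have off : ∀ {x y : X}, rfR A Γ ρ x y → (¬ ∃ (g : G) (t : II), t < 1 ∧ y = g • A (io t)) →
      x = y := fun k l => fr_off k l
  have lp : ∀ u, u < 1 → T u = u → rfO A τ u u := fun u hu e => ⟨hu, hu, by rw [hT u hu, e]⟩
  have hab : ∀ s, s < 1 → ∀ a b, To.Rl (rfO A) Γ ρ a s s → To.Rl (rfO A) Γ ρ b s s →
      a * b = b * a := fun s hs a b ha hb => by
    rcases all s hs with ⟨z, -, k⟩ | ⟨c, u, hu, k⟩
    · obtain ⟨i, rfl⟩ := k a ha
      obtain ⟨j, rfl⟩ := k b hb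
      exact (Commute.zpow_zpow_self z i j).eq
    have : c * a * c⁻¹ * (c * b * c⁻¹) = c * b * c⁻¹ * (c * a * c⁻¹) := by
      rcases k with k | ⟨e, k⟩
      · exact hO.ab _ _ _ (k a ha) (k b hb)
      obtain ⟨p, hp, x, hx, e1⟩ := k a ha
      obtain ⟨q, hq, y, hy, e2⟩ := k b hb
      rw [e1, e2]
      exact ct _ _ (Commute.mul_left (hc p hp) (hO.ab _ _ _ hx (lp u hx.1 e)))
        (Commute.mul_left (hc q hq) (hO.ab _ _ _ hy (lp u hx.1 e)))
    calc a * b = c⁻¹ * (c * a * c⁻¹ * (c * b * c⁻¹)) * c := by group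
      _ = b * a := by rw [this]; group
  refine ⟨_, _, ⟨Q.eqv, Q.rsm, Q.opn, Q.upl, Q.upr, Q.upc, Q.upk, Q.ups, fun x γ δ k1 k2 => ?_,
    F.nf hg.nf fun γ hγ p u v huv => ?_⟩, fun γ hγ => ?_, fun x a n ha => ?_, fun x => ?_⟩
  · by_cases hx : ∃ (g : G) (t : II), t < 1 ∧ x = g • A (io t)
    · obtain ⟨b, t, ht, rfl⟩ := hx
      have := hab t ht _ _ (rf_loop ht k1) (rf_loop ht k2)
      calc γ * δ = b * (b⁻¹ * γ * b * (b⁻¹ * δ * b)) * b⁻¹ := by group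
        _ = δ * γ := by rw [this]; group
    · exact hg.ab x γ δ (off k1 hx) (off k2 hx)
  · obtain ⟨w, w1, w2⟩ := exists_between huv
    obtain ⟨t, ht, hn⟩ := hnf (p⁻¹ * γ * p) (by simpa using cj_ne p⁻¹ hγ) u w w1
    exact ⟨t, ⟨ht.1, ht.2.trans w2.le⟩, fun k =>
      hn (rf_loop ((ht.2.trans_lt w2).trans_le unitInterval.le_one') k)⟩
  · have := rf_mv (A := A) (ρ := ρ) hγ 1 (zero_lt_one' II)
    rwa [show ρ γ 0 = 0 from (ρ γ).map_bot, io_zero, one_smul, one_smul] at this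
  · by_cases hx : ∃ (g : G) (t : II), t < 1 ∧ x = g • A (io t)
    swap
    · exact .inl fun b k => off k hx
    obtain ⟨g, t, ht, rfl⟩ := hx
    rcases old t (g⁻¹ * a * g) (by simpa using cj_ne g⁻¹ n)
      ⟨ht, ht, by rw [mul_smul, mul_smul, ha, inv_smul_smul]⟩ with k | ⟨c, u, e, hcu, k⟩
    · refine .inl fun b l => ?_
      have := (k _ (rf_loop ht l)).2.2
      rwa [mul_smul, mul_smul, inv_smul_eq_iff] at this
    have e1 : g • A (io t) = (g * c⁻¹) • A (io u) := by rw [mul_smul, ← hcu.2.2, inv_smul_smul]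
    refine .inr ⟨g * c⁻¹, ?_, fun γ hγ => ?_, fun b l => ?_⟩
    · rw [e1, mul_smul, mul_smul, inv_smul_smul, (lp u hcu.2.1 e).2.2]
    · have := rf_mv (A := A) (ρ := ρ) hγ (g * c⁻¹) hcu.2.1
      rw [fixT γ hγ u e] at this
      rwa [e1, mul_smul, mul_smul, inv_smul_smul]
    · obtain ⟨p, hp, y, hy, e2⟩ := k _ (rf_loop ht l)
      refine ⟨p, hp, g * c⁻¹ * y * (g * c⁻¹)⁻¹, ?_, ?_⟩
      · rw [e1, mul_smul, mul_smul, inv_smul_smul, hy.2.2]
      · calc b = g * c⁻¹ * (c * (g⁻¹ * b * g) * c⁻¹) * (g * c⁻¹)⁻¹ := by group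
          _ = _ := by rw [e2]; group
  · by_cases tr : ∀ b : G, rfR A Γ ρ (b • x) x → b = 1
    · exact .inl ⟨1, by rw [one_smul]; exact .refl, fun b k => ⟨0, by rw [tr b k, zpow_zero]⟩⟩
    push Not at tr
    obtain ⟨a, ha, n⟩ := tr
    by_cases hx : ∃ (g : G) (t : II), t < 1 ∧ x = g • A (io t)
    swap
    · exact .inr ⟨x, a, .refl, n, off ha hx⟩
    obtain ⟨g, t, ht, rfl⟩ := hx
    rcases all t ht with ⟨z, hz, k⟩ | ⟨c, u, hcu, k⟩
    · refine .inl ⟨g * z * g⁻¹, ?_, fun b l => ?_⟩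
      · simpa only [mul_smul, inv_smul_smul] using (rf_back hz).2 g
      · obtain ⟨i, hi⟩ := k _ (rf_loop ht l)
        exact ⟨i, by rw [conj_zpow, ← hi]; group⟩
    obtain ⟨hu, bk⟩ := rf_back hcu
    obtain ⟨w, w1, w2⟩ : ∃ w : G, w ≠ 1 ∧ rfO A w u u := by
      rcases k with k | ⟨e, -⟩
      · exact ⟨_, cj_ne c (by simpa using cj_ne g⁻¹ n), k _ (rf_loop ht ha)⟩
      · exact ⟨τ, h1, lp u hu e⟩
    refine .inr ⟨(g * c⁻¹) • A (io u), g * c⁻¹ * w * (g * c⁻¹)⁻¹,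
      by simpa only [mul_smul, inv_smul_smul] using bk (g * c⁻¹), cj_ne _ w1, ?_⟩
    rw [mul_smul, mul_smul, inv_smul_smul, w2.2.2]

/-- The fold along a root `c` of the generator `t` of the stabiliser. -/
theorem fold3 [Countable G] (tf : ∀ a : G, a ≠ 1 → ¬ IsOfFinOrder a)
    (ct : ∀ a x y : G, a ≠ 1 → x * a = a * x → y * a = a * y → x * y = y * x)
    (mn : ∀ a g : G, a ≠ 1 → a * (g * a * g⁻¹) = g * a * g⁻¹ * a → g * a = a * g)
    (h : Om G C up) (hg : Good G C Eq up) {μ : X} {t c : G} (h1 : t ≠ 1)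
    (hst : ∀ g : G, g • μ = μ ↔ g ∈ Subgroup.zpowers t) (htc : t ∈ Subgroup.zpowers c)
    (hL : LG C (c • μ) μ) :
    ∃ r U, Good G C r U ∧ r (c • μ) μ ∧
      (∀ (x : X) (a : G), a ≠ 1 → a • x = x → (∀ b : G, r (b • x) x → b • x = x) ∨
        ∃ g : G, (g * t * g⁻¹) • x = x ∧ r ((g * c * g⁻¹) • x) x ∧
          ∀ b : G, r (b • x) x → ∃ (n : ℤ) (y : G), y • x = x ∧ b = (g * c * g⁻¹) ^ n * y) ∧
      ∀ x : X, (∃ z : G, r (z • x) x ∧ ∀ b : G, r (b • x) x → b ∈ Subgroup.zpowers z) ∨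
        ∃ (x₂ : X) (a : G), r x x₂ ∧ a ≠ 1 ∧ a • x₂ = x₂ := by
  classical
  obtain ⟨k, rfl⟩ := htc
  have c1 : c ≠ 1 := fun e => h1 (by simp [e])
  have k0 : k ≠ 0 := fun e => h1 (by simp [e])
  have inj := injective_zpow_iff_not_isOfFinOrder.2 (tf c c1)
  obtain ⟨θ, hθ⟩ : ∃ θ : G → ℝ, ∀ n : ℤ, θ (c ^ n) = n * k :=
    ⟨fun g => (Function.invFun (fun n : ℤ => c ^ n) g : ℤ) * k, fun n =>
      congrArg (fun m : ℤ => (m : ℝ) * k) (Function.leftInverse_invFun inj n)⟩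
  have kr : (k : ℝ) ≠ 0 := by exact_mod_cast k0
  obtain ⟨r, U, a1, a2, a3, a4⟩ := foldG h hg (μ := μ) (Γ := Subgroup.zpowers c) (τ := c ^ k)
    (fun x y => ct _ x y h1) (fun g => mn _ g h1) ⟨k, rfl⟩ h1
    (by rintro _ ⟨n, rfl⟩; exact (Commute.zpow_zpow_self c n k).eq) (θ := θ)
    (by
      rintro _ ⟨m, rfl⟩ _ ⟨n, rfl⟩
      simp only [← zpow_add, hθ]
      push_cast
      ring)
    (by
      rintro _ ⟨m, rfl⟩ e
      simp only [hθ] at e
      have : m = 0 := by exact_mod_cast (mul_eq_zero.1 e).resolve_right kr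
      simp [this])
    (by rw [hθ]; exact mul_self_pos.2 kr) ((hst _).2 (Subgroup.mem_zpowers _))
    (fun γ e => ((hst γ).1 e).imp fun _ e => e.symm)
    fun γ e => (Subgroup.zpowers_le (H := h.cls μ)).2 hL e
  refine ⟨r, U, a1, a2 c (Subgroup.mem_zpowers c), fun x a n e => (a3 x a n e).imp_right ?_,
    fun x => (a4 x).imp_left fun ⟨z, b1, b2⟩ => ⟨z, b1, fun b l => (b2 b l).imp fun _ e => e.symm⟩⟩
  rintro ⟨g, b1, b2, b3⟩
  refine ⟨g, b1, b2 c (Subgroup.mem_zpowers c), fun b l => ?_⟩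
  obtain ⟨_, ⟨n, rfl⟩, y, b4, b5⟩ := b3 b l
  exact ⟨n, y, b4, by rw [b5, conj_zpow]⟩

end Pool.Agent.Work.MP_3d425c_gt.Nz
end

-- merged part: Pool.Agent.Work.MP_3d425c_gt.Nz.EFold
section
/-! A fold along one element. -/

namespace Pool.Agent.Work.MP_3d425c_gt.Nz
open Set Pool.Agent.Work.MP_3d425c_gt.Cy Pool.Agent.Work.MP_3d425c_gt.To Subgroup

variable {G : Type} [Group G] {X : Type*} [MulAction G X] {C : Set (ℝ → X)} {up : X → X → Prop}

theorem fold [Countable G] (hG : Lc G) (h : Om G C up) (nf : Nf G C Eq)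
    (zc : Zc G (Eq : X → X → Prop)) {μ : X} {τ g : G} (h1 : τ ≠ 1) (hfix : τ • μ = μ)
    (hst : ∀ γ : G, γ • μ = μ → ∃ n : ℤ, γ = τ ^ n) (hg : g * τ = τ * g)
    (hL : LG C (g • μ) μ) :
    ∃ r U, Gq G C r U ∧ Nf G C r ∧ Zc G r ∧ r (g • μ) μ ∧
      ∀ (x : X) (a : G), a ≠ 1 → a • x = x → ∀ b : G, r (b • x) x →
        b ∈ closure ({c : G | c • x = x} ∪ {c | c * a = a * c ∧ ∃ k, c = k * g * k⁻¹}) := by
  obtain ⟨c, c0, c1, c2⟩ := hG.two hg
  have ab := zc.ab hG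
  obtain ⟨r, U, Q, a1, gr, bn⟩ := fold3 hG.csa.tf hG.csa.ct hG.csa.mn h (rz_good h.gq ab nf) h1
    (fun γ => ⟨fun e => (hst γ e).imp fun _ e => e.symm,
      fun e => zpowers_le.2 (show τ ∈ MulAction.stabilizer G μ from hfix) e⟩) c2
    ((closure_le (h.cls μ)).2 (by
      rintro _ (rfl | rfl)
      · exact hL
      · show LG C _ _
        rw [hfix]
        exact h.lg_refl _) c0)
  have cc : ∀ (k p : G), p * τ = τ * p → ∀ (x : X) (a : G), a • x = x → (k * τ * k⁻¹) • x = x →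
      k * p * k⁻¹ * a = a * (k * p * k⁻¹) := fun k p e x a ha hk =>
    hG.csa.ct _ _ _ (cj_ne k h1) (by
      calc k * p * k⁻¹ * (k * τ * k⁻¹) = k * (p * τ) * k⁻¹ := by group
        _ = _ := by rw [e]; group) (ab x _ _ ha hk)
  have cτ : c * τ = τ * c := by
    obtain ⟨n, rfl⟩ := c2
    exact (Commute.self_zpow c n).eq
  refine ⟨r, U, gq_of_good Q, Q.nf, fun x => ?_, ?_, fun x a n ha b hb => ?_⟩
  · rcases bn x with ⟨z, -, k⟩ | ⟨y, a, e, n, ha⟩
    · exact .inl ⟨z, k⟩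
    have tr : ∀ b : G, r (b • x) x ↔ r (b • y) y := fun b =>
      ⟨fun k => Q.eqv.trans (Q.eqv.symm (Q.rsm b _ _ e)) (Q.eqv.trans k e),
        fun k => Q.eqv.trans (Q.rsm b _ _ e) (Q.eqv.trans k (Q.eqv.symm e))⟩
    have rf : ∀ b : G, b • y = y → r (b • y) y := fun b k => by
      rw [k]
      exact Q.eqv.refl y
    simp only [tr]
    rcases zc y with ⟨z, hz⟩ | ⟨κ, k1, hκ⟩
    swap
    · exact .inr ⟨κ, k1, fun b => ⟨fun k => Q.ab y b κ k (rf κ ((hκ κ).2 rfl)),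
        fun k => rf b ((hκ b).2 k)⟩⟩
    rcases gr y a n ha with k | ⟨k, b1, -, b3⟩
    · exact .inl ⟨z, fun b l => hz b (k b l)⟩
    obtain ⟨w, -, w1, w2⟩ := hG.two (hG.csa.ct a _ z n (cc k c cτ y a ha b1) (by
      obtain ⟨i, rfl⟩ := hz a ha
      exact (Commute.self_zpow z i).eq))
    refine .inl ⟨w, fun b l => ?_⟩
    obtain ⟨m, v, b4, rfl⟩ := b3 b l
    exact mul_mem (zpow_mem w1 m) (zpowers_le.2 w2 (hz v b4))
  · exact (zpowers_le (H := clsH Q.eqv Q.rsm μ)).2 a1 c1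
  · rcases gr x a n ha with k | ⟨k, b1, -, b3⟩
    · exact subset_closure (.inl (k b hb))
    obtain ⟨m, v, b4, rfl⟩ := b3 b hb
    refine mul_mem (zpow_mem ?_ m) (subset_closure (.inl b4))
    refine mem_comap.1 ((closure_le (comap (MulAut.conj k).toMonoidHom (closure
      ({c : G | c • x = x} ∪ {c | c * a = a * c ∧ ∃ k, c = k * g * k⁻¹})))).2 ?_ c0)
    rintro _ (rfl | rfl)
    · exact subset_closure (.inr ⟨cc k _ hg x a ha b1, k, rfl⟩)
    · exact subset_closure (.inl b1)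

end Pool.Agent.Work.MP_3d425c_gt.Nz
end

-- merged part: Pool.Agent.Work.MP_3d425c_gt.Nz.ECtr
section
/-! The centre of a finite orbit of a cyclic group. -/

namespace Pool.Agent.Work.MP_3d425c_gt.Nz
open Pool.Agent.Work.MP_3d425c_gt.Cy Pool.Agent.Work.MP_3d425c_gt.To

variable {G X : Type*} [Group G] [MulAction G X] {C : Set (ℝ → X)} {up : X → X → Prop}

/-- `g` keeps the class of `ν`, moves `ν`, and `x` lies behind `ν`. -/
structure Ctr (C : Set (ℝ → X)) (up : X → X → Prop) (g : G) (x ν : X) : Prop where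
  lg : LG C (g • ν) ν
  mv : g • ν ≠ ν
  mem : up ν x ∨ x = ν

theorem Ctr.uniq (h : Om G C up) {g : G} {x ν ν' : X} (a : Ctr C up g x ν)
    (b : Ctr C up g x ν') : ν = ν' := by
  have key : ∀ {μ μ' : X}, Ctr C up g x μ → Ctr C up g x μ' → ¬ up μ μ' := fun a b u =>
    a.mv (h.windA_disj a.lg (.inl (h.ups g _ _ u)) (.inl (h.lg_up (Om.lg_symm b.lg) u)))
  by_contra n
  exact h.disj (key a b) (key b a) n a.mem b.mem

theorem Ctr.smul (h : Om G C up) {g p : G} {x ν : X} (a : Ctr C up g x ν) (c : p * g = g * p) :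
    Ctr C up g (p • x) (p • ν) :=
  ⟨by rw [← mul_smul, ← c, mul_smul]; exact h.lg_smul p a.lg,
    fun e => a.mv (smul_left_cancel p (by rwa [← mul_smul, ← c, mul_smul] at e)),
    a.mem.imp (h.ups p _ _) fun e => by rw [e]⟩

/-- An element that commutes with `g` and fixes `x` fixes the centre. -/
theorem Ctr.fix (h : Om G C up) {g p : G} {x ν : X} (a : Ctr C up g x ν) (c : p * g = g * p)
    (f : p • x = x) : p • ν = ν :=
  (f ▸ a.smul h c).uniq h a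

theorem pow_fix {g : G} {x : X} {k : ℤ} (hk : k ≠ 0) (f : g ^ k • x = x) :
    ∃ n : ℕ, ∀ p ∈ Subgroup.zpowers g, p ^ (n + 1) • x = x := by
  refine ⟨k.natAbs - 1, ?_⟩
  rintro _ ⟨i, rfl⟩
  have m : g ^ k ∈ MulAction.stabilizer G x := f
  have e : (g ^ i) ^ (k.natAbs - 1 + 1) = (g ^ k) ^ (k.sign * i) := by
    rw [← zpow_natCast, ← zpow_mul, ← zpow_mul, ← mul_assoc, mul_comm i,
      Nat.sub_add_cancel (Int.natAbs_pos.2 hk), Int.mul_sign_self]
  rw [e]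
  exact zpow_mem m _

/-- A point with a finite orbit that is not fixed has a centre. -/
theorem exists_ctr (h : Om G C up) {g : G} {x : X} {k : ℤ} (hk : k ≠ 0) (f : g ^ k • x = x)
    (mv : g • x ≠ x) :
    (∃ ν, Ctr C up g x ν) ∨ ∃ ν, Ctr (dualC C) (dualU up) g x ν := by
  obtain ⟨n, hn⟩ := pow_fix hk f
  have g1 := Subgroup.mem_zpowers g
  have fin : ∀ {D : Set (ℝ → X)} {U : X → X → Prop}, End D U (Subgroup.zpowers g) x →
      ∃ ν, Ctr D U g x ν := fun ⟨ν, a, ⟨_, ⟨i, rfl⟩, b⟩, c⟩ =>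
    ⟨ν, a g g1, fun e => b (zpow_mem (show g ∈ MulAction.stabilizer G ν from e) i), c⟩
  rcases h.proj (P := Subgroup.zpowers g) (by
      rintro _ ⟨i, rfl⟩ _ ⟨j, rfl⟩
      exact (Commute.zpow_zpow_self g i j).eq) (Subgroup.zpowers_eq_closure g).symm
      (Set.finite_singleton g) x with a | ⟨y, p, hp, -, a, b, c⟩ | a | a
  · rcases a g g1 with (a | a) | (a | a)
    · exact (mv a.symm).elim
    · exact (h.lt_irr x (by simpa only [hn g g1] using h.lt_pow a n)).elim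
    · exact (mv a).elim
    · exact (h.lt_irr x (by simpa only [hn g g1] using h.gt_pow a n)).elim
  · refine (c.1 (h.le_up (y := p ^ (n + 1) • y) ?_ ?_)).elim
    · rw [pow_succ', mul_smul]
      exact (h.le_smul p).2 (h.le_pow (.inr a) n)
    · exact hn p hp ▸ h.ups _ _ _ b
  · exact .inl (fin a)
  · exact .inr (fin a)

theorem centre (h : Om G C up) {g : G} {x : X} {k : ℕ} (hk : 0 < k) (fx : g ^ k • x = x)
    (mv : g • x ≠ x) : (∃ ν, LG C (g • ν) ν ∧ g • ν ≠ ν ∧ g ^ k • ν = ν) ∨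
      ∃ ν, LG (dualC C) (g • ν) ν ∧ g • ν ≠ ν ∧ g ^ k • ν = ν :=
  (exists_ctr h (k := k) (by omega) (by rwa [zpow_natCast]) mv).imp
    (fun ⟨ν, a⟩ => ⟨ν, a.lg, a.mv, a.fix h (Commute.self_pow g k).eq.symm fx⟩)
    fun ⟨ν, a⟩ => ⟨ν, a.lg, a.mv, a.fix h.dual (Commute.self_pow g k).eq.symm fx⟩

end Pool.Agent.Work.MP_3d425c_gt.Nz
end

-- merged part: Pool.Agent.Work.MP_3d425c_gt.Nz.ECls
section
/-! Invariant orders on classes when stabilisers need not be finitely generated. -/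

namespace Pool.Agent.Work.MP_3d425c_gt.Nz
open Set Filter Topology Pool.Agent.Work.MP_3d425c_gt.Cy Pool.Agent.Work.MP_3d425c_gt.To

section
variable {G X : Type*} [Group G] [MulAction G X]

theorem ec_inv {E : Subgroup G} {χ : G → ℝ} (h : ∀ a ∈ E, ∀ b ∈ E, χ (a * b) = χ a + χ b) :
    χ 1 = 0 ∧ ∀ a ∈ E, χ a⁻¹ = -χ a := by
  have h1 : χ 1 = 0 := by
    have := h 1 E.one_mem 1 E.one_mem
    rw [mul_one] at this
    linarith
  refine ⟨h1, fun a ha => ?_⟩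
  have := h a ha _ (E.inv_mem ha)
  rw [mul_inv_cancel, h1] at this
  linarith

theorem ec_hom {E : Subgroup G} (φ : E →* Multiplicative ℝ) : ∃ χ : G → ℝ,
    (∀ a ∈ E, ∀ b ∈ E, χ (a * b) = χ a + χ b) ∧ ∀ a : E, χ a = (φ a).toAdd := by
  classical
  refine ⟨fun g => if h : g ∈ E then (φ ⟨g, h⟩).toAdd else 0, fun a ha b hb => ?_,
    fun a => dif_pos a.2⟩
  simp only [dif_pos ha, dif_pos hb, dif_pos (E.mul_mem ha hb)]
  exact congrArg Multiplicative.toAdd (φ.map_mul ⟨a, ha⟩ ⟨b, hb⟩)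

/-- A group that maps onto the rank two lattice has a character that kills a given element. -/
theorem ec_two {D : Type*} [Group D] (f : D →* Multiplicative (ℤ × ℤ))
    (hf : Function.Surjective f) (κ : D) :
    ∃ φ : D →* Multiplicative ℝ, φ κ = 1 ∧ ∃ a, φ a ≠ 1 := by
  obtain ⟨p, q, hpq, h0⟩ : ∃ p q : ℤ, (p ≠ 0 ∨ q ≠ 0) ∧
      p * (f κ).toAdd.1 + q * (f κ).toAdd.2 = 0 := by
    generalize (f κ).toAdd = v
    by_cases hv : v.1 = 0
    · exact ⟨1, 0, Or.inl one_ne_zero, by simp [hv]⟩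
    · exact ⟨v.2, -v.1, Or.inr (neg_ne_zero.2 hv), by ring⟩
  let l : Multiplicative (ℤ × ℤ) →* Multiplicative ℝ := MonoidHom.mk'
    (fun v => Multiplicative.ofAdd ((p * v.toAdd.1 + q * v.toAdd.2 : ℤ) : ℝ)) fun a b => by
      rw [← ofAdd_add]
      congr 1
      simp only [toAdd_mul, Prod.fst_add, Prod.snd_add]
      push_cast
      ring
  have e : ∀ a, l.comp f a = 1 ↔ p * (f a).toAdd.1 + q * (f a).toAdd.2 = 0 := fun a =>
    (ofAdd_eq_one (x := ((p * (f a).toAdd.1 + q * (f a).toAdd.2 : ℤ) : ℝ))).trans Int.cast_eq_zero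
  obtain ⟨a, ha⟩ := hf (Multiplicative.ofAdd (p, q))
  refine ⟨l.comp f, (e κ).2 h0, a, fun k => ?_⟩
  rw [e, ha] at k
  have k' : p * p + q * q = 0 := k
  rcases hpq with h | h
  · nlinarith [mul_self_pos.2 h, mul_self_nonneg q]
  · nlinarith [mul_self_pos.2 h, mul_self_nonneg p]

/-- A limit of characters that kill larger and larger finite parts of `K`. -/
theorem ec_lim (K : Subgroup G) (F : Finset G)
    (h : ∀ T : Finset G, ∃ χ : G → ℝ,
      (∀ a ∈ Subgroup.closure ((K : Set G) ∩ T ∪ F), ∀ b ∈ Subgroup.closure ((K : Set G) ∩ T ∪ F),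
        χ (a * b) = χ a + χ b) ∧ (∃ a ∈ Subgroup.closure ((K : Set G) ∩ T ∪ F), χ a ≠ 0) ∧
      ∀ k ∈ K, k ∈ T → χ k = 0) : ∃ χ, ClsChar (fun _ => 0) K F χ := by
  classical
  choose χ c1 c2 c3 using h
  have pos : ∀ T, 0 < ∑ f ∈ F, |χ T f| := fun T => by
    refine (Finset.sum_nonneg fun _ _ => abs_nonneg _).lt_of_ne' fun e => ?_
    rw [Finset.sum_eq_zero_iff_of_nonneg fun _ _ => abs_nonneg _] at e
    obtain ⟨a, ha, n⟩ := c2 T
    refine n ?_
    clear n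
    induction ha using Subgroup.closure_induction with
    | mem x hx => exact hx.elim (fun k => c3 T x k.1 k.2) fun k => abs_eq_zero.1 (e x k)
    | one => exact (ec_inv (c1 T)).1
    | mul a b ha hb h1 h2 => rw [c1 T a ha b hb, h1, h2, add_zero]
    | inv a ha h1 => rw [(ec_inv (c1 T)).2 a ha, h1, neg_zero]
  obtain ⟨ψ, hψ⟩ : ∃ ψ : G → Finset G → ℝ, ∀ g T, ψ g T = χ T g / ∑ f ∈ F, |χ T f| :=
    ⟨_, fun _ _ => rfl⟩
  let U : Ultrafilter (Finset G) := Ultrafilter.of atTop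
  have hU : ∀ x : G, ∀ᶠ T : Finset G in U, x ∈ T := fun x => Ultrafilter.of_le _ (by
    filter_upwards [eventually_ge_atTop ({x} : Finset G)] with T hT
    exact hT (Finset.mem_singleton_self x))
  have kK : ∀ k ∈ K, Tendsto (ψ k) U (𝓝 0) := fun k hk => tendsto_const_nhds.congr' (by
    filter_upwards [hU k] with T hT
    rw [hψ, c3 T k hk hT, zero_div])
  have ad : ∀ a b r s, (∀ᶠ T : Finset G in U,
      a ∈ Subgroup.closure ((K : Set G) ∩ T ∪ F)) → (∀ᶠ T : Finset G in U,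
      b ∈ Subgroup.closure ((K : Set G) ∩ T ∪ F)) → Tendsto (ψ a) U (𝓝 r) →
      Tendsto (ψ b) U (𝓝 s) → Tendsto (ψ (a * b)) U (𝓝 (r + s)) := fun a b r s ha hb p q =>
    (p.add q).congr' (by
      filter_upwards [ha, hb] with T ha hb
      rw [hψ, hψ, hψ, c1 T a ha b hb, add_div])
  have key : ∀ g ∈ Subgroup.closure ((K : Set G) ∪ F), (∀ᶠ T : Finset G in U,
      g ∈ Subgroup.closure ((K : Set G) ∩ T ∪ F)) ∧ ∃ r, Tendsto (ψ g) U (𝓝 r) := by
    intro g hg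
    induction hg using Subgroup.closure_induction with
    | mem x hx =>
      rcases hx with hx | hx
      · exact ⟨(hU x).mono fun T hT => Subgroup.subset_closure (Or.inl ⟨hx, hT⟩), 0, kK x hx⟩
      · refine ⟨Eventually.of_forall fun T => Subgroup.subset_closure (Or.inr hx), ?_⟩
        obtain ⟨r, -, hr⟩ := (isCompact_Icc (a := (-1 : ℝ)) (b := 1)).ultrafilter_le_nhds
          (U.map (ψ x)) (le_principal_iff.2 (mem_map.2 (Eventually.of_forall fun T => by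
            show ψ x T ∈ Icc (-1 : ℝ) 1
            rw [mem_Icc, ← abs_le, hψ, abs_div, abs_of_pos (pos T), div_le_one (pos T)]
            exact Finset.single_le_sum (f := fun f => |χ T f|) (fun _ _ => abs_nonneg _) hx)))
        exact ⟨r, hr⟩
    | one => exact ⟨Eventually.of_forall fun T => one_mem _, 0, kK 1 K.one_mem⟩
    | mul a b _ _ h1 h2 =>
      obtain ⟨p, r, hr⟩ := h1
      obtain ⟨q, s, hs⟩ := h2
      exact ⟨(p.and q).mono fun T k => mul_mem k.1 k.2, _, ad a b r s p q hr hs⟩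
    | inv a _ h1 =>
      obtain ⟨p, r, hr⟩ := h1
      refine ⟨p.mono fun T k => inv_mem k, -r, hr.neg.congr' ?_⟩
      filter_upwards [p] with T ha
      rw [hψ, hψ, (ec_inv (c1 T)).2 a ha, neg_div]
  have lim : ∀ g ∈ Subgroup.closure ((K : Set G) ∪ F),
      Tendsto (ψ g) U (𝓝 (limUnder U (ψ g))) := fun g hg => tendsto_nhds_limUnder (key g hg).2
  refine ⟨fun g => limUnder U (ψ g), fun a ha b hb =>
    (ad a b _ _ (key a ha).1 (key b hb).1 (lim a ha) (lim b hb)).limUnder_eq, ?_,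
    fun k hk => (kK k hk).limUnder_eq, fun _ _ _ _ _ => by simp⟩
  by_contra n
  push Not at n
  have t : Tendsto (fun T => ∑ f ∈ F, |ψ f T|) U (𝓝 (∑ f ∈ F, |(0 : ℝ)|)) :=
    tendsto_finsetSum F fun f hf => by
      have m : f ∈ Subgroup.closure ((K : Set G) ∪ F) := Subgroup.subset_closure (Or.inr hf)
      have := lim f m
      rw [n f m] at this
      exact this.abs
  have e : (fun T => ∑ f ∈ F, |ψ f T|) = fun _ => (1 : ℝ) := funext fun T => by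
    simp only [hψ, abs_div, abs_of_pos (pos T)]
    rw [← Finset.sum_div, div_self (pos T).ne']
  rw [e] at t
  simpa using tendsto_nhds_unique t tendsto_const_nhds

/-- An abelian subgroup that is maximal in a subgroup of infinite index is relatively convex. -/
theorem ec_cone (tf : ∀ a : G, a ≠ 1 → ¬ IsOfFinOrder a)
    (nz : ∀ a b : G, a * b = b * a → Dep a b) (hB : Big G) (H K : Subgroup G) (hKH : K ≤ H)
    (hab : ∀ a ∈ K, ∀ b ∈ K, a * b = b * a) (hinf : ∀ E : Subgroup G, E ≤ H → ¬ E.FiniteIndex)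
    (hmax : ∀ κ ∈ K, κ ≠ 1 → ∀ x ∈ H, x * κ = κ * x → x ∈ K) : ∃ P, Cy.Cone H K P := by
  classical
  refine (cls_bh (fun _ => 0) H K fun F hF ⟨x, hxF, hxK⟩ => ec_lim K F fun T => ?_).imp
    fun P h => h.1
  obtain ⟨E, hE⟩ : ∃ E, E = Subgroup.closure ((K : Set G) ∩ T ∪ F) := ⟨_, rfl⟩
  rw [← hE]
  have hKE : ∀ k ∈ K, k ∈ T → k ∈ E := fun k hk hT => hE ▸ Subgroup.subset_closure (Or.inl ⟨hk, hT⟩)
  have hx : x ∈ E := hE ▸ Subgroup.subset_closure (Or.inr hxF)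
  have hEH : E ≤ H := by
    rw [hE, Subgroup.closure_le]
    rintro y (hy | hy)
    exacts [hKH hy.1, hF y hy]
  have hFG : E.FG := hE ▸ (Subgroup.fg_iff _).2
    ⟨_, rfl, (T.finite_toSet.inter_of_right _).union F.finite_toSet⟩
  suffices k : ∃ φ : E →* Multiplicative ℝ, (∃ a, φ a ≠ 1) ∧ ∀ k : E, k.1 ∈ K → k.1 ∈ T → φ k = 1 by
    obtain ⟨φ, ⟨a, ha⟩, hk⟩ := k
    obtain ⟨χ, c1, c2⟩ := ec_hom φ
    exact ⟨χ, c1, ⟨a, a.2, fun e => ha (toAdd_eq_zero.1 ((c2 a).symm.trans e))⟩,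
      fun k h1 h2 => (c2 ⟨k, hKE k h1 h2⟩).trans (toAdd_eq_zero.2 (hk _ h1 h2))⟩
  rcases hB E hFG with hc | hfi | ⟨f, hf⟩
  · have x1 : x ≠ 1 := fun e => hxK (e ▸ K.one_mem)
    have : Infinite E := Infinite.of_injective (fun n : ℤ => (⟨x ^ n, E.zpow_mem hx n⟩ : E))
      fun i j e => injective_zpow_iff_not_isOfFinOrder.2 (tf x x1) (congrArg Subtype.val e)
    refine ⟨(AddMonoidHom.toMultiplicative (Int.castAddHom ℝ)).comp
      (intCyclicMulEquiv (G := E)).symm.toMonoidHom, ⟨⟨x, hx⟩, fun e => x1 ?_⟩, fun k hk _ => ?_⟩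
    · have e1 : ((((intCyclicMulEquiv (G := E)).symm ⟨x, hx⟩).toAdd : ℤ) : ℝ) = 0 := e
      rw [Int.cast_eq_zero, toAdd_eq_zero, MulEquiv.map_eq_one_iff] at e1
      exact congrArg Subtype.val e1
    · have : k = 1 := by
        by_contra n
        exact hxK (hmax k hk (fun e => n (Subtype.ext e)) x (hF x hxF)
          (congrArg Subtype.val (hc.commGroup.mul_comm ⟨x, hx⟩ k)))
      rw [this, map_one]
  · exact absurd hfi (hinf E hEH)
  · by_cases hK : ∃ κ : E, κ.1 ∈ K ∧ κ ≠ 1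
    · obtain ⟨κ, hκ, h1⟩ := hK
      obtain ⟨φ, p1, p2⟩ := ec_two f hf κ
      refine ⟨φ, p2, fun k hk _ => ?_⟩
      obtain ⟨m, n, d, e⟩ := nz k κ (hab _ hk _ hκ)
      have m0 : m ≠ 0 := fun m0 => by
        rw [m0, zpow_zero] at e
        exact tf κ (fun e => h1 (Subtype.ext e))
          (isOfFinOrder_iff_zpow_eq_one.2 ⟨n, fun n0 => d ⟨m0, n0⟩, e.symm⟩)
      have e1 : φ k ^ m = 1 := by
        rw [← map_zpow, show k ^ m = κ ^ n from Subtype.ext e, map_zpow, p1, one_zpow]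
      have e2 : m • (φ k).toAdd = 0 := congrArg Multiplicative.toAdd e1
      exact toAdd_eq_zero.1 ((smul_eq_zero_iff_right m0).1 e2)
    · push Not at hK
      obtain ⟨φ, -, p2⟩ := ec_two f hf 1
      exact ⟨φ, p2, fun k hk _ => by rw [hK k hk, map_one]⟩

/-- Cones relative to the stabilisers give an invariant order on the classes. -/
theorem ec_ord {E : X → X → Prop} (hE : Equivalence E)
    (hsm : ∀ (g : G) x y, E x y → E (g • x) (g • y))
    (hc : ∀ μ : X, ∃ P, Cy.Cone (clsH hE hsm μ) (MulAction.stabilizer G μ) P) :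
    ∃ lo, ClassOrd G E lo := by
  classical
  choose P hP using hc
  obtain ⟨ρ, h1, h2⟩ : ∃ ρ : X → X, (∀ x, ∃ a : G, a • ρ x = x) ∧
      ∀ (g : G) x, ρ (g • x) = ρ x := by
    refine ⟨fun x => (Quotient.mk (MulAction.orbitRel G X) x).out, fun x => ?_, fun g x => ?_⟩
    · have k : (MulAction.orbitRel G X) x (Quotient.mk (MulAction.orbitRel G X) x).out :=
        (MulAction.orbitRel G X).symm (Quotient.mk_out x)
      exact MulAction.mem_orbit_iff.1 (MulAction.orbitRel_apply.1 k)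
    · have k : Quotient.mk (MulAction.orbitRel G X) (g • x) =
          Quotient.mk (MulAction.orbitRel G X) x :=
        Quotient.sound (MulAction.orbitRel_apply.2 (MulAction.mem_orbit x g))
      simp only [k]
  refine ⟨fun x y => WellOrderingRel (ρ x) (ρ y) ∨ (ρ x = ρ y ∧
    ∃ a b : G, a • ρ x = x ∧ b • ρ x = y ∧ a⁻¹ * b ∈ P (ρ x)), ⟨?_, ?_, ?_, ?_⟩⟩
  · intro g x y k
    rw [h2, h2]
    refine k.imp_right fun ⟨e, a, b, ha, hb, hp⟩ => ⟨e, g * a, g * b, ?_, ?_, ?_⟩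
    · rw [mul_smul, ha]
    · rw [mul_smul, hb]
    · have : (g * a)⁻¹ * (g * b) = a⁻¹ * b := by group
      rwa [this]
  · intro x y hxy hne
    rcases trichotomous_of WellOrderingRel (ρ x) (ρ y) with k | k | k
    · exact Or.inl (Or.inl k)
    · obtain ⟨a, ha⟩ := h1 x
      obtain ⟨b, hb⟩ := h1 y
      have hb' : b • ρ x = y := by rw [k, hb]
      have hH : a⁻¹ * b ∈ clsH hE hsm (ρ x) := by
        show E ((a⁻¹ * b) • ρ x) (ρ x)
        have k2 := hsm a⁻¹ _ _ (hE.symm hxy)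
        rw [mul_smul, hb']
        rwa [show a⁻¹ • x = ρ x by rw [inv_smul_eq_iff, ha]] at k2
      have hK : a⁻¹ * b ∉ MulAction.stabilizer G (ρ x) := fun k2 => hne (by
        rw [MulAction.mem_stabilizer_iff, mul_smul, inv_smul_eq_iff, ha, hb'] at k2
        exact k2.symm)
      rcases (hP (ρ x)).tot _ hH hK with k2 | k2
      · exact Or.inl (Or.inr ⟨k, a, b, ha, hb', k2⟩)
      · refine Or.inr (Or.inr ⟨k.symm, b, a, hb, by rw [← k, ha], ?_⟩)
        rw [← k]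
        simpa using k2
    · exact Or.inr (Or.inl k)
  · rintro x (k | ⟨-, a, b, ha, hb, hp⟩)
    · exact irrefl_of WellOrderingRel _ k
    · exact (hP (ρ x)).notK _ hp (cat_stab (ha.trans hb.symm))
  · rintro x y z - - (k | ⟨e, a, b, ha, hb, hp⟩) (k' | ⟨e', a', b', ha', hb', hp'⟩)
    · exact Or.inl (trans_of WellOrderingRel k k')
    · exact Or.inl (e' ▸ k)
    · exact Or.inl (e ▸ k')
    · rw [← e] at ha' hb' hp'
      refine Or.inr ⟨e.trans e', a, b', ha, hb', ?_⟩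
      have : a⁻¹ * b' = a⁻¹ * b * (b⁻¹ * a' * (a'⁻¹ * b')) := by group
      rw [this]
      exact (hP (ρ x)).mul _ hp _ ((hP (ρ x)).left _ (cat_stab (hb.trans ha'.symm)) _ hp')

/-- The order on the classes of an object whose stabilisers are full. -/
theorem classOrd (tf : ∀ a : G, a ≠ 1 → ¬ IsOfFinOrder a)
    (nz : ∀ a b : G, a * b = b * a → Dep a b) (hB : Big G) {E : X → X → Prop}
    (hE : Equivalence E) (hsm : ∀ (g : G) x y, E x y → E (g • x) (g • y))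
    (hab : ∀ (x : X) (a b : G), a • x = x → b • x = x → a * b = b * a) (hM : Mx G E)
    (hF : ¬ Fi G E) : ∃ lo, ClassOrd G E lo :=
  ec_ord hE hsm fun μ => ec_cone tf nz hB (clsH hE hsm μ) (MulAction.stabilizer G μ)
    (fun a ha => by
      show E (a • μ) μ
      rw [MulAction.mem_stabilizer_iff.1 ha]
      exact hE.refl μ)
    (fun a ha b hb => hab μ a b ha hb) (fun H hH hf => hF ⟨μ, H, hf, fun g hg => hH hg⟩)
    fun κ hκ h1 x hx e => hM μ κ x h1 hκ e hx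

/-- A cone in an abelian group of rank one. -/
theorem ec_pos (tf : ∀ a : G, a ≠ 1 → ¬ IsOfFinOrder a)
    (nz : ∀ a b : G, a * b = b * a → Dep a b) (K : Subgroup G)
    (hab : ∀ a ∈ K, ∀ b ∈ K, a * b = b * a) : ∃ P : Set G, 1 ∉ P ∧ (∀ a ∈ P, ∀ b ∈ P, a * b ∈ P) ∧
      ∀ γ ∈ K, γ ∈ P ∨ γ = 1 ∨ γ⁻¹ ∈ P := by
  by_cases hK : ∀ κ ∈ K, κ = 1
  · exact ⟨∅, by simp, by simp, fun γ hγ => Or.inr (Or.inl (hK γ hγ))⟩
  push Not at hK
  obtain ⟨κ, hκ, h1⟩ := hK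
  have zn : ∀ (a : G) (m : ℤ), a ≠ 1 → a ^ m = 1 → m = 0 := fun a m ha e => by_contra fun k =>
    tf a ha (isOfFinOrder_iff_zpow_eq_one.2 ⟨m, k, e⟩)
  refine ⟨{y | y ∈ K ∧ ∃ m n : ℤ, 0 < m ∧ 0 < n ∧ y ^ m = κ ^ n}, ?_, ?_, fun γ hγ => ?_⟩
  · rintro ⟨-, m, n, -, hn, e⟩
    exact hn.ne' (zn κ n h1 (by rw [← e, one_zpow]))
  · rintro a ⟨ha, m, n, p, q, e⟩ b ⟨hb, m', n', p', q', e'⟩
    refine ⟨K.mul_mem ha hb, m * m', n * m' + n' * m, by positivity, by positivity, ?_⟩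
    rw [Commute.mul_zpow (hab a ha b hb), zpow_mul, e, mul_comm m, zpow_mul b, e', zpow_add,
      zpow_mul, zpow_mul]
  · by_cases g1 : γ = 1
    · exact Or.inr (Or.inl g1)
    obtain ⟨m, n, d, e⟩ := nz γ κ (hab γ hγ κ hκ)
    have m0 : m ≠ 0 := fun z => d ⟨z, zn κ n h1 (by rw [← e, z, zpow_zero])⟩
    have n0 : n ≠ 0 := fun z => m0 (zn γ m g1 (by rw [e, z, zpow_zero]))
    have e2 : γ ^ (m * n) = κ ^ (n * n) := by rw [zpow_mul, e, zpow_mul]
    rcases lt_or_gt_of_ne (mul_ne_zero m0 n0) with k | k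
    · exact Or.inr (Or.inr ⟨K.inv_mem hγ, -(m * n), n * n, neg_pos.2 k, mul_self_pos.2 n0, by
        rw [inv_zpow', neg_neg, e2]⟩)
    · exact Or.inl ⟨hγ, m * n, n * n, k, mul_self_pos.2 n0, e2⟩

end

variable {G : Type} [Group G] {X : Type*} [MulAction G X]

theorem classOrd3 (hG : Lc G) (hB : Big G) {E : X → X → Prop} (hE : Equivalence E)
    (hsm : ∀ (g : G) x y, E x y → E (g • x) (g • y))
    (hab : ∀ (x : X) (a b : G), a • x = x → b • x = x → a * b = b * a) (hM : Mx G E)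
    (hF : ¬ Fi G E) : ∃ lo, ClassOrd G E lo :=
  classOrd hG.csa.tf hG.dep hB hE hsm hab hM hF

theorem lo_act (hG : Lc G) (lt : X → X → Prop) (hlt : IsStrictTotalOrder X lt)
    (hinv : ∀ (g : G) x y, lt x y → lt (g • x) (g • y)) (x : X)
    (hab : ∀ a b : G, a • x = x → b • x = x → a * b = b * a) : Md.LO G := by
  obtain ⟨P, p1, p2, p3⟩ := ec_pos hG.csa.tf hG.dep (MulAction.stabilizer G x)
    fun a ha b hb => hab a b ha hb
  have hc : ∀ a b c : G, (lt (a • x) (b • x) ∨ (a • x = b • x ∧ a⁻¹ * b ∈ P)) →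
      lt ((c * a) • x) ((c * b) • x) ∨ ((c * a) • x = (c * b) • x ∧ (c * a)⁻¹ * (c * b) ∈ P) := by
    rintro a b c (h1 | ⟨h1, h2⟩)
    · rw [mul_smul, mul_smul]
      exact Or.inl (hinv c _ _ h1)
    · refine Or.inr ⟨by rw [mul_smul, mul_smul, h1], ?_⟩
      rwa [mul_inv_rev, mul_assoc, inv_mul_cancel_left]
  refine ⟨fun a b => lt (a • x) (b • x) ∨ (a • x = b • x ∧ a⁻¹ * b ∈ P), ?_, fun a b c =>
    ⟨hc a b c, fun h1 => by simpa using hc _ _ c⁻¹ h1⟩⟩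
  refine { trichotomous := fun a b h1 h2 => ?_, irrefl := fun a => ?_, trans := ?_ }
  · have e : a • x = b • x :=
      hlt.trichotomous _ _ (fun h3 => h1 (Or.inl h3)) fun h3 => h2 (Or.inl h3)
    rcases p3 _ (cat_stab e) with h3 | h3 | h3
    · exact absurd (Or.inr ⟨e, h3⟩) h1
    · exact inv_mul_eq_one.mp h3
    · exact absurd (Or.inr ⟨e.symm, by simpa using h3⟩) h2
  · rintro (h1 | ⟨-, h1⟩)
    · exact hlt.irrefl _ h1
    · exact p1 (by simpa using h1)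
  · rintro a b c (h1 | ⟨h1, h2⟩) (h3 | ⟨h3, h4⟩)
    · exact Or.inl (hlt.trans _ _ _ h1 h3)
    · exact Or.inl (h3 ▸ h1)
    · exact Or.inl (h1 ▸ h3)
    · exact Or.inr ⟨h1.trans h3, by simpa [mul_assoc] using p2 _ h2 _ h4⟩

end Pool.Agent.Work.MP_3d425c_gt.Nz
end

-- merged part: Pool.Agent.Work.MP_3d425c_gt.Nz.EMain
section
/-! Left orders for groups with locally cyclic centralisers. -/

namespace Pool.Agent.Work.MP_3d425c_gt.Nz
open Set Pool.Agent.Work.MP_3d425c_gt.Cy Pool.Agent.Work.MP_3d425c_gt.To Subgroup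

universe u
variable {G : Type} [Group G] {X : Type u} [MulAction G X] {C : Set (ℝ → X)}
  {up : X → X → Prop} {δ : G → ℕ}

theorem no_turn [Countable G] (hG : Lc G) (hδ : Dt δ) (h : Om G C up) (nf : Nf G C Eq)
    (zc : Zc G (Eq : X → X → Prop))
    (hm : ∀ r U', Gq G C r U' → Nf G C r → Zc G r → Dp δ Eq r → ∀ x y, r x y → x = y) {g : G}
    (mn : ∀ (x : X) (a d : G), a ≠ 1 → a • x = x → d * a = a * d → δ d < δ g → d • x = x)
    {k : ℕ} (hk : g ^ k ≠ 1) {ν : X} (hL : LG C (g • ν) ν) (fx : g ^ k • ν = ν) : g • ν = ν := by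
  have c : g * g ^ k = g ^ k * g := (Commute.self_pow g k).eq
  rcases zc ν with ⟨z, hz⟩ | ⟨κ, k1, hκ⟩
  swap
  · exact (hκ g).2 (hG.csa.ct _ _ _ hk c ((hκ _).1 fx).symm)
  obtain ⟨τ, hτ, hst⟩ := gen_of_le (K := MulAction.stabilizer G ν) hz
  obtain ⟨n, hn⟩ := hst _ fx
  have t1 : τ ≠ 1 := fun e => hk (by rw [hn, e, one_zpow])
  obtain ⟨r, U, a1, a2, a3, a4, a5⟩ := fold hG h nf zc t1 hτ hst
    (hG.csa.ct _ _ _ hk c (hn ▸ (Commute.self_zpow τ n).eq)) hL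
  refine hm r U a1 a2 a3 (fun x a ha hx b hb => closure_mono (union_subset_union_right _ ?_)
    (a5 x a ha hx b hb)) _ _ a4
  rintro _ ⟨e, l, rfl⟩
  refine ⟨e, fun d hd lt => ?_⟩
  rw [hδ.conj] at lt
  rw [mn x a d ha hx hd lt]
  exact a1.eqv.refl x

theorem full_of_max [Countable G] (hG : Lc G) (hδ : Dt δ) (h : Om G C up) (nf : Nf G C Eq)
    (zc : Zc G (Eq : X → X → Prop))
    (hm : ∀ r U', Gq G C r U' → Nf G C r → Zc G r → Dp δ Eq r → ∀ x y, r x y → x = y) (g : G) :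
    ∀ (x : X) (a : G), a ≠ 1 → a • x = x → g * a = a * g → g • x = x := by
  induction hn : δ g using Nat.strong_induction_on generalizing g with
  | _ n ih =>
  intro x a ha hx e
  by_contra mv
  have mn : ∀ (x : X) (a d : G), a ≠ 1 → a • x = x → d * a = a * d → δ d < δ g → d • x = x :=
    fun x a d ha hx hd lt => ih _ (hn ▸ lt) d rfl x a ha hx hd
  have g1 : g ≠ 1 := fun q => mv (by rw [q, one_smul])
  obtain ⟨i, j, ij, q⟩ := hG.dep g a e
  have i0 : i ≠ 0 := fun z => Bg.Sf.zpow_ne_one hG.csa.tf ha (fun z' => ij ⟨z, z'⟩)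
    (by rw [← q, z, zpow_zero])
  have f1 : g ^ i ∈ MulAction.stabilizer G x := q ▸ zpow_mem (show a ∈ _ from hx) j
  have fx : g ^ i.natAbs • x = x := by
    show _ ∈ MulAction.stabilizer G x
    rw [← zpow_natCast]
    rcases Int.natAbs_eq i with z | z
    · rwa [← z]
    · rw [← neg_eq_iff_eq_neg.2 z, zpow_neg]
      exact inv_mem f1
  have hk : g ^ i.natAbs ≠ 1 := by
    rw [← zpow_natCast]
    exact Bg.Sf.zpow_ne_one hG.csa.tf g1 (by omega)
  rcases centre h (Int.natAbs_pos.2 i0) fx mv with ⟨ν, l, ne, f⟩ | ⟨ν, l, ne, f⟩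
  · exact ne (no_turn hG hδ h nf zc hm mn hk l f)
  · exact ne (no_turn hG hδ h.dual nf.dual zc
      (fun r U' a b => hm r _ a.undual b.undual) mn hk l f)

theorem lo_nz [Countable G] (hG : Lc G) (hB : Big G) (O : Cv.Ob G C up) (x₀ : X) : Md.LO G := by
  by_cases hna : ∀ a b : G, a * b = b * a
  · exact lo_act (X := PUnit.{1}) hG (fun _ _ => False)
      { trichotomous := fun _ _ _ _ => rfl, irrefl := fun _ => id, trans := fun _ _ _ k _ => k }
      (fun _ _ _ => id) PUnit.unit fun a b _ _ => hna a b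
  obtain ⟨δ, hδ⟩ := hG.depth
  obtain ⟨Y, _, C₁, U₁, j, h₁, n₁, cy, -⟩ := exists_nf hG.csa.tf O
  obtain ⟨Z, _, C', U, ne, h, nf, zc, hm⟩ := exists_max2 hG hδ h₁ n₁ fun y => .inl (cy y)
  have fu := full_of_max hG hδ h nf zc hm
  have ab := zc.ab hG
  have nva : ∀ N : Subgroup G, N.FiniteIndex → ∃ a ∈ N, ∃ b ∈ N, a * b ≠ b * a := fun N hN => by
    push Not at hna
    obtain ⟨x, y, ne⟩ := hna
    obtain ⟨i, i0, -, hi⟩ := N.exists_pow_mem_of_index_ne_zero hN.1 x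
    obtain ⟨j, j0, -, hj⟩ := N.exists_pow_mem_of_index_ne_zero hN.1 y
    have k : ∀ (x : G) (i : ℕ), x ≠ 1 → 0 < i → x ^ i ≠ 1 := fun x i a b => by
      simpa using Bg.Sf.zpow_ne_one hG.csa.tf a (m := i) (by omega)
    refine ⟨_, hi, _, hj, fun e => ne (hG.csa.ct _ _ _ (k y j (fun q => ne (by simp [q])) j0)
      (hG.csa.ct _ _ _ (k x i (fun q => ne (by simp [q])) i0) (Commute.self_pow x i).eq e.symm)
      (Commute.self_pow y j).eq)⟩
  by_cases f1 : Fi G (LG C')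
  · obtain ⟨μ, H, hH, k⟩ := f1
    obtain ⟨r, r1, r2, -⟩ := Ax.germ_ord h (Ax.fin_index h H k ab nva) nf
    exact ⟨r, r1, r2⟩
  by_cases f2 : Fi G (LG (dualC C'))
  · obtain ⟨μ, H, hH, k⟩ := f2
    obtain ⟨r, r1, r2, -⟩ := Ax.germ_ord h.dual (Ax.fin_index h.dual H k ab nva) nf.dual
    exact ⟨r, r1, r2⟩
  obtain ⟨lo, l1⟩ := classOrd3 hG hB ⟨h.lg_refl, Om.lg_symm, h.lg_trans⟩
    (fun g _ _ => h.lg_smul g) ab (fun μ κ g a b c _ => fu g μ κ a b c) f1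
  obtain ⟨hi, k1⟩ := classOrd3 hG hB ⟨h.dual.lg_refl, Om.lg_symm, h.dual.lg_trans⟩
    (fun g _ _ => h.dual.lg_smul g) ab (fun μ κ g a b c _ => fu g μ κ a b c) f2
  obtain ⟨lt, t1, t2⟩ := h.wind l1 k1
  obtain ⟨z⟩ := ne ⟨j x₀⟩
  exact lo_act hG lt t1 t2 z (ab z)

end Pool.Agent.Work.MP_3d425c_gt.Nz
end

-- merged part: Pool.Agent.Work.MP_3d425c_gt.Rv.Fold
section
/-! The fold with all invariants and control of the new stabilisers. -/

namespace Pool.Agent.Work.MP_3d425c_gt.Rv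
open Set Filter Topology Pool.Agent.Work.MP_3d425c_gt.Cy Pool.Agent.Work.MP_3d425c_gt.To

variable {G : Type} {X : Type*} [Group G] [MulAction G X] {C : Set (ℝ → X)} {up : X → X → Prop}

theorem bad_germ (hG : Hz G) (h : Om G C up)
    (z : ∀ (x : X) (a b p : G), a • x = x → b • x = x → ¬ Dep a b → p * a = a * p → p • x = x)
    {s : G → ℝ} (hs : Cf s) {a b : G} (ha : 0 < s a) (hb : 0 < s b) (hab : a * b = b * a) {y₀ : X}
    (hd : ∀ p, p * a = a * p → 0 < s p → Lt up y₀ (p • y₀)) {y : X} (k : Bad up a b y) :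
    ¬ Dep a b ∧ ∃ c ∈ C, (∀ p : G, p * a = a * p → p • c 0 = c 0) ∧
      ((∃ᶠ u in 𝓝[<] (0 : ℝ), Bad up a b (c u)) ∨ ∃ᶠ u in 𝓝[>] (0 : ℝ), Bad up a b (c u)) := by
  have a1 : a ≠ 1 := fun e => ha.ne' (e ▸ hs.one)
  have mem : ∀ p : G, p ∈ Subgroup.centralizer ({a} : Set G) ↔ p * a = a * p := fun p =>
    Subgroup.mem_centralizer_singleton_iff
  have hP : ∀ p ∈ Subgroup.centralizer ({a} : Set G), ∀ q ∈ Subgroup.centralizer ({a} : Set G),
      p * q = q * p := fun p hp q hq => hG.ct a1 ((mem p).1 hp) ((mem q).1 hq)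
  have hZ : To.Cone (Subgroup.centralizer ({a} : Set G))
      {p | p ∈ Subgroup.centralizer ({a} : Set G) ∧ 0 < s p} := by
    refine ⟨fun p hp => hp.1, fun p hp q hq => ⟨mul_mem hp.1 hq.1, ?_⟩,
      fun e => e.2.ne' hs.one, fun p hp q hq => ?_⟩
    · rw [hs.add _ _ (hP p hp.1 q hq.1)]
      exact add_pos hp.2 hq.2
    · obtain ⟨N, hN⟩ := exists_nat_gt (-s q / s p)
      refine ⟨N, mul_mem (pow_mem hp.1 N) hq, ?_⟩
      rw [hs.add _ _ (hP _ (pow_mem hp.1 N) q hq), ← zpow_natCast, hs.zpow]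
      have := (div_lt_iff₀ hp.2).1 hN
      push_cast
      linarith
  have aZ : a ∈ {p | p ∈ Subgroup.centralizer ({a} : Set G) ∧ 0 < s p} := ⟨(mem a).2 rfl, ha⟩
  have bZ : b ∈ {p | p ∈ Subgroup.centralizer ({a} : Set G) ∧ 0 < s p} :=
    ⟨(mem b).2 hab.symm, hb⟩
  refine ⟨h.bad_ind hZ aZ bZ k, ?_⟩
  obtain ⟨ν, n1, n2⟩ := h.lemB hP hZ
    (fun x u hu v _ fu fv n p hp => z x u v p fu fv n (hP p hp u hu))
    (Or.inl ⟨y₀, fun p hp => hd p ((mem p).1 hp.1) hp.2⟩) aZ bZ k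
  obtain ⟨c, hc, t, rfl⟩ := h.cover ν
  have e : (fun u => c (t + u)) 0 = c t := by simp only [add_zero]
  refine ⟨fun u => c (t + u), h.objB_shift hc t, fun p hp => ?_, ?_⟩
  · rw [e]
    exact n1 p ((mem p).2 hp)
  · have := n2 _ (h.objB_shift hc t) 0 e
    rwa [← nhdsLT_sup_nhdsGT, frequently_sup] at this

theorem full (hG : Hz G) (h : Om G C up)
    (z : ∀ (x : X) (a b p : G), a • x = x → b • x = x → ¬ Dep a b → p * a = a * p → p • x = x)
    {μ : X} {a b p : G} (hab : a * b = b * a) (k : ¬ Dep a b) (ha : LG C (a • μ) μ)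
    (hb : LG C (b • μ) μ) (hp : p * a = a * p) : LG C (p • μ) μ :=
  Ax.full h ha hb hp.symm (hG.ct (ne_one_of_not_dep k).1 hab.symm hp) fun y k1 k2 =>
    z y a b p k1 k2 k hp

theorem jump (hG : Hz G) (h : Om G C up) {s : G → ℝ} (hs : Sp s) {a : G} (ha : 0 < s a) {y : X}
    (hd : ∀ p, p * a = a * p → 0 < s p → Lt up y (p • y)) {p : G} (hp : p * a = a * p)
    (hp' : 0 < s p) {m n : X} (hl : LG C m n) (hne : m ≠ n) (hm : up m y ∨ y = m)
    (hn : up n (p • y) ∨ p • y = n) :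
    (∃ q : G, q ≠ 1 ∧ q * a = a * q ∧ q • n = n) ∧
      ∀ γ : G, γ * a = a * γ → LG C (γ • n) n → γ • n = n := by
  have a1 : a ≠ 1 := fun e => by simp [e, hs.cf.one] at ha
  have ad : ∀ u v : G, Commute u a → Commute v a → s (u * v) = s u + s v := fun u v k l =>
    hs.cf.add u v (hG.ct a1 k l)
  have e0 := hd p hp hp'
  have n1 : ¬ up m (p • y) := fun k => hne (Ax.lg_disj h hl (.inl k) hn)
  have m1 : up m y := hm.resolve_right fun k => n1 (k ▸ e0.1)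
  have m2 : up y m := (h.sep' m1 n1).1 e0.1
  have n2 : ¬ up (p • y) n := fun k =>
    n1 ((h.sep' (h.lg_up (Om.lg_symm hl) k) e0.2).1 m1)
  have lo : ∀ q : G, Commute q a → s q < 0 → up m (q • y) := fun q k l => by
    have := Ax.Nest.smul h q (hd q⁻¹ k.inv_left (by rw [hs.cf.inv]; linarith))
    rw [smul_inv_smul] at this
    exact (h.sep' m2 this.2).2 m1
  have hi : ∀ q : G, Commute q a → s p < s q → up n (q • y) := fun q k l => by
    have := Ax.Nest.smul h p (hd (p⁻¹ * q) ((Commute.inv_left hp).mul_left k)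
      (by rw [ad _ _ (Commute.inv_left hp) k, hs.cf.inv]; linarith))
    rw [mul_smul, smul_inv_smul] at this
    exact hn.elim (fun e => h.sub e n2 this.1) fun e => e ▸ this.1
  have mv : ∀ (q u : G) (x : X), up x ((q⁻¹ * u) • y) → up (q • x) (u • y) := fun q u x k => by
    simpa only [mul_smul, smul_inv_smul] using h.ups q _ _ k
  have df : ∀ u v : G, Commute u a → Commute v a → s (u⁻¹ * v) = s v - s u := fun u v k l => by
    rw [ad _ _ k.inv_left l, hs.cf.inv]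
    ring
  refine ⟨?_, fun γ k l => ?_⟩
  · obtain ⟨b, hb, nd⟩ := hs.two a ha.ne'
    have hb' : Commute b a := hb
    let f : ℤ → G := fun j => a ^ (-⌊j * s b / s a⌋) * b ^ j
    have f1 : ∀ j, Commute (f j) a := fun j =>
      ((Commute.refl a).zpow_left _).mul_left (hb'.zpow_left j)
    have f2 : ∀ j, 0 ≤ s (f j) ∧ s (f j) < s a := fun j => by
      have k1 := (le_div_iff₀ ha).1 (Int.floor_le (j * s b / s a))
      have k2 := (div_lt_iff₀ ha).1 (Int.lt_floor_add_one (j * s b / s a))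
      rw [ad _ _ ((Commute.refl a).zpow_left _) (hb'.zpow_left j), hs.cf.zpow, hs.cf.zpow]
      push_cast
      constructor <;> linarith
    by_contra k
    push Not at k
    refine Ax.jump_fin h (fun j => f j • m) (fun j => f j • n) (fun j => h.lg_smul _ hl)
      (fun j e => hne (smul_left_cancel _ e)) (fun i j e => by_contra fun ne => ?_)
      (x := a⁻¹ • y) (y := (a * p) • y) (fun j => .inl (mv _ _ _ (lo _
        ((f1 j).inv_left.mul_left (Commute.refl a).inv_left) ?_)))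
      fun j => .inl (mv _ _ _ (hi _ ((f1 j).inv_left.mul_left ((Commute.refl a).mul_left hp)) ?_))
    · refine k ((f i)⁻¹ * f j) (fun q => nd ⟨⌊j * s b / s a⌋ - ⌊i * s b / s a⌋, j - i,
        fun z => sub_ne_zero.2 (Ne.symm ne) z.2, ?_⟩) ((f1 i).inv_left.mul_left (f1 j)) ?_
      · have q' : a ^ (-⌊i * s b / s a⌋) * b ^ i = a ^ (-⌊j * s b / s a⌋) * b ^ j :=
          inv_mul_eq_one.1 q
        calc _ = a ^ ⌊j * s b / s a⌋ * (a ^ (-⌊i * s b / s a⌋) * b ^ i) * b ^ (-i) := by group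
          _ = _ := by rw [q']; group
      · rw [mul_smul, inv_smul_eq_iff]
        exact e.symm
    · rw [df _ _ (f1 j) (Commute.refl a).inv_left, hs.cf.inv]
      linarith [f2 j]
    · rw [df _ _ (f1 j) ((Commute.refl a).mul_left hp), ad _ _ (Commute.refl a) hp]
      linarith [f2 j]
  · obtain ⟨K, hK⟩ := exists_int_gt ((s p + |s γ|) / s a)
    rw [div_lt_iff₀ ha, ← hs.cf.zpow] at hK
    have c : Commute (a ^ K) a := (Commute.refl a).zpow_left K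
    refine Ax.lg_disj h l (.inl (mv _ _ _ (hi _ ((Commute.inv_left k).mul_left c) ?_)))
      (.inl (hi _ c (by linarith [abs_nonneg (s γ)])))
    rw [df _ _ k c]
    linarith [le_abs_self (s γ)]

theorem tg_dep_mul (h : Hz G) {τ p x : G} (h1 : τ ≠ 1) (k : Dep τ p) (l : Dep τ x) :
    Dep τ (p * x) := by
  have c : Commute p x := h.ct h1 (h.dep_comm k).symm (h.dep_comm l).symm
  obtain ⟨m, n, a1, a2⟩ := k
  obtain ⟨m', n', b1, b2⟩ := l
  have n0 : n ≠ 0 := fun e => by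
    rw [e, zpow_zero] at a2
    exact h.zne h1 (fun k => a1 ⟨k, e⟩) a2
  have n1 : n' ≠ 0 := fun e => by
    rw [e, zpow_zero] at b2
    exact h.zne h1 (fun k => b1 ⟨k, e⟩) b2
  refine ⟨m * n' + m' * n, n * n', fun e => mul_ne_zero n0 n1 e.2, ?_⟩
  rw [c.mul_zpow, zpow_add, zpow_mul, zpow_mul, a2, b2, ← zpow_mul, ← zpow_mul, mul_comm n' n]

theorem generic5 [Countable G] {O : G → II → II → Prop} (hG : Hz G) (hO : Grpd O)
    (hZ : ∀ a b p s, O a s s → O b s s → ¬ Dep a b → p * a = a * p → O p s s)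
    {Γ : Subgroup G} {τ : G} (hτ : τ ∈ Γ) (h1 : τ ≠ 1) (hc : ∀ γ ∈ Γ, γ * τ = τ * γ)
    {θ : G → ℝ} (hadd : ∀ a ∈ Γ, ∀ b ∈ Γ, θ (a * b) = θ a + θ b)
    (hinj : ∀ a ∈ Γ, θ a = 0 → a = 1) (hpos : 0 < θ τ) (T : II ≃o II)
    (hT : ∀ s, s < 1 → O τ s (T s))
    (hfull : (∀ a ∈ Γ, ∀ b ∈ Γ, Dep a b) ∨ ∀ p, p * τ = τ * p → p ∈ Γ) :
    ∃ ρ, To.Mv Γ τ T θ ρ ∧ (∀ s a b, To.Rl O Γ ρ a s s → To.Rl O Γ ρ b s s → a * b = b * a) ∧
      (∀ a : G, a ≠ 1 → NI {s | To.Rl O Γ ρ a s s}) ∧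
      (∀ s κ, κ ≠ 1 → O κ s s → (∀ a, To.Rl O Γ ρ a s s → O a s s) ∨ ∃ c u, T u = u ∧ O c s u ∧
        ∀ a, To.Rl O Γ ρ a s s → ∃ p ∈ Γ, ∃ x, O x u u ∧ c * a * c⁻¹ = p * x) ∧
      (∀ s, s < 1 → (∃ z, To.Rl O Γ ρ z s s ∧ ∀ a, To.Rl O Γ ρ a s s → ∃ i : ℤ, a = z ^ i) ∨
        ∃ c u, To.Rl O Γ ρ c s u ∧ ((∀ a, To.Rl O Γ ρ a s s → O (c * a * c⁻¹) u u) ∨ (T u = u ∧
          ∀ a, To.Rl O Γ ρ a s s → ∃ p ∈ Γ, ∃ x, O x u u ∧ c * a * c⁻¹ = p * x))) ∧
      ∀ s a b, To.Rl O Γ ρ a s s → To.Rl O Γ ρ b s s → ¬ Dep a b → ∃ c s', To.Rl O Γ ρ c s s' ∧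
        ((∀ p, p * (c * a * c⁻¹) = c * a * c⁻¹ * p → O p s' s') ∨
          (T s' = s' ∧ c * a * c⁻¹ * τ = τ * (c * a * c⁻¹) ∧ ∀ p, p * τ = τ * p → p ∈ Γ)) := by
  classical
  obtain ⟨ρ0, r1, r2, r3, r4⟩ := Tg.fl_action (A := Γ) T (θ := fun p => θ p)
    (fun a b => hadd a a.2 b b.2) (τ := ⟨τ, hτ⟩) hpos
  have M : Tg.Mv O Γ.subtype ⟨τ, hτ⟩ T ρ0 := ⟨h1, hT, r1, r2, fun p t h =>
    (r3 p t h).imp_left fun k => Subtype.ext (hinj p p.2 k)⟩
  have C : Tg.Cs Γ.subtype ⟨τ, hτ⟩ :=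
    ⟨fun p => hc p p.2, fun a c ha hc => hG.ct h1 ha hc, fun γ h => hG.mn τ γ h1 h⟩
  obtain ⟨φ, hφ, st, nf, old, all⟩ := Nz.St.generic3 M C hO
  have M' := M.cja hφ
  obtain ⟨ρ, e⟩ : ∃ ρ : G → II ≃o II, ∀ p : Γ, ρ p = Tg.cja φ ρ0 p :=
    ⟨fun g => if h : g ∈ Γ then Tg.cja φ ρ0 ⟨g, h⟩ else 1, fun p => dif_pos p.2⟩
  have eT : ∀ t, T (φ⁻¹ t) = φ⁻¹ (T t) := fun t =>
    congrArg (fun f : II ≃o II => f t) (Commute.inv_left hφ).eq.symm
  have cm : ∀ (p : Γ) x u, O x u u → T u = u → p * x * τ = τ * (p * x) := fun p x u hx hu => by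
    have k := hT u (hO.lt1 _ _ _ hx)
    rw [hu] at k
    exact Commute.mul_left (hc p p.2) (hO.ab _ _ _ hx k)
  have cv : ∀ {a : G} {u}, (∃ (p : Γ) (x : G), O x u u ∧ a = Γ.subtype p * x) →
      ∃ p ∈ Γ, ∃ x, O x u u ∧ a = p * x := fun ⟨p, k⟩ => ⟨p, p.2, k⟩
  refine ⟨ρ, ⟨fun a ha b hb => ?_, (e ⟨τ, hτ⟩).trans M'.eq, fun a ha h0 t => ?_⟩,
    fun s a b ha hb => ?_, fun a ha => ?_, fun s κ n k => ?_, fun s hs => ?_,
    fun s a b ha hb hd => ?_⟩
  · rw [e ⟨a, ha⟩, e ⟨b, hb⟩, ← map_mul]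
    exact e (⟨a, ha⟩ * ⟨b, hb⟩)
  · rw [e ⟨a, ha⟩]
    refine ⟨M'.fix _ t, fun k => ?_, fun k => ?_⟩
    · have := φ.strictMono ((r4 ⟨a, ha⟩ h0 (φ⁻¹ t)).1 (by rw [eT]; exact (φ⁻¹).strictMono k))
      rwa [RelIso.apply_inv_self] at this
    · have := φ.strictMono ((r4 ⟨a, ha⟩ h0 (φ⁻¹ t)).2 (by rw [eT]; exact (φ⁻¹).strictMono k))
      rwa [RelIso.apply_inv_self] at this
  · rcases st s a b ((tg_rl_sub e).1 ha) ((tg_rl_sub e).1 hb) with k | ⟨c, u, -, p, q, x, y, hx, hy,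
      k1, k2, k⟩
    · exact k.comm
    · have : c * a * c⁻¹ * (c * b * c⁻¹) = c * b * c⁻¹ * (c * a * c⁻¹) := by
        rw [k1, k2]
        rcases k with k | ⟨rfl, rfl⟩
        · exact hG.ct h1 (cm p x u hx k) (cm q y u hy k)
        · simpa using hO.ab _ _ _ hx hy
      calc a * b = c⁻¹ * (c * a * c⁻¹ * (c * b * c⁻¹)) * c := by group
        _ = b * a := by rw [this]; group
  · simpa only [tg_rl_sub e] using nf a ha
  · simp only [tg_rl_sub e]
    exact (old s κ n k).imp_right fun ⟨c, u, a1, a2, l⟩ => ⟨c, u, a1, a2, fun a m => cv (l a m)⟩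
  · simp only [tg_rl_sub e]
    exact (all s hs).imp_right fun ⟨c, u, a1, l⟩ =>
      ⟨c, u, a1, l.imp_right fun l => ⟨l.1, fun a m => cv (l.2 a m)⟩⟩
  · rcases st s a b ((tg_rl_sub e).1 ha) ((tg_rl_sub e).1 hb) with k | ⟨c, u, hcu, p, q, x, y, hx, hy,
      k1, k2, k⟩
    · exact absurd (tg_dep_cyc k) hd
    refine ⟨c, u, (tg_rl_sub e).2 hcu, ?_⟩
    rw [← dep_conj c, k2] at hd
    rw [k1] at hd ⊢
    rcases k with k | ⟨rfl, rfl⟩
    · have c1 := cm p x u hx k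
      rcases hfull with f | f
      · have kτ := hT u (hO.lt1 _ _ _ hx)
        rw [k] at kτ
        have key : ∀ z, O z u u → ¬ Dep τ z → ∀ p', p' * (Γ.subtype p * x) =
            Γ.subtype p * x * p' → O p' u u := fun z hz hn p' hp =>
          hZ τ z p' u kτ hz hn (hG.ct (ne_one_of_not_dep hd).1 hp c1.symm)
        by_cases dx : Dep τ x
        · by_cases dy : Dep τ y
          · exact absurd (hG.dep_trans h1 (tg_dep_mul hG h1 (f τ hτ p p.2) dx).symm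
              (tg_dep_mul hG h1 (f τ hτ q q.2) dy)) hd
          · exact Or.inl (key y hy dy)
        · exact Or.inl (key x hx dx)
      · exact Or.inr ⟨k, c1, f⟩
    · rw [map_one, one_mul, one_mul] at hd
      rw [map_one, one_mul]
      exact Or.inl fun p hp => hZ x y p u hx hy hd hp

variable {s S : G → ℝ} {β : G → X}

theorem foldG [Countable G] (hG : Hz G) (hs : Sp s) (hS : Sj S) (h : Ob C up s S β) {μ : X}
    {τ : G} (h1 : τ ≠ 1) (hfix : τ • μ = μ) (hst : ∀ γ : G, γ • μ = μ → ∃ n : ℤ, γ = τ ^ n)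
    {Γ : Subgroup G} (hτ : τ ∈ Γ) (mem : ∀ γ ∈ Γ, γ * τ = τ * γ ∧ LG C (γ • μ) μ)
    (hfull : (∀ a ∈ Γ, ∀ b ∈ Γ, Dep a b) ∨ ∀ p, p * τ = τ * p → p ∈ Γ) :
    ∃ r U, Good G C r U ∧ Ex s S β r U ∧ (∀ γ ∈ Γ, r (γ • μ) μ) ∧
      (∀ (x : X) (a : G), a ≠ 1 → a • x = x → (∀ b : G, r (b • x) x → b • x = x) ∨
        ∃ g : G, (g * τ * g⁻¹) • x = x ∧
          ∀ b : G, r (b • x) x → ∃ γ ∈ Γ, ∃ y : G, y • x = x ∧ b = g * γ * g⁻¹ * y) ∧
      ∀ x : X, (∃ z : G, ∀ b : G, r (b • x) x → b ∈ Subgroup.zpowers z) ∨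
        ∃ (x₂ : X) (a : G), r x x₂ ∧ a ≠ 1 ∧ a • x₂ = x₂ := by
  obtain ⟨A, hA, rfl, T, hT⟩ := h.om.armI hfix
  have cm : ∀ a ∈ Γ, ∀ b ∈ Γ, a * b = b * a := fun a ha b hb =>
    hG.ct h1 (mem a ha).1 (mem b hb).1
  have St0 : S τ ≠ 0 := fun e => h1 (hS.inj τ e)
  obtain ⟨ρ, M, hab, hnf, old, all, hz⟩ := generic5 (O := rfO A) hG (h.om.grpd h.good hA)
    (fun a b p t ha hb k hp => ⟨ha.1, ha.1, h.ex.z _ a b p ha.2.2 hb.2.2 k hp⟩) hτ h1
    (fun γ k => (mem γ k).1) (θ := fun a => S a * S τ)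
    (fun a ha b hb => by rw [hS.cf.add a b (cm a ha b hb), add_mul])
    (fun a _ e => hS.inj a ((mul_eq_zero.1 e).resolve_right St0)) (mul_self_pos.2 St0) T
    (fun t ht => ⟨ht, iso_lt_one _ ht, hT t ht⟩) hfull
  have F := rf_pf h.om hA M hτ (fun γ k => (mem γ k).2) hT hst
  have Q : Gq G C (rfR A Γ ρ) fun x y => ∃ x', rfR A Γ ρ x x' ∧ up x' y := F.gq
  have off : ∀ {x y : X}, rfR A Γ ρ x y → (¬ ∃ (g : G) (t : II), t < 1 ∧ y = g • A (io t)) →
      x = y := fun k l => fr_off k l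
  have fixT : ∀ γ ∈ Γ, ∀ t, T t = t → ρ γ t = t := fun γ hγ t e => by
    rcases lt_trichotomy (S γ * S τ) 0 with k | k | k
    · exact (rf_neg M hγ (by rw [hS.cf.inv]; linarith) t).1 e
    · rw [hS.inj γ ((mul_eq_zero.1 k).resolve_right St0), rf_one M]
      rfl
    · exact (M.sgn γ hγ k t).1 e
  have good : Good G C (rfR A Γ ρ) fun x y => ∃ x', rfR A Γ ρ x x' ∧ up x' y := by
    refine ⟨Q.eqv, Q.rsm, Q.opn, Q.upl, Q.upr, Q.upc, Q.upk, Q.ups, fun x γ δ k1 k2 => ?_,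
      F.nf h.good.nf fun γ hγ p u v huv => ?_⟩
    · by_cases hx : ∃ (g : G) (t : II), t < 1 ∧ x = g • A (io t)
      · obtain ⟨b, t, ht, rfl⟩ := hx
        have := hab t _ _ (rf_loop ht k1) (rf_loop ht k2)
        calc γ * δ = b * (b⁻¹ * γ * b * (b⁻¹ * δ * b)) * b⁻¹ := by group
          _ = δ * γ := by rw [this]; group
      · exact h.good.ab x γ δ (off k1 hx) (off k2 hx)
    · obtain ⟨w, w1, w2⟩ := exists_between huv
      obtain ⟨t, ht, hn⟩ := hnf (p⁻¹ * γ * p) (fun e => hγ (by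
        calc γ = p * (p⁻¹ * γ * p) * p⁻¹ := by group
          _ = 1 := by rw [e]; group)) u w w1
      exact ⟨t, ⟨ht.1, ht.2.trans w2.le⟩, fun k =>
        hn (rf_loop ((ht.2.trans_lt w2).trans_le unitInterval.le_one') k)⟩
  have rep : ∀ x (a b : G), rfR A Γ ρ (a • x) x → rfR A Γ ρ (b • x) x → ¬ Dep a b →
      ∃ x₀, rfR A Γ ρ x x₀ ∧ ((∀ p : G, p * a = a * p → p • x₀ = x₀) ∨
        ∃ (g : G) (t : II), t < 1 ∧ x₀ = g • A (io t) ∧ T t = t ∧
          ∀ p : G, p * a = a * p → g⁻¹ * p * g ∈ Γ) := by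
    intro x a b ka kb n
    by_cases hx : ∃ (g : G) (t : II), t < 1 ∧ x = g • A (io t)
    swap
    · exact ⟨x, .refl, Or.inl fun p hp => h.ex.z x a b p (off ka hx) (off kb hx) n hp⟩
    obtain ⟨g, t, ht, rfl⟩ := hx
    have n' : ¬ Dep (g⁻¹ * a * g) (g⁻¹ * b * g) := fun k => n (by simpa [mul_assoc] using k.conj g)
    obtain ⟨c, t', hc, k⟩ := hz t _ _ (rf_loop ht ka) (rf_loop ht kb) n'
    obtain ⟨ht', bk⟩ := rf_back hc
    have cj : ∀ p : G, p * a = a * p → (g * c⁻¹)⁻¹ * p * (g * c⁻¹) * (c * (g⁻¹ * a * g) * c⁻¹) =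
        c * (g⁻¹ * a * g) * c⁻¹ * ((g * c⁻¹)⁻¹ * p * (g * c⁻¹)) := fun p hp => by
      calc _ = c * g⁻¹ * (p * a) * g * c⁻¹ := by group
        _ = _ := by rw [hp]; group
    refine ⟨(g * c⁻¹) • A (io t'), by simpa only [mul_smul, inv_smul_smul] using bk (g * c⁻¹), ?_⟩
    rcases k with k | ⟨k1, k2, k3⟩
    · refine Or.inl fun p hp => ?_
      have := (k _ (cj p hp)).2.2
      rwa [mul_smul, mul_smul, inv_smul_eq_iff] at this
    · refine Or.inr ⟨_, t', ht', rfl, k1, fun p hp => k3 _ (hG.ct (fun e => ?_) (cj p hp) k2.symm)⟩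
      refine (ne_one_of_not_dep n').1 ?_
      calc g⁻¹ * a * g = c⁻¹ * (c * (g⁻¹ * a * g) * c⁻¹) * c := by group
        _ = 1 := by rw [e]; group
  have exz : ∀ x (a b p : G), rfR A Γ ρ (a • x) x → rfR A Γ ρ (b • x) x → ¬ Dep a b →
      p * a = a * p → rfR A Γ ρ (p • x) x := by
    intro x a b p ka kb n hp
    obtain ⟨x₀, k0, k⟩ := rep x a b ka kb n
    refine Q.eqv.trans (Q.rsm p _ _ k0) (Q.eqv.trans ?_ (Q.eqv.symm k0))
    rcases k with k | ⟨g, t, ht, rfl, k1, k2⟩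
    · rw [k p hp]
      exact .refl
    · have := rf_mv (A := A) (ρ := ρ) (k2 p hp) g ht
      rwa [fixT _ (k2 p hp) t k1, mul_smul, mul_smul, smul_inv_smul] at this
  have exd : ∀ a p : G, 0 < s a → p * a = a * p → 0 < s p →
      Lt (fun x y => ∃ x', rfR A Γ ρ x x' ∧ up x' y) (β a) (p • β a) := by
    intro a p ha hp hp'
    have l := h.ex.d a p ha hp hp'
    refine ⟨⟨_, .refl, l.1⟩, ?_⟩
    rintro ⟨x, k1, k2⟩
    rcases F.sep_of_fr (F.fr_symm k1) with e | ⟨m, n, hE, ne, b1, b2, e, he, s₁, s₂, hs', e1, e2⟩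
    · exact l.2 (e ▸ k2)
    have hm : up (m • A 0) (β a) := b1.elim (fun b => h.om.sub b b2 k2) fun b => b ▸ k2
    have hn := (F.seg_up he hs').1
    rw [e1, e2] at hn
    have hl := F.lg m n hE
    obtain ⟨⟨q, q1, q2, q3⟩, k⟩ := jump hG h.om hs ha (fun p => h.ex.d a p ha) hp hp' hl ne
      (Or.inl hm) hn
    have t1 : n * τ * n⁻¹ ≠ 1 := fun e => h1 (by
      calc τ = n⁻¹ * (n * τ * n⁻¹) * n := by group
        _ = 1 := by rw [e]; group)
    have t2 := h.good.ab (n • A 0) (n * τ * n⁻¹) q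
      (by rw [mul_smul, mul_smul, inv_smul_smul, hfix]) q3
    have t3 : m * n⁻¹ * (n * τ * n⁻¹) = n * τ * n⁻¹ * (m * n⁻¹) := by
      calc _ = n * (n⁻¹ * m * τ) * n⁻¹ := by group
        _ = _ := by rw [(mem _ hE).1]; group
    have e3 : (m * n⁻¹) • n • A 0 = m • A 0 := by rw [mul_smul, inv_smul_smul]
    exact ne (e3 ▸ k (m * n⁻¹) (hG.ct t1 t3 (hG.ct q1 q2.symm t2)) (e3.symm ▸ hl))
  have lp : ∀ u, u < 1 → T u = u → rfO A τ u u := fun u hu e => ⟨hu, hu, by rw [hT u hu, e]⟩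
  refine ⟨_, _, good, ⟨exz, exd, fun a b x ha hb hab => ?_⟩, fun γ hγ => ?_, fun x a n ha => ?_,
    fun x => ?_⟩
  · obtain ⟨Y, _, π, C', U, h', -, hsj, hr, πs, πc, hu⟩ := exists_quot2 h.om good
    have nb : ∀ y, ¬ Bad up a b y := fun y k =>
      k.elim (fun k => (h.ex.sg a b y ha hb hab).1 (k.1.imp_left Eq.symm) k.2)
        fun k => (h.ex.sg a b y ha hb hab).2 k.1 k.2
    have lt : ∀ x y, Lt U (π x) (π y) ↔ Lt (fun x y => ∃ x', rfR A Γ ρ x x' ∧ up x' y) x y :=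
      fun x y => and_congr (hu x y) (not_congr (hu y x))
    suffices k : ¬ Bad U a b (π x) by
      simp only [Bad, Le, ← πs, lt, hr] at k
      exact ⟨fun k1 k2 => k (Or.inl ⟨k1.imp_left Q.eqv.symm, k2⟩), fun k1 k2 => k (Or.inr ⟨k1, k2⟩)⟩
    intro k
    obtain ⟨n, c, hc, f, fr⟩ := bad_germ hG h' (fun y a b p ka kb n hp => by
      obtain ⟨x, rfl⟩ := hsj y
      rw [← πs, hr] at ka kb ⊢
      exact exz x a b p ka kb n hp) hs.cf ha.1 hb.1 hab (y₀ := π (β a)) (fun p hp hp' => by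
      rw [← πs, lt]
      exact exd a p ha.1 hp hp') k
    have fr' : ∃ᶠ u in 𝓝[≠] (0 : ℝ), Bad U a b (c u) :=
      fr.elim (fun k => k.filter_mono (nhdsWithin_mono _ fun _ l => ne_of_lt l))
        fun k => k.filter_mono (nhdsWithin_mono _ fun _ l => ne_of_gt l)
    obtain ⟨ν, hν⟩ := hsj (c 0)
    have fa := f a rfl
    have fb := f b hab.symm
    rw [← hν, ← πs, hr] at fa fb
    obtain ⟨x₀, k0, k⟩ := rep ν a b fa fb n
    obtain ⟨e, he, t, e0, ev⟩ : ∃ e ∈ C, ∃ t, e t = x₀ ∧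
        ∀ᶠ u in 𝓝[≠] t, ¬ Bad U a b (π (e u)) := by
      rcases k with k | ⟨g, t, ht, rfl, -, k⟩
      · obtain ⟨e, he, t, rfl⟩ := h.om.cover x₀
        exact ⟨e, he, t, rfl, germ_fix h.om h' πs πc he nb (k a rfl) (k b hab.symm)⟩
      have ka := k a rfl
      have kb := k b hab.symm
      have lg : ∀ p : G, g⁻¹ * p * g ∈ Γ → LG C (p • g • A 0) (g • A 0) := fun p k => by
        simpa only [mul_smul, smul_inv_smul] using h.om.lg_smul g (mem _ k).2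
      have mv : ∀ p : G, g⁻¹ * p * g ∈ Γ → ∀ t < 1, ρ (g⁻¹ * p * g) t < 1 ∧
          π (p • g • A (io t)) = π (g • A (io (ρ (g⁻¹ * p * g) t))) := fun p k t ht =>
        ⟨iso_lt_one _ ht, (hr _ _).2 (by
          simpa only [mul_smul, smul_inv_smul] using rf_mv (A := A) (ρ := ρ) k g ht)⟩
      have sc : ∀ p : G, S (g⁻¹ * p * g) = S p := fun p => by simpa using hS.cf.conj g⁻¹ p
      refine ⟨_, h.om.smul g A hA, io t, rfl, germ_arm h.om h' πs πc (h.om.smul g A hA) nb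
        (lg a ka) (lg b kb) (mv a ka) (mv b kb) (fun t _ => ?_) (io_nonneg t)⟩
      rcases lt_or_gt_of_ne St0 with k | k
      · obtain ⟨a1, a2, a3⟩ := rf_neg M ka (by
          rw [hS.cf.inv, sc]; nlinarith [ha.2]) t
        obtain ⟨b1, b2, b3⟩ := rf_neg M kb (by
          rw [hS.cf.inv, sc]; nlinarith [hb.2]) t
        rcases lt_trichotomy (T t) t with l | l | l
        · exact fun q => q.elim (fun q => lt_asymm q.2 (b3 l)) fun q => (a3 l).not_ge q.1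
        · exact fun q => q.elim (fun q => q.2.ne (b1 l)) fun q => q.2.ne' (b1 l)
        · exact fun q => q.elim (fun q => (a2 l).not_ge q.1) fun q => lt_asymm q.2 (b2 l)
      · obtain ⟨a1, a2, a3⟩ := M.sgn _ ka (by rw [sc]; exact mul_pos ha.2 k) t
        obtain ⟨b1, b2, b3⟩ := M.sgn _ kb (by rw [sc]; exact mul_pos hb.2 k) t
        rcases lt_trichotomy (T t) t with l | l | l
        · exact fun q => q.elim (fun q => (a3 l).not_ge q.1) fun q => lt_asymm q.2 (b3 l)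
        · exact fun q => q.elim (fun q => q.2.ne (b1 l)) fun q => q.2.ne' (b1 l)
        · exact fun q => q.elim (fun q => lt_asymm q.2 (b2 l)) fun q => (a2 l).not_ge q.1
    have e1 : c 0 = π (e t) := by rw [← hν, e0, hr]; exact k0
    refine fr' ?_
    filter_upwards [mem_nhdsWithin_of_mem_nhds
      (h'.near hc (πc e he) e1 (eventually_nhdsWithin_iff.1 ev)), self_mem_nhdsWithin]
      with u ⟨v, v1, v2⟩ hu0
    rw [v2]
    refine v1 fun l => hu0 (h'.inj hc ?_)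
    rw [v2, e1, show v = t from l]
  · have := rf_mv (A := A) (ρ := ρ) hγ 1 (zero_lt_one' II)
    rwa [show ρ γ 0 = 0 from (ρ γ).map_bot, io_zero, one_smul, one_smul] at this
  · by_cases hx : ∃ (g : G) (t : II), t < 1 ∧ x = g • A (io t)
    swap
    · exact .inl fun b k => off k hx
    obtain ⟨g, t, ht, rfl⟩ := hx
    rcases old t (g⁻¹ * a * g) (by simpa using Nz.cj_ne g⁻¹ n)
      ⟨ht, ht, by rw [mul_smul, mul_smul, ha, inv_smul_smul]⟩ with k | ⟨c, u, e, hcu, k⟩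
    · refine .inl fun b l => ?_
      have := (k _ (rf_loop ht l)).2.2
      rwa [mul_smul, mul_smul, inv_smul_eq_iff] at this
    have e1 : g • A (io t) = (g * c⁻¹) • A (io u) := by rw [mul_smul, ← hcu.2.2, inv_smul_smul]
    refine .inr ⟨g * c⁻¹, ?_, fun b l => ?_⟩
    · rw [e1, mul_smul, mul_smul, inv_smul_smul, (lp u hcu.2.1 e).2.2]
    · obtain ⟨p, hp, y, hy, e2⟩ := k _ (rf_loop ht l)
      refine ⟨p, hp, g * c⁻¹ * y * (g * c⁻¹)⁻¹, ?_, ?_⟩
      · rw [e1, mul_smul, mul_smul, inv_smul_smul, hy.2.2]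
      · calc b = g * c⁻¹ * (c * (g⁻¹ * b * g) * c⁻¹) * (g * c⁻¹)⁻¹ := by group
          _ = _ := by rw [e2]; group
  · by_cases tr : ∀ b : G, rfR A Γ ρ (b • x) x → b = 1
    · exact .inl ⟨1, fun b k => by rw [tr b k]; exact one_mem _⟩
    push Not at tr
    obtain ⟨a, ha, n⟩ := tr
    by_cases hx : ∃ (g : G) (t : II), t < 1 ∧ x = g • A (io t)
    swap
    · exact .inr ⟨x, a, .refl, n, off ha hx⟩
    obtain ⟨g, t, ht, rfl⟩ := hx
    rcases all t ht with ⟨z, -, k⟩ | ⟨c, u, hcu, k⟩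
    · refine .inl ⟨g * z * g⁻¹, fun b l => ?_⟩
      obtain ⟨i, hi⟩ := k _ (rf_loop ht l)
      exact ⟨i, by simp only [conj_zpow, ← hi]; group⟩
    obtain ⟨hu, bk⟩ := rf_back hcu
    obtain ⟨w, w1, w2⟩ : ∃ w : G, w ≠ 1 ∧ rfO A w u u := by
      rcases k with k | ⟨e, -⟩
      · exact ⟨_, Nz.cj_ne c (by simpa using Nz.cj_ne g⁻¹ n), k _ (rf_loop ht ha)⟩
      · exact ⟨τ, h1, lp u hu e⟩
    refine .inr ⟨(g * c⁻¹) • A (io u), g * c⁻¹ * w * (g * c⁻¹)⁻¹,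
      by simpa only [mul_smul, inv_smul_smul] using bk (g * c⁻¹), Nz.cj_ne _ w1, ?_⟩
    rw [mul_smul, mul_smul, inv_smul_smul, w2.2.2]

end Pool.Agent.Work.MP_3d425c_gt.Rv
end

-- merged part: Pool.Agent.Work.MP_3d425c_gt.Rv.Zorn
section
/-! A quotient that is maximal for the depth order and keeps all invariants. -/

namespace Pool.Agent.Work.MP_3d425c_gt.Rv
open Set Pool.Agent.Work.MP_3d425c_gt.Cy Pool.Agent.Work.MP_3d425c_gt.To Subgroup
  Pool.Agent.Work.MP_3d425c_gt.Nz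

universe u
variable {G : Type} [Group G] {X : Type u} [MulAction G X] {C : Set (ℝ → X)}
  {up : X → X → Prop} {δ : G → ℕ} {r r' r'' : X → X → Prop} {s S : G → ℝ} {β : G → X}

/-- Stabilisers of rank one grow only by elements of the least missing depth. -/
def Dq (δ : G → ℕ) (r r' : X → X → Prop) : Prop :=
  ∀ (x : X) (a : G), a ≠ 1 → ¬ Two a → r (a • x) x → ∀ b : G, r' (b • x) x →
    b ∈ closure ({c : G | r (c • x) x} ∪
      {c | c * a = a * c ∧ ∀ d : G, d * a = a * d → δ d < δ c → r' (d • x) x})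

theorem Dq.trans (h : Dq δ r r') (h' : Dq δ r' r'') (l : r ≤ r') (l' : r' ≤ r'') : Dq δ r r'' :=
  fun x a ha t k b hb => (closure_le _).2 (union_subset (fun c hc => dp_mono l' _ x a
    (h x a ha t k c hc)) fun _ hc => Subgroup.subset_closure (.inr hc))
      (h' x a ha t (l _ _ k) b hb)

/-- Stabilisers inside a lattice. -/
theorem zc_two (hG : Hz G) {U : X → X → Prop} (g : Good G C r U) (e : Ex s S β r U) {x : X} {a : G}
    (t : Two a) (k : r (a • x) x) : (∃ z : G, ∀ b : G, r (b • x) x → b ∈ zpowers z) ∨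
      ∃ κ : G, κ ≠ 1 ∧ ∀ b : G, r (b • x) x ↔ b * κ = κ * b := by
  by_cases d : ∀ b ∈ clsH g.eqv g.rsm x, ∀ c ∈ clsH g.eqv g.rsm x, Dep b c
  · obtain ⟨τ, -, hτ⟩ := hG.cyc _ d k t
    exact .inl ⟨τ, fun b hb => (hτ b hb).imp fun _ q => q.symm⟩
  push Not at d
  obtain ⟨b, hb, c, hc, n⟩ := d
  exact .inr ⟨b, (ne_one_of_not_dep n).1, fun p => ⟨fun q => g.ab x p b q hb, e.z x b c p hb hc n⟩⟩

theorem Dq.zc (hG : Hz G) (hδ : Dt δ) (h : Dq δ r r') (l : r ≤ r') (z : Zc G r) {x : X} {a : G}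
    (ha : a ≠ 1) (t2 : ¬ Two a) (k : r (a • x) x)
    (ab : ∀ b c : G, r' (b • x) x → r' (c • x) x → b * c = c * b) :
    (∃ z : G, ∀ b : G, r' (b • x) x → b ∈ zpowers z) ∨
      ∃ κ : G, κ ≠ 1 ∧ ∀ b : G, r' (b • x) x ↔ b * κ = κ * b := by
  rcases z x with ⟨t, ht⟩ | ⟨κ, k1, hκ⟩
  swap
  · exact .inr ⟨κ, k1, fun b => ⟨fun e => ab _ _ e (l _ _ ((hκ κ).2 rfl)),
      fun e => l _ _ ((hκ b).2 e)⟩⟩
  by_cases f : ∀ d : G, d * a = a * d → r' (d • x) x
  · exact .inr ⟨a, ha, fun b => ⟨fun e => ab _ _ e (l _ _ k), f b⟩⟩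
  push Not at f
  obtain ⟨d, d1, d2⟩ := f
  obtain ⟨n, rfl⟩ := ht a k
  obtain ⟨w, hw⟩ := hG.fin ha t2 ((hδ.fin _ ha (δ d)).insert t) (by
    rintro _ (rfl | e)
    exacts [(Commute.self_zpow _ n).eq, e.1])
  refine .inl ⟨w, fun b hb => hw b ((closure_le _).2 (union_subset (fun c hc => ?_) fun c hc => ?_)
    (h x _ ha t2 k b hb))⟩
  · exact zpowers_le.2 (subset_closure (mem_insert _ _)) (ht c hc)
  · exact subset_closure (.inr ⟨hc.1, not_lt.1 fun e => d2 (hc.2 d d1 e)⟩)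

theorem exists_max3 (hG : Hz G) (hδ : Dt δ) (h : Ob C up s S β) (zc : Zc G (Eq : X → X → Prop)) :
    ∃ (Y : Type u) (_ : MulAction G Y) (C' : Set (ℝ → Y)) (U : Y → Y → Prop) (β' : G → Y),
      Ob C' U s S β' ∧ Zc G (Eq : Y → Y → Prop) ∧ ∀ r U', Good G C' r U' → Ex s S β' r U' →
        Zc G r → Dq δ Eq r → ∀ x y, r x y → x = y := by
  have : Nonempty {m : X → X → Prop // (∃ U, Good G C m U ∧ Ex s S β m U) ∧ Zc G m} :=
    ⟨⟨Eq, ⟨up, h.good, h.ex⟩, zc⟩⟩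
  obtain ⟨⟨m, ⟨U, m1, m2⟩, m3⟩, hm⟩ := exists_maximal_of_nonempty_chains_bounded
    (α := {m : X → X → Prop // (∃ U, Good G C m U ∧ Ex s S β m U) ∧ Zc G m})
    (r := fun a b => a.1 ≤ b.1 ∧ Dq δ a.1 b.1) (fun K hS ⟨k₀, hs⟩ => by
      have ch : IsChain (· ≤ ·) (Subtype.val '' K) := by
        rintro _ ⟨p, hp, rfl⟩ _ ⟨q, hq, rfl⟩ e
        exact (hS hp hq fun k => e (congrArg _ k)).imp And.left And.left
      have gq : ∀ r ∈ Subtype.val '' K, ∃ U, Good G C r U ∧ Ex s S β r U := by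
        rintro _ ⟨p, -, rfl⟩
        exact p.2.1
      choose! U hU hE using gq
      have ne : (Subtype.val '' K).Nonempty := ⟨_, mem_image_of_mem _ hs⟩
      have hq := fun r a => gq_of_good (hU r a)
      have ub : ∀ t ∈ K, t.1 ≤ unR (Subtype.val '' K) ∧ Dq δ t.1 (unR (Subtype.val '' K)) :=
        fun t ht => ⟨fun x y k => ⟨_, ⟨t, ht, rfl⟩, k⟩,
          fun x a ha t2 k b ⟨_, ⟨q, hq, rfl⟩, l⟩ => by
          rcases eq_or_ne t q with rfl | e
          · exact subset_closure (.inl l)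
          rcases hS ht hq e with e | e
          · exact dp_mono (fun _ _ c => ⟨_, ⟨q, hq, rfl⟩, c⟩) _ x a (e.2 x a ha t2 k b l)
          · exact subset_closure (.inl (e.1 _ _ l))⟩
      have g := rz_good (gq_chain ne ch hq) (fun x g k ⟨r1, a1, k1⟩ ⟨r2, a2, k2⟩ =>
        let ⟨m, e, p1, p2⟩ := chain_max ch a1 a2
        (hU m e).ab x g k (p1 _ _ k1) (p2 _ _ k2))
        (nf_chain h.om.smul ch hq fun r a => (hU r a).nf)
      have ex := rz_ex_chain h.om ne ch hq hE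
      refine ⟨⟨_, ⟨_, g, ex⟩, fun x => ?_⟩, ub⟩
      by_cases k : ∃ a : G, a ≠ 1 ∧ unR (Subtype.val '' K) (a • x) x
      · obtain ⟨a, ha, l⟩ := k
        by_cases t : Two a
        · exact zc_two hG g ex t l
        obtain ⟨_, ⟨q, hq, rfl⟩, l⟩ := l
        exact (ub q hq).2.zc hG hδ (ub q hq).1 q.2.2 ha t l (g.ab x)
      · exact .inl ⟨1, fun a l => by
          rw [(by_contra fun n => k ⟨a, n, l⟩ : a = 1)]
          exact one_mem _⟩)
    fun k l => ⟨k.1.trans l.1, k.2.trans l.2 k.1 l.1⟩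
  obtain ⟨Y, A, π, C', U', Q, hr, hu⟩ := (gq_of_good m1).exists_quot h.om
  have fx : ∀ (b : G) x, b • π x = π x ↔ m (b • x) x := fun b x => by rw [← Q.smul, hr]
  have zy : Zc G (Eq : Y → Y → Prop) := fun y => by
    obtain ⟨x, rfl⟩ := Q.surj y
    simpa only [fx] using m3 x
  refine ⟨Y, A, C', U', fun a => π (β a), ⟨Q.om, rz_good Q.om.gq (hG.ab zy)
    (Q.nf fun g hg c hc u v l => (m1.nf g hg c hc u v l).imp fun t k =>
      ⟨k.1, fun e => k.2 ((hr _ _).1 e)⟩), Ex.push π Q.smul Q.surj ?_⟩, zy,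
    fun q V s1 s2 s3 s4 y y' l => ?_⟩
  · simpa only [hr, hu] using m2
  obtain ⟨x, rfl⟩ := Q.surj y
  obtain ⟨x', rfl⟩ := Q.surj y'
  refine (hr x x').2 ((hm ⟨fun x y => q (π x) (π y), ⟨_, rz_good
    ((gq_of_good s1).pull π Q.smul fun c => Q.mem)
    (fun x g k a b => s1.ab (π x) g k (Q.smul g x ▸ a) (Q.smul k x ▸ b))
    (Nf.pull s1.nf π Q.smul fun c => Q.mem), Ex.pull π Q.smul s2⟩,
      fun x => by simpa only [Q.smul] using s3 (π x)⟩
      ⟨fun a b e => ?_, fun x a ha t k b hb => ?_⟩).1 x x' l)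
  · show q (π a) (π b)
    rw [(hr a b).2 e]
    exact s1.eqv.refl _
  simpa only [fx, Q.smul] using s4 (π x) a ha t ((fx a x).2 k) b (Q.smul b x ▸ hb)

end Pool.Agent.Work.MP_3d425c_gt.Rv
end

-- merged part: Pool.Agent.Work.MP_3d425c_gt.Rv.Cls
section
/-! Invariant orders on classes with paired signs, and the final sign. -/

namespace Pool.Agent.Work.MP_3d425c_gt.Rv
open Set Filter Topology Pool.Agent.Work.MP_3d425c_gt.Cy Pool.Agent.Work.MP_3d425c_gt.To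

variable {G : Type} {X : Type*} [Group G] [MulAction G X]

theorem cls_lim (S : G → ℝ) (K : Subgroup G) (F : Finset G)
    (h : ∀ T : Finset G, ∃ χ : G → ℝ,
      (∀ a ∈ Subgroup.closure ((K : Set G) ∩ T ∪ F), ∀ b ∈ Subgroup.closure ((K : Set G) ∩ T ∪ F),
        χ (a * b) = χ a + χ b) ∧ (∃ a ∈ Subgroup.closure ((K : Set G) ∩ T ∪ F), χ a ≠ 0) ∧
      (∀ k ∈ K, k ∈ T → χ k = 0) ∧ ∀ a ∈ F, ∀ b ∈ F, a * b = b * a → χ a * S b = χ b * S a) :
    ∃ χ, ClsChar S K F χ := by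
  classical
  choose χ c1 c2 c3 c4 using h
  have pos : ∀ T, 0 < ∑ f ∈ F, |χ T f| := fun T => by
    refine (Finset.sum_nonneg fun _ _ => abs_nonneg _).lt_of_ne' fun e => ?_
    rw [Finset.sum_eq_zero_iff_of_nonneg fun _ _ => abs_nonneg _] at e
    obtain ⟨a, ha, n⟩ := c2 T
    refine n ?_
    clear n
    induction ha using Subgroup.closure_induction with
    | mem x hx => exact hx.elim (fun k => c3 T x k.1 k.2) fun k => abs_eq_zero.1 (e x k)
    | one => exact (Nz.ec_inv (c1 T)).1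
    | mul a b ha hb h1 h2 => rw [c1 T a ha b hb, h1, h2, add_zero]
    | inv a ha h1 => rw [(Nz.ec_inv (c1 T)).2 a ha, h1, neg_zero]
  obtain ⟨ψ, hψ⟩ : ∃ ψ : G → Finset G → ℝ, ∀ g T, ψ g T = χ T g / ∑ f ∈ F, |χ T f| :=
    ⟨_, fun _ _ => rfl⟩
  let U : Ultrafilter (Finset G) := Ultrafilter.of atTop
  have hU : ∀ x : G, ∀ᶠ T : Finset G in U, x ∈ T := fun x => Ultrafilter.of_le _ (by
    filter_upwards [eventually_ge_atTop ({x} : Finset G)] with T hT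
    exact hT (Finset.mem_singleton_self x))
  have kK : ∀ k ∈ K, Tendsto (ψ k) U (𝓝 0) := fun k hk => tendsto_const_nhds.congr' (by
    filter_upwards [hU k] with T hT
    rw [hψ, c3 T k hk hT, zero_div])
  have ad : ∀ a b r s, (∀ᶠ T : Finset G in U,
      a ∈ Subgroup.closure ((K : Set G) ∩ T ∪ F)) → (∀ᶠ T : Finset G in U,
      b ∈ Subgroup.closure ((K : Set G) ∩ T ∪ F)) → Tendsto (ψ a) U (𝓝 r) →
      Tendsto (ψ b) U (𝓝 s) → Tendsto (ψ (a * b)) U (𝓝 (r + s)) := fun a b r s ha hb p q =>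
    (p.add q).congr' (by
      filter_upwards [ha, hb] with T ha hb
      rw [hψ, hψ, hψ, c1 T a ha b hb, add_div])
  have key : ∀ g ∈ Subgroup.closure ((K : Set G) ∪ F), (∀ᶠ T : Finset G in U,
      g ∈ Subgroup.closure ((K : Set G) ∩ T ∪ F)) ∧ ∃ r, Tendsto (ψ g) U (𝓝 r) := by
    intro g hg
    induction hg using Subgroup.closure_induction with
    | mem x hx =>
      rcases hx with hx | hx
      · exact ⟨(hU x).mono fun T hT => Subgroup.subset_closure (Or.inl ⟨hx, hT⟩), 0, kK x hx⟩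
      · refine ⟨Eventually.of_forall fun T => Subgroup.subset_closure (Or.inr hx), ?_⟩
        obtain ⟨r, -, hr⟩ := (isCompact_Icc (a := (-1 : ℝ)) (b := 1)).ultrafilter_le_nhds
          (U.map (ψ x)) (le_principal_iff.2 (mem_map.2 (Eventually.of_forall fun T => by
            show ψ x T ∈ Icc (-1 : ℝ) 1
            rw [mem_Icc, ← abs_le, hψ, abs_div, abs_of_pos (pos T), div_le_one (pos T)]
            exact Finset.single_le_sum (f := fun f => |χ T f|) (fun _ _ => abs_nonneg _) hx)))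
        exact ⟨r, hr⟩
    | one => exact ⟨Eventually.of_forall fun T => one_mem _, 0, kK 1 K.one_mem⟩
    | mul a b _ _ h1 h2 =>
      obtain ⟨p, r, hr⟩ := h1
      obtain ⟨q, s, hs⟩ := h2
      exact ⟨(p.and q).mono fun T k => mul_mem k.1 k.2, _, ad a b r s p q hr hs⟩
    | inv a _ h1 =>
      obtain ⟨p, r, hr⟩ := h1
      refine ⟨p.mono fun T k => inv_mem k, -r, hr.neg.congr' ?_⟩
      filter_upwards [p] with T ha
      rw [hψ, hψ, (Nz.ec_inv (c1 T)).2 a ha, neg_div]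
  have lim : ∀ g ∈ Subgroup.closure ((K : Set G) ∪ F),
      Tendsto (ψ g) U (𝓝 (limUnder U (ψ g))) := fun g hg => tendsto_nhds_limUnder (key g hg).2
  refine ⟨fun g => limUnder U (ψ g), fun a ha b hb =>
    (ad a b _ _ (key a ha).1 (key b hb).1 (lim a ha) (lim b hb)).limUnder_eq, ?_,
    fun k hk => (kK k hk).limUnder_eq, fun a ha b hb e => tendsto_nhds_unique
      ((lim a (Subgroup.subset_closure (Or.inr ha))).mul_const (S b))
      (((lim b (Subgroup.subset_closure (Or.inr hb))).mul_const (S a)).congr fun T => by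
        rw [hψ, hψ, div_mul_eq_mul_div, div_mul_eq_mul_div, c4 T a ha b hb e])⟩
  by_contra n
  push Not at n
  have t : Tendsto (fun T => ∑ f ∈ F, |ψ f T|) U (𝓝 (∑ f ∈ F, |(0 : ℝ)|)) :=
    tendsto_finsetSum F fun f hf => by
      have m : f ∈ Subgroup.closure ((K : Set G) ∪ F) := Subgroup.subset_closure (Or.inr hf)
      have := lim f m
      rw [n f m] at this
      exact this.abs
  have e : (fun T => ∑ f ∈ F, |ψ f T|) = fun _ => (1 : ℝ) := funext fun T => by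
    simp only [hψ, abs_div, abs_of_pos (pos T)]
    rw [← Finset.sum_div, div_self (pos T).ne']
  rw [e] at t
  simpa using tendsto_nhds_unique t tendsto_const_nhds

theorem cls_cone (hB : Bg2 G) {S : G → ℝ} (hS : Sj S) (H K : Subgroup G)
    (hKH : K ≤ H) (hab : ∀ a ∈ K, ∀ b ∈ K, a * b = b * a)
    (hinf : ∀ E : Subgroup G, E ≤ H → ¬ E.FiniteIndex)
    (hmax : ∀ κ ∈ K, κ ≠ 1 → ∀ x ∈ H, x * κ = κ * x → x ∈ K) :
    ∃ P, Cy.Cone H K P ∧ ∀ a ∈ H, ∀ b ∈ H, 0 < S a → 0 < S b → a * b = b * a → a ∈ P → b ∈ P := by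
  classical
  obtain ⟨P, hP, hp⟩ := cls_bh S H K fun F hF ⟨x, hxF, hxK⟩ => cls_lim S K F fun T => by
    obtain ⟨E, hE⟩ : ∃ E, E = Subgroup.closure ((K : Set G) ∩ T ∪ F) := ⟨_, rfl⟩
    rw [← hE]
    have hKE : ∀ k ∈ K, k ∈ T → k ∈ E := fun k hk hT =>
      hE ▸ Subgroup.subset_closure (Or.inl ⟨hk, hT⟩)
    have hFE : ∀ x ∈ F, x ∈ E := fun x hx => hE ▸ Subgroup.subset_closure (Or.inr hx)
    have hEH : E ≤ H := by
      rw [hE, Subgroup.closure_le]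
      rintro y (hy | hy)
      exacts [hKH hy.1, hF y hy]
    have hFG : E.FG := hE ▸ (Subgroup.fg_iff _).2
      ⟨_, rfl, (T.finite_toSet.inter_of_right _).union F.finite_toSet⟩
    rcases hB S hS.cf _ hFG with hc | hfi | hc
    · refine ⟨S, fun a ha b hb => hS.cf.add a b (hc a ha b hb), ⟨x, hFE x hxF, fun e => ?_⟩,
        fun k hk hT => ?_, fun a _ b _ _ => mul_comm _ _⟩
      · exact hxK (hS.inj x e ▸ K.one_mem)
      · by_cases h1 : k = 1
        · rw [h1, hS.cf.one]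
        · exact absurd (hmax k hk h1 x (hF x hxF) (hc x (hFE x hxF) k (hKE k hk hT))) hxK
    · exact absurd hfi (hinf _ hEH)
    obtain ⟨κ, hκ, kE, hκ1⟩ : ∃ κ ∈ K, κ ∈ E ∧ (κ = 1 → ∀ k ∈ K, k ∈ T → k = 1) := by
      by_cases q : ∃ κ ∈ K, κ ∈ T ∧ κ ≠ 1
      · obtain ⟨κ, a, b, c⟩ := q
        exact ⟨κ, a, hKE κ a b, fun e => absurd e c⟩
      · exact ⟨1, K.one_mem, E.one_mem, fun _ k a b => by_contra fun c => q ⟨k, a, b, c⟩⟩
    obtain ⟨χ, c1, c2, c3, c4⟩ := hc κ kE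
    refine ⟨χ, c1, c2, fun k hk hT => ?_, fun a ha b hb => c4 a (hFE a ha) b (hFE b hb)⟩
    by_cases h1 : κ = 1
    · rw [hκ1 h1 k hk hT, ← h1, c3]
    · have e := c4 κ kE k (hKE k hk hT) (hab κ hκ k hk)
      rw [c3, zero_mul] at e
      exact (mul_eq_zero.1 e.symm).resolve_right fun e' => h1 (hS.inj κ e')
  refine ⟨P, hP, fun a ha b hb sa sb e k => hp a ha b hb (fun hbK => ?_) sa sb e k⟩
  refine hP.notK a k (hmax b hbK (fun e' => ?_) a ha e)
  rw [e', hS.cf.one] at sb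
  exact lt_irrefl _ sb

theorem classOrd4 (hB : Bg2 G) {S : G → ℝ} (hS : Sj S) {E : X → X → Prop}
    (hE : Equivalence E) (hsm : ∀ (g : G) x y, E x y → E (g • x) (g • y))
    (hab : ∀ (x : X) (a b : G), a • x = x → b • x = x → a * b = b * a) (hM : Mx G E)
    (hF : ¬ Fi G E) : ∃ lo, ClassOrd G E lo ∧ Pr S E lo := by
  classical
  have hc := fun μ : X => cls_cone hB hS (clsH hE hsm μ) (MulAction.stabilizer G μ)
    (fun a ha => by
      show E (a • μ) μ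
      rw [MulAction.mem_stabilizer_iff.1 ha]
      exact hE.refl μ)
    (fun a ha b hb => hab μ a b ha hb) (fun H hH hf => hF ⟨μ, H, hf, fun g hg => hH hg⟩)
    fun κ hκ h1 x hx e => hM μ κ x h1 hκ e hx
  choose P hP hQ using hc
  obtain ⟨ρ, h1, h2⟩ : ∃ ρ : X → X, (∀ x, ∃ a : G, a • ρ x = x) ∧
      ∀ (g : G) x, ρ (g • x) = ρ x := by
    refine ⟨fun x => (Quotient.mk (MulAction.orbitRel G X) x).out, fun x => ?_, fun g x => ?_⟩
    · have k : (MulAction.orbitRel G X) x (Quotient.mk (MulAction.orbitRel G X) x).out :=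
        (MulAction.orbitRel G X).symm (Quotient.mk_out x)
      exact MulAction.mem_orbit_iff.1 (MulAction.orbitRel_apply.1 k)
    · have k : Quotient.mk (MulAction.orbitRel G X) (g • x) =
          Quotient.mk (MulAction.orbitRel G X) x :=
        Quotient.sound (MulAction.orbitRel_apply.2 (MulAction.mem_orbit x g))
      simp only [k]
  refine ⟨fun x y => WellOrderingRel (ρ x) (ρ y) ∨ (ρ x = ρ y ∧
    ∃ a b : G, a • ρ x = x ∧ b • ρ x = y ∧ a⁻¹ * b ∈ P (ρ x)), ⟨?_, ?_, ?_, ?_⟩, ?_⟩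
  · intro g x y k
    rw [h2, h2]
    refine k.imp_right fun ⟨e, a, b, ha, hb, hp⟩ => ⟨e, g * a, g * b, ?_, ?_, ?_⟩
    · rw [mul_smul, ha]
    · rw [mul_smul, hb]
    · have : (g * a)⁻¹ * (g * b) = a⁻¹ * b := by group
      rwa [this]
  · intro x y hxy hne
    rcases trichotomous_of WellOrderingRel (ρ x) (ρ y) with k | k | k
    · exact Or.inl (Or.inl k)
    · obtain ⟨a, ha⟩ := h1 x
      obtain ⟨b, hb⟩ := h1 y
      have hb' : b • ρ x = y := by rw [k, hb]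
      have hH : a⁻¹ * b ∈ clsH hE hsm (ρ x) := by
        show E ((a⁻¹ * b) • ρ x) (ρ x)
        have k2 := hsm a⁻¹ _ _ (hE.symm hxy)
        rw [mul_smul, hb']
        rwa [show a⁻¹ • x = ρ x by rw [inv_smul_eq_iff, ha]] at k2
      have hK : a⁻¹ * b ∉ MulAction.stabilizer G (ρ x) := fun k2 => hne (by
        rw [MulAction.mem_stabilizer_iff, mul_smul, inv_smul_eq_iff, ha, hb'] at k2
        exact k2.symm)
      rcases (hP (ρ x)).tot _ hH hK with k2 | k2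
      · exact Or.inl (Or.inr ⟨k, a, b, ha, hb', k2⟩)
      · refine Or.inr (Or.inr ⟨k.symm, b, a, hb, by rw [← k, ha], ?_⟩)
        rw [← k]
        simpa using k2
    · exact Or.inr (Or.inl k)
  · rintro x (k | ⟨-, a, b, ha, hb, hp⟩)
    · exact irrefl_of WellOrderingRel _ k
    · exact (hP (ρ x)).notK _ hp (cat_stab (ha.trans hb.symm))
  · rintro x y z - - (k | ⟨e, a, b, ha, hb, hp⟩) (k' | ⟨e', a', b', ha', hb', hp'⟩)
    · exact Or.inl (trans_of WellOrderingRel k k')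
    · exact Or.inl (e' ▸ k)
    · exact Or.inl (e ▸ k')
    · rw [← e] at ha' hb' hp'
      refine Or.inr ⟨e.trans e', a, b', ha, hb', ?_⟩
      have : a⁻¹ * b' = a⁻¹ * b * (b⁻¹ * a' * (a'⁻¹ * b')) := by group
      rw [this]
      exact (hP (ρ x)).mul _ hp _ ((hP (ρ x)).left _ (cat_stab (hb.trans ha'.symm)) _ hp')
  · rintro ν a b sa sb e ea eb (k | ⟨-, c, d, hc, hd, hp⟩)
    · rw [h2] at k
      exact absurd k (irrefl_of WellOrderingRel _)
    · have hH : ∀ g : G, E (g • ν) ν → c⁻¹ * g * c⁻¹⁻¹ ∈ clsH hE hsm (ρ ν) := fun g hg => by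
        show E ((c⁻¹ * g * c⁻¹⁻¹) • ρ ν) (ρ ν)
        have k2 := hsm c⁻¹ _ _ hg
        rw [inv_inv, mul_smul, mul_smul, hc]
        rwa [show c⁻¹ • ν = ρ ν by rw [inv_smul_eq_iff, hc]] at k2
      have ha : c⁻¹ * a * c⁻¹⁻¹ ∈ P (ρ ν) := by
        have k2 : d⁻¹ * (a * c) ∈ MulAction.stabilizer G (ρ ν) :=
          cat_stab (by rw [hd, mul_smul, hc])
        have : c⁻¹ * a * c⁻¹⁻¹ = c⁻¹ * d * (d⁻¹ * (a * c)) := by group
        rw [this]
        exact (hP (ρ ν)).right _ k2 _ hp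
      have hb := hQ (ρ ν) _ (hH a ea) _ (hH b eb) (by rwa [hS.cf.conj]) (by rwa [hS.cf.conj])
        (cc_conj c⁻¹ e) ha
      refine Or.inr ⟨(h2 b ν).symm, c, b * c, hc, by rw [mul_smul, hc], ?_⟩
      rwa [inv_inv, mul_assoc] at hb

variable {C : Set (ℝ → X)} {up : X → X → Prop} {s S : G → ℝ} {β : G → X}

theorem sign (hG : Hz G) (hp : Sp s) (hS : Sj S) (h : Ob C up s S β) (m1 : Mx G (LG C))
    (m2 : Mx G (LG (dualC C))) {lo hi : X → X → Prop} (hlo : ClassOrd G (LG C) lo)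
    (hhi : ClassOrd G (LG (dualC C)) hi) (p1 : Pr S (LG C) lo) (p2 : Pr S (LG (dualC C)) hi) :
    ∃ lt : X → X → Prop, IsStrictTotalOrder X lt ∧
      (∀ (g : G) x y, lt x y → lt (g • x) (g • y)) ∧
      ∀ y a b, Pos s S a → Pos s S b → a * b = b * a →
        (lt y (a • y) → lt y (b • y)) ∧ (lt (a • y) y → lt (b • y) y) := by
  have o := h.om
  have hs := hp.cf
  have T := Om.phi_order o hlo hhi
  refine ⟨_, T, fun g x y k => by rwa [Om.phi_smul o hlo hhi], fun y a b ha hb hab => ?_⟩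
  have ne1 : ∀ c, Pos s S c → c ≠ 1 := fun c k e => by
    have := k.2
    rw [e, hS.cf.one] at this
    exact lt_irrefl _ this
  obtain ⟨F, hf, hF⟩ := hG.fg (hp.two a ha.1.ne')
  set P := Subgroup.centralizer ({a} : Set G) with hPdef
  have mem : ∀ {p}, p ∈ P ↔ p * a = a * p := Subgroup.mem_centralizer_singleton_iff
  have hP : ∀ p ∈ P, ∀ q ∈ P, p * q = q * p := fun p hp q hq =>
    hG.ct (ne1 a ha) (mem.1 hp) (mem.1 hq)
  have aP : a ∈ P := mem.2 rfl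
  have bP : b ∈ P := mem.2 hab.symm
  have arch : ∀ c ∈ P, Pos s S c → ∀ p ∈ P, ∃ N : ℕ, Pos s S (c ^ N * p) := by
    intro c hc k p hp
    obtain ⟨N, hN⟩ := exists_nat_gt (max (-s p / s c) (-S p / S c))
    have e := hP _ (P.pow_mem hc N) p hp
    refine ⟨N, ?_, ?_⟩
    · rw [hs.add _ _ e, ← zpow_natCast, hs.zpow]
      have := (div_lt_iff₀ k.1).1 ((le_max_left _ _).trans_lt hN)
      push_cast
      linarith
    · rw [hS.cf.add _ _ e, ← zpow_natCast, hS.cf.zpow]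
      have := (div_lt_iff₀ k.2).1 ((le_max_right _ _).trans_lt hN)
      push_cast
      linarith
  have hax : ∀ z, Axial up P z → (∀ p ∈ P, p • z = z) ∨ (Cof up P a z ∧ Cof up P b z) ∨
      (Cof up P a⁻¹ z ∧ Cof up P b⁻¹ z) := by
    intro z az
    have sg := fun c (hc : c ∈ P) (k : Pos s S c) d (hd : d ∈ P) (l : Pos s S d) =>
      h.ex.sg c d z k l (hP c hc d hd)
    have fix : ∀ c ∈ P, Pos s S c → c • z = z → ∀ p ∈ P, p • z = z := by
      intro c hc k e p hp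
      obtain ⟨N, hN⟩ := arch c hc k p hp
      have m := P.mul_mem (P.pow_mem hc N) hp
      have t := sg c hc k _ m hN
      have e1 : (c ^ N * p) • z = z := by
        rcases az _ m with (l | l) | (l | l)
        · exact l.symm
        · exact absurd l (t.2 (.inl e))
        · exact l
        · exact absurd l (t.1 (.inl e))
      have e2 : c ^ N • z = z :=
        (MulAction.stabilizer G z).pow_mem (MulAction.mem_stabilizer_iff.2 e) N
      rw [hP _ (P.pow_mem hc N) p hp, mul_smul, e2] at e1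
      exact e1
    by_cases f : ∀ p ∈ P, p • z = z
    · exact .inl f
    have tri : ∀ c ∈ P, Pos s S c → Lt up z (c • z) ∨ Lt up (c • z) z := fun c hc k =>
      (az c hc).imp (fun l => l.resolve_left fun e => f (fix c hc k e.symm))
        fun l => l.resolve_left fun e => f (fix c hc k e)
    rcases tri a aP ha with l | l
    · have u : ∀ c ∈ P, Pos s S c → Lt up z (c • z) := fun c hc k =>
        (tri c hc k).resolve_right ((sg a aP ha c hc k).1 (.inr l))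
      have cof : ∀ c ∈ P, Pos s S c → Cof up P c z := fun c hc k => ⟨u c hc k, fun p hp => by
        obtain ⟨N, hN⟩ := arch c hc k _ (P.inv_mem hp)
        have m := P.mul_mem (P.pow_mem hc N) (P.inv_mem hp)
        have t := (o.lt_smul p).2 (u _ m hN)
        rw [← mul_smul, hP p hp _ m, inv_mul_cancel_right] at t
        exact ⟨N, .inr t⟩⟩
      exact .inr (.inl ⟨cof a aP ha, cof b bP hb⟩)
    · have u : ∀ c ∈ P, Pos s S c → Lt up (c • z) z := fun c hc k =>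
        (tri c hc k).resolve_left ((sg a aP ha c hc k).2 (.inr l))
      have cof : ∀ c ∈ P, Pos s S c → Cof up P c⁻¹ z := fun c hc k =>
        ⟨by simpa using (o.lt_smul c⁻¹).2 (u c hc k), fun p hp => by
          obtain ⟨N, hN⟩ := arch c hc k p hp
          have t := (o.lt_smul (c ^ N)⁻¹).2 (u _ (P.mul_mem (P.pow_mem hc N) hp) hN)
          rw [← mul_smul, inv_mul_cancel_left, ← inv_pow] at t
          exact ⟨N, .inr t⟩⟩
      exact .inr (.inr ⟨cof a aP ha, cof b bP hb⟩)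
  have cls : ∀ (E l : X → X → Prop), (∀ x y, E x y → E y x) → Mx G E → ClassOrd G E l →
      Pr S E l → ∀ ν, (∀ p ∈ P, E (p • ν) ν) → (∃ p ∈ P, p • ν ≠ ν) → Sd l a b ν := by
    rintro E l sy m o' pr ν k ⟨p, hp, n⟩
    have mv : ∀ c ∈ P, Pos s S c → ν ≠ c • ν := fun c hc k' e =>
      n (m ν c p (ne1 c k') e.symm (hP p hp c hc) (k p hp))
    rcases o'.tri ν _ (sy _ _ (k a aP)) (mv a aP ha) with u | u
    · exact .inl ⟨u, pr ν a b ha.2 hb.2 hab (k a aP) (k b bP) u⟩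
    · refine .inr ⟨u, (o'.tri ν _ (sy _ _ (k b bP)) (mv b bP hb)).resolve_left fun v => ?_⟩
      exact o'.irr ν (o'.tr ν _ ν (sy _ _ (k a aP)) (k a aP)
        (pr ν b a hb.2 ha.2 hab.symm (k b bP) (k a aP) v) u)
  rcases Om.sign o hlo hhi hP hF hf aP bP hax (cls _ _ (fun _ _ => Om.lg_symm) m1 hlo p1)
    (cls _ _ (fun _ _ => Om.lg_symm) m2 hhi p2) y with f | k | k
  · rw [f a aP, f b bP]
    exact ⟨id, id⟩
  · exact ⟨fun _ => k.2, fun l => absurd (T.trans _ _ _ k.1 l) (T.irrefl _)⟩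
  · exact ⟨fun l => absurd (T.trans _ _ _ k.1 l) (T.irrefl _), fun _ => k.2⟩

theorem germ (hG : Hz G) (hna : ¬ ∀ a b : G, a * b = b * a) (h : Ob C up s S β)
    (k : Fi G (LG C)) : LO (Pos s S) := by
  obtain ⟨μ, H, hH, k⟩ := k
  obtain ⟨r, r1, r2, r3⟩ := Ax.germ_ord h.om (Ax.fin_index h.om H k h.good.ab (hG.nva hna))
    h.good.nf
  refine ⟨r, r1, r2, fun x a b ha hb hab => r3 x a b (fun y k1 k2 =>
    (h.ex.sg a b y ha hb hab).1 (.inr (Ax.asc_nest h.om k1)) (Ax.asc_nest h.om k2)) fun e => ?_⟩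
  subst e
  have := (h.ex.d 1 1 hb.1 rfl hb.1).1
  rw [one_smul] at this
  exact h.om.irr _ this

end Pool.Agent.Work.MP_3d425c_gt.Rv
end

-- merged part: Pool.Agent.Work.MP_3d425c_gt.Rv.R
section
/-! The relative theorem when centralisers of rank one need not be cyclic. -/

namespace Pool.Agent.Work.MP_3d425c_gt.Rv
open Set Filter Topology Pool.Agent.Work.MP_3d425c_gt.Cy Pool.Agent.Work.MP_3d425c_gt.To Subgroup
  Pool.Agent.Work.MP_3d425c_gt.Nz

universe u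
variable {G : Type} {X : Type u} [Group G] [MulAction G X] {C : Set (ℝ → X)}
  {up : X → X → Prop} {s S : G → ℝ} {β : G → X} {δ : G → ℕ}

/-- A fold along a lattice or along a root keeps the form of the stabilisers. -/
theorem foldZ [Countable G] (hG : Hz G) (hs : Sp s) (hS : Sj S) (h : Ob C up s S β)
    (zc : Zc G (Eq : X → X → Prop)) {μ : X}
    {τ : G} (h1 : τ ≠ 1) (hfix : τ • μ = μ) (hst : ∀ γ : G, γ • μ = μ → ∃ n : ℤ, γ = τ ^ n)
    {Γ : Subgroup G} (hτ : τ ∈ Γ) (mem : ∀ γ ∈ Γ, γ * τ = τ * γ ∧ LG C (γ • μ) μ)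
    (hfull : (∀ a ∈ Γ, ∀ b ∈ Γ, Dep a b) ∨ ∀ p, p * τ = τ * p → p ∈ Γ)
    (hΓ : Two τ ∨ ∃ c, Γ = zpowers c) :
    ∃ r U, Good G C r U ∧ Ex s S β r U ∧ Zc G r ∧ (∀ γ ∈ Γ, r (γ • μ) μ) ∧
      ∀ (x : X) (a : G), a ≠ 1 → ¬ Two a → a • x = x → (∀ b : G, r (b • x) x → b • x = x) ∨
        (¬ Two τ ∧ ∃ g : G, (g * τ * g⁻¹) • x = x ∧
          ∀ b : G, r (b • x) x → ∃ γ ∈ Γ, ∃ y : G, y • x = x ∧ b = g * γ * g⁻¹ * y) := by
  obtain ⟨r, U, Q, ex, a1, gr, bn⟩ := foldG hG hs hS h h1 hfix hst hτ mem hfull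
  have gr' : ∀ (x : X) (a : G), a ≠ 1 → ¬ Two a → a • x = x →
      (∀ b : G, r (b • x) x → b • x = x) ∨ (¬ Two τ ∧ ∃ g : G, (g * τ * g⁻¹) • x = x ∧
        ∀ b : G, r (b • x) x → ∃ γ ∈ Γ, ∃ y : G, y • x = x ∧ b = g * γ * g⁻¹ * y) :=
    fun x a n t ha => (gr x a n ha).imp_right fun ⟨g, b1, b2⟩ =>
      ⟨fun q => t (hG.two_of (two_conj g q) n (h.good.ab x _ _ b1 ha)), g, b1, b2⟩
  refine ⟨r, U, Q, ex, fun x => ?_, a1, gr'⟩
  rcases bn x with k | ⟨y, a, e, n, ha⟩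
  · exact .inl k
  have tr : ∀ b : G, r (b • x) x ↔ r (b • y) y := fun b =>
    ⟨fun k => Q.eqv.trans (Q.eqv.symm (Q.rsm b _ _ e)) (Q.eqv.trans k e),
      fun k => Q.eqv.trans (Q.rsm b _ _ e) (Q.eqv.trans k (Q.eqv.symm e))⟩
  have rf : ∀ b : G, b • y = y → r (b • y) y := fun b k => by
    rw [k]
    exact Q.eqv.refl y
  simp only [tr]
  by_cases t : Two a
  · exact zc_two hG Q ex t (rf a ha)
  rcases zc y with ⟨z, hz⟩ | ⟨κ, k1, hκ⟩
  swap
  · exact .inr ⟨κ, k1, fun b => ⟨fun k => Q.ab y b κ k (rf κ ((hκ κ).2 rfl)),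
      fun k => rf b ((hκ b).2 k)⟩⟩
  rcases gr' y a n t ha with k | ⟨t', k, b1, b3⟩
  · exact .inl ⟨z, fun b l => hz b (k b l)⟩
  obtain ⟨c, rfl⟩ := hΓ.resolve_left t'
  obtain ⟨w, -, w1, w2⟩ := hG.root (hG.dep2 (x := k * c * k⁻¹) (y := z) n t
    (hG.ct (cj_ne k h1) (by rw [conj_mul, conj_mul, (mem c (mem_zpowers c)).1])
      (h.good.ab y _ _ ha b1)) (by
    obtain ⟨i, rfl⟩ := hz a ha
    exact (Commute.self_zpow z i).eq))
  refine .inl ⟨w, fun b l => ?_⟩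
  obtain ⟨_, ⟨m, rfl⟩, v, b4, rfl⟩ := b3 b l
  exact mul_mem (by simpa only [conj_zpow] using zpow_mem w1 m) (zpowers_le.2 w2 (hz v b4))

section Max
variable [Countable G] (hG : Hz G) (hs : Sp s) (hS : Sj S) (hδ : Dt δ) (h : Ob C up s S β)
  (zc : Zc G (Eq : X → X → Prop))
  (hm : ∀ r U', Good G C r U' → Ex s S β r U' → Zc G r → Dq δ Eq r → ∀ x y, r x y → x = y)
include hG hs hS h zc hm

include hδ in
theorem no_turn {g : G} (t : ¬ Two g)
    (mn : ∀ (x : X) (a d : G), a ≠ 1 → ¬ Two a → a • x = x → d * a = a * d → δ d < δ g →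
      d • x = x)
    {k : ℕ} (hk : g ^ k ≠ 1) {ν : X} (hL : LG C (g • ν) ν) (fx : g ^ k • ν = ν) : g • ν = ν := by
  have c : g * g ^ k = g ^ k * g := (Commute.self_pow g k).eq
  rcases zc ν with ⟨z, hz⟩ | ⟨κ, k1, hκ⟩
  swap
  · exact (hκ g).2 (hG.ct hk c ((hκ _).1 fx).symm)
  obtain ⟨τ, hτ, hst⟩ := gen_of_le (K := MulAction.stabilizer G ν) hz
  obtain ⟨n, hn⟩ := hst _ fx
  have t1 : τ ≠ 1 := fun e => hk (by rw [hn, e, one_zpow])
  have hg : g * τ = τ * g := hG.ct hk c (hn ▸ (Commute.self_zpow τ n).eq)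
  obtain ⟨c, c0, c1, c2⟩ := hG.root (dep_of_not t hg.symm)
  have cl : c ∈ Subgroup.centralizer {τ} ⊓ h.om.cls ν := (closure_le _).2 (by
    rintro _ (rfl | rfl)
    · exact ⟨mem_centralizer_singleton_iff.2 hg, hL⟩
    · refine ⟨mem_centralizer_singleton_iff.2 rfl, ?_⟩
      show LG C _ _
      rw [show _ • ν = ν from hτ]
      exact h.om.lg_refl _) c0
  obtain ⟨r, U, a1, a2, a3, a4, a5⟩ := foldZ hG hs hS h zc t1 hτ hst c2
    (fun γ hγ => (zpowers_le.2 cl hγ).imp mem_centralizer_singleton_iff.1 id)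
    (.inl (by
      rintro _ ⟨i, rfl⟩ _ ⟨j, rfl⟩
      exact tg_dep_cyc ⟨c, i, j, rfl, rfl⟩)) (.inr ⟨c, rfl⟩)
  refine hm r U a1 a2 a3 (fun x a ha ta hx b hb => ?_) _ _ (a4 g c1)
  rcases a5 x a ha ta hx with q | ⟨-, k, b1, b3⟩
  · exact subset_closure (.inl (q b hb))
  obtain ⟨_, ⟨m, rfl⟩, v, b4, rfl⟩ := b3 b hb
  refine mul_mem ?_ (subset_closure (.inl b4))
  rw [← conj_zpow]
  refine zpow_mem (mem_comap.1 ((closure_le (comap (MulAut.conj k).toMonoidHom (closure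
    ({c : G | c • x = x} ∪
      {c | c * a = a * c ∧ ∀ d : G, d * a = a * d → δ d < δ c → r (d • x) x})))).2 ?_ c0)) m
  rintro _ (rfl | rfl)
  · refine subset_closure (.inr ⟨hG.ct (cj_ne k t1) ?_ (h.good.ab x _ _ hx b1), fun d hd lt => ?_⟩)
    · show k * _ * k⁻¹ * _ = _ * (k * _ * k⁻¹)
      rw [conj_mul, conj_mul, hg]
    · rw [mn x a d ha ta hx hd (lt.trans_eq (hδ.conj k _))]
      exact a1.eqv.refl x
  · exact subset_closure (.inl b1)

include hδ in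
theorem full_of_max (g : G) :
    ∀ (x : X) (a : G), a ≠ 1 → ¬ Two a → a • x = x → g * a = a * g → g • x = x := by
  induction hn : δ g using Nat.strong_induction_on generalizing g with
  | _ n ih =>
  intro x a ha ta hx e
  by_contra mv
  have mn : ∀ (x : X) (a d : G), a ≠ 1 → ¬ Two a → a • x = x → d * a = a * d → δ d < δ g →
      d • x = x := fun x a d ha ta hx hd lt => ih _ (hn ▸ lt) d rfl x a ha ta hx hd
  have g1 : g ≠ 1 := fun q => mv (by rw [q, one_smul])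
  have tg : ¬ Two g := fun q => ta (hG.two_of q ha e)
  obtain ⟨i, j, i0, -, q⟩ := hG.dep_ne g1 ha (dep_of_not ta e).symm
  have f1 : g ^ i ∈ MulAction.stabilizer G x := q ▸ zpow_mem (show a ∈ _ from hx) j
  have fx : g ^ i.natAbs • x = x := by
    show _ ∈ MulAction.stabilizer G x
    rw [← zpow_natCast]
    rcases Int.natAbs_eq i with z | z
    · rwa [← z]
    · rw [← neg_eq_iff_eq_neg.2 z, zpow_neg]
      exact inv_mem f1
  have hk : g ^ i.natAbs ≠ 1 := by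
    rw [← zpow_natCast]
    exact hG.zne g1 (by omega)
  rcases centre h.om (Int.natAbs_pos.2 i0) fx mv with ⟨ν, l, ne, f⟩ | ⟨ν, l, ne, f⟩
  · exact ne (no_turn hG hs hS hδ h zc hm tg mn hk l f)
  · exact ne (no_turn hG hs.neg hS.neg hδ (h.dual hs.cf hS.cf) zc
      (fun r U' a b => hm r _ a.undual (Ex.undual hs.cf hS.cf h.om a b)) tg mn hk l f)

theorem mx_of_max
    (fu : ∀ (g : G) (x : X) (a : G), a ≠ 1 → ¬ Two a → a • x = x → g * a = a * g → g • x = x) :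
    Mx G (LG C) := by
  intro μ κ g h1 hκ hg hL
  by_cases t : Two κ
  swap
  · exact fu g μ κ h1 t hκ hg
  rcases zc μ with ⟨z, hz⟩ | ⟨κ', -, hκ'⟩
  swap
  · exact (hκ' g).2 (hG.ct h1 hg ((hκ' κ).1 hκ).symm)
  obtain ⟨τ, hτ, hst⟩ := gen_of_le (K := MulAction.stabilizer G μ) hz
  obtain ⟨n, hn⟩ := hst κ hκ
  have t1 : τ ≠ 1 := fun e => h1 (by rw [hn, e, one_zpow])
  have c : τ * κ = κ * τ := hn ▸ (Commute.self_zpow τ n).eq
  have mem : ∀ γ, γ ∈ Subgroup.centralizer {τ} ⊓ h.om.cls μ ↔ γ * τ = τ * γ ∧ LG C (γ • μ) μ := fun γ =>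
    and_congr mem_centralizer_singleton_iff Iff.rfl
  obtain ⟨r, U, a1, a2, a3, a4, a5⟩ := foldZ hG hs hS h zc t1 hτ hst
    ((mem τ).2 ⟨rfl, (show τ • μ = μ from hτ).symm ▸ h.om.lg_refl _⟩) (fun γ => (mem γ).1) (by
      refine or_iff_not_imp_left.2 fun k => ?_
      push Not at k
      obtain ⟨a, ha, b, hb, k⟩ := k
      exact fun p hp => (mem p).2 ⟨hp, full hG h.om h.ex.z
        (hG.ct t1 ((mem a).1 ha).1 ((mem b).1 hb).1) k
        ((mem a).1 ha).2 ((mem b).1 hb).2 (hG.ct t1 hp ((mem a).1 ha).1)⟩)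
    (.inl (hG.two_of t t1 c.symm))
  exact hm r U a1 a2 a3 (fun x a ha ta hx b hb => subset_closure (.inl
    ((a5 x a ha ta hx).resolve_right (fun q => q.1 (hG.two_of t t1 c.symm)) b hb))) _ _
    (a4 g ((mem g).2 ⟨hG.ct h1 hg c, hL⟩))

end Max

theorem ob_lo [Countable G] (hG : Hz G) (hB : Bg2 G) (hs : Sp s) (hS : Sj S)
    (h : Ob C up s S β) (zc : Zc G (Eq : X → X → Prop)) : LO (Pos s S) := by
  by_cases hna : ∀ a b : G, a * b = b * a
  · exact (lo_abelian hS hna).mono fun a k => k.2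
  obtain ⟨δ, hδ⟩ := hG.depth
  obtain ⟨Y, _, C', U, β', h', zc', hm⟩ := exists_max3 hG hδ h zc
  have fu := full_of_max hG hs hS hδ h' zc' hm
  have m1 : Mx G (LG C') := mx_of_max hG hs hS h' zc' hm fu
  have m2 : Mx G (LG (dualC C')) := mx_of_max hG hs.neg hS.neg (h'.dual hs.cf hS.cf) zc'
    (fun r V a b => hm r _ a.undual (Ex.undual hs.cf hS.cf h'.om a b)) fu
  by_cases f1 : Fi G (LG C')
  · exact germ hG hna h' f1
  by_cases f2 : Fi G (LG (dualC C'))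
  · refine ((germ hG hna (h'.dual hs.cf hS.cf) f2).inv fun k => ?_).mono fun a k => ?_
    · have := k.1
      simp [hs.cf.one] at this
    · exact ⟨by simpa [hs.cf.inv] using k.1, by simpa [hS.cf.inv] using k.2⟩
  obtain ⟨lo, l1, l2⟩ := classOrd4 hB hS
    ⟨h'.om.lg_refl, Om.lg_symm, h'.om.lg_trans⟩ (fun g _ _ => h'.om.lg_smul g) h'.good.ab m1 f1
  obtain ⟨hi, k1, k2⟩ := classOrd4 hB hS
    ⟨h'.om.dual.lg_refl, Om.lg_symm, h'.om.dual.lg_trans⟩ (fun g _ _ => h'.om.dual.lg_smul g)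
    h'.good.ab m2 f2
  obtain ⟨lt, t1, t2, t3⟩ := sign hG hs hS h' m1 m2 l1 k1 l2 k2
  exact lo_of_action2 hS (fun a k => k.2) lt t1 t2 (β' 1) (h'.good.ab _) t3

/-- The relative theorem. -/
theorem thmR [Countable G] (hG : Hz G) (hB : Bg2 G) (hs : Sp s) (h : Om G C up) (x₀ : X)
    (nf : ∀ g : G, g ≠ 1 → ∀ c ∈ C, ∀ u v : ℝ, u < v → ∃ t ∈ Icc u v, ¬ g • c t = c t)
    (cy : Cv.Cyc G X)
    (ax : ∀ a, 0 < s a → ∃ y : X, ∀ p, p * a = a * p → 0 < s p → Lt up y (p • y)) :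
    LO fun a => 0 < s a := by
  classical
  have dep := dep_of_cyc cy
  obtain ⟨β, hβ⟩ : ∃ β : G → X, ∀ a p : G, 0 < s a → p * a = a * p → 0 < s p →
      Lt up (β a) (p • β a) := by
    refine ⟨fun a => if k : 0 < s a then (ax a k).choose else x₀, fun a p k => ?_⟩
    simp only [dif_pos k]
    exact (ax a k).choose_spec p
  have z : ∀ (x : X) (a b p : G), a • x = x → b • x = x → ¬ Dep a b → p * a = a * p →
      p • x = x := fun x a b p ha hb k => absurd (dep x a b ha hb) k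
  have nb : ∀ (a b : G) x, 0 < s a → 0 < s b → a * b = b * a → ¬ Bad up a b x :=
    fun a b x ha hb hab k => by
      obtain ⟨n, c, -, f, -⟩ := bad_germ hG h z hs.cf ha hb hab (fun p => hβ a p ha) k
      exact n (dep _ a b (f a rfl) (f b hab.symm))
  refine lo_compact hG hs.cf fun S hS => ob_lo (C := C) (up := up) (β := β) hG hB hs hS
    ⟨h, ⟨eq_equivalence, fun g x y e => by rw [e], h.opn', fun x x' y e a => e ▸ a,
      fun x y y' e a => e ▸ a, h.upc', h.upk', h.ups,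
      fun x a b ha hb => hG.dep_comm (dep x a b ha hb), nf⟩, z, hβ, fun a b x ha hb hab => ?_⟩
    fun x => .inl (cy x)
  exact ⟨fun k l => nb a b x ha.1 hb.1 hab (Or.inl ⟨k.imp_left Eq.symm, l⟩),
    fun k l => nb a b x ha.1 hb.1 hab (Or.inr ⟨k, l⟩)⟩

end Pool.Agent.Work.MP_3d425c_gt.Rv
end
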