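import Pool.Agent.Work.MP_3d425c_gt.Lt.Kl
import Pool.Agent.Work.MP_3d425c_gt.To.CvA
import Pool.Agent.Work.MP_3d425c_gt.Nz.Big
import Pool.Agent.Work.MP_3d425c_gt.Bq.Dual
import Pool.Agent.Work.MP_3d425c_gt.Nh.Rhm
import Pool.Agent.Work.MP_3d425c_gt.Sv.Wall
import Pool.Agent.Work.MP_3d425c_gt.Cw.X
import Pool.Agent.Work.MP_3d425c_gt.To.SfAm
import Pool.Agent.Work.MP_3d425c_gt.Rv.R
import Pool.Agent.Work.MP_3d425c_gt.Cw.AB

-- merged part: Pool.Agent.Work.MP_3d425c_gt.Lt.KlHy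
section
/-! A torsion-free Kleinian group has malnormal centralisers of rank at most two. -/

namespace Pool.Agent.Work.MP_3d425c_gt.Lt
open Matrix

theorem Dsc.hy {G : Type} [Group G] {ρ : G →* ProjectiveSpecialLinearGroup (Fin 2) ℂ}
    (D : Dsc ρ) (tf : ∀ a : G, a ≠ 1 → ¬ IsOfFinOrder a) : To.Hy G :=
  ⟨tf, D.cent tf, fun _ _ ha h => D.mn tf ha h.symm⟩

theorem Dsc.hy_sub {G : Type} [Group G] {H : Subgroup G}
    {ρ : H →* ProjectiveSpecialLinearGroup (Fin 2) ℂ} (D : Dsc ρ)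
    (tf : ∀ a : G, a ≠ 1 → ¬ IsOfFinOrder a) : To.Hy H :=
  D.hy fun a ha h => tf a (fun e => ha (Subtype.ext e)) (H.subtype.isOfFinOrder h)

theorem Lat.dsc {G : Type} [Group G] {ρ : G →* ProjectiveSpecialLinearGroup (Fin 2) ℂ}
    (L : Lat ρ) : Dsc ρ := L.disc

end Pool.Agent.Work.MP_3d425c_gt.Lt
end

-- merged part: Pool.Agent.Work.MP_3d425c_gt.Bq.Main
section
/-! Characters on the subgroups of a hyperbolic piece. -/

namespace Pool.Agent.Work.MP_3d425c_gt.Bq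
open Relation MulAction Pool.Agent.Work.MP_3d425c_gt.Md Pool.Agent.Work.MP_3d425c_gt.Bg
  Pool.Agent.Work.MP_3d425c_gt.To Pool.Agent.Work.MP_3d425c_gt.To.Top

variable {G X0 X1 X2 X3 V : Type} [Group G] [MulAction G X0] [MulAction G X1] [MulAction G X2]
  [MulAction G X3] [MulAction G V] {T : Tri G X0 X1 X2 X3} {Γ : SimpleGraph V}

theorem dual_of (hM : Mfd T) (hD : Nv.Disc T) (h0 : NoHom G) (E : Subgroup G) : Dual T E := by
  obtain ⟨o, o1, o2, o3⟩ := exists_ori' hM h0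
  intro Ω _ W ω n fc bd top I _ y h ind
  exact dual' hM hD o1 o2 (fun g => o3 g.1) fc bd top y (fun i => (h i).zero)
    (fun i => (h i).coc) (fun i g => (h i).inv g trivial) ind

theorem bg2_hp (hM : Mfd T) (tf : ∀ a : G, a ≠ 1 → ¬ IsOfFinOrder a)
    (hd : ∀ E : Subgroup G, ¬ E.FiniteIndex → E.FG → Dual T E) (J : Jsj G Γ)
    (prop : ∀ v w, Γ.Adj v w → ∃ g : G, g • v = v ∧ g • w ≠ w) {v : V} (h : Hp G Γ v) :
    Bg2 (stabilizer G v) := by
  obtain ⟨ρ, D⟩ := h.rep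
  have hy := D.hy_sub tf
  refine bg2_of_dual hM tf hd J.tree J.act v (fun w hw => ?_) hy
    (fun w hw a b a1 a2 b1 b2 => J.comm hw a ⟨a1, a2⟩ b ⟨b1, b2⟩) h.mal fun a n c => ?_
  · obtain ⟨g, e, n⟩ := prop w v hw.symm
    refine ⟨g, ReflTransGen.single ⟨by simpa only [e] using J.act g _ _ hw.symm, fun k => ?_⟩⟩
    rcases Sym2.eq_iff.1 k with k | k
    · exact hw.ne k.1.symm
    · exact n k.2
  · obtain ⟨x, hx, y, hy', d⟩ : ∃ x ∈ Subgroup.centralizer {a}, ∃ y ∈ Subgroup.centralizer {a},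
        ¬ Dep x y := by
      by_contra m
      push Not at m
      obtain ⟨τ, hτ, k⟩ := hy.cyc _ m
      exact c ⟨⟨τ, hτ⟩, fun z => (k z z.2).imp fun _ e => Subtype.ext e.symm⟩
    rw [Subgroup.mem_centralizer_singleton_iff] at hx hy'
    obtain ⟨w, hw, f, -⟩ := h.cusp x y x.2 y.2 (congrArg Subtype.val (hy.ct n hx hy'))
      fun ⟨i, j, k, e⟩ => d ⟨i, j, k, Subtype.ext e⟩
    refine ⟨w, hw, fun b e => ?_⟩
    have c : b.1 * x.1 = x.1 * b.1 := congrArg Subtype.val (hy.ct n e hx)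
    have j := J.act b.1 _ _ hw
    rw [show b.1 • v = v from b.2] at j
    exact h.mal x.1 _ _ j hw (fun e => (ne_one_of_not_dep d).1 (Subtype.ext e)) x.2
      (by rw [← mul_smul, ← c, mul_smul, f]) f

/-- Subgroups of a hyperbolic piece have enough characters. -/
theorem bg2_of (hM : Mfd T) (hD : Nv.Disc T) (h0 : NoHom G)
    (tf : ∀ a : G, a ≠ 1 → ¬ IsOfFinOrder a) (J : Jsj G Γ)
    (prop : ∀ v w, Γ.Adj v w → ∃ g : G, g • v = v ∧ g • w ≠ w) {v : V} (h : Hp G Γ v) :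
    Bg2 (stabilizer G v) :=
  bg2_hp hM tf (fun E _ _ => dual_of hM hD h0 E) J prop h

end Pool.Agent.Work.MP_3d425c_gt.Bq
end

-- merged part: Pool.Agent.Work.MP_3d425c_gt.Lt.CDefs
section
/-! Lattices of `PSL(2, ℂ)` with a prescribed set of cusps. -/

namespace Pool.Agent.Work.MP_3d425c_gt.Lt
open Matrix

/-- `ρ` maps `H` properly onto a lattice of `PSL(2, ℂ)` whose cusps are the lines through the
vectors `c w`, `w ∈ N`: the horoballs `{x : ‖x⁻¹ c w‖ < ε}` are permuted like `N`, are disjoint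
for small `ε`, and `H` acts cocompactly on their complement. -/
structure Cusp {G V : Type} [Group G] [MulAction G V] (H : Subgroup G) (N : Set V)
    (ρ : H →* ProjectiveSpecialLinearGroup (Fin 2) ℂ) (c : V → Fin 2 → ℂ) : Prop where
  disc : Dsc ρ
  equi : ∀ (g : H) (y : SpecialLinearGroup (Fin 2) ℂ), QuotientGroup.mk y = ρ g → ∀ w ∈ N,
    y.1.mulVec (c w) = c (g.1 • w) ∨ y.1.mulVec (c w) = -c (g.1 • w)
  far : ∀ w ∈ N, ∀ w' ∈ N, w ≠ w' → 1 ≤ ‖c w 0 * c w' 1 - c w 1 * c w' 0‖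
  coc : ∀ ε > 0, ∃ R : ℝ, ∀ x : SpecialLinearGroup (Fin 2) ℂ,
    (∃ w ∈ N, ‖x⁻¹.1.mulVec (c w)‖ < ε) ∨ ∃ (g : H) (y : SpecialLinearGroup (Fin 2) ℂ),
      QuotientGroup.mk y = ρ g ∧ ∀ i j, ‖(y * x) i j‖ ≤ R

end Pool.Agent.Work.MP_3d425c_gt.Lt
end

-- merged part: Pool.Agent.Work.MP_3d425c_gt.Js.Defs
section
/-! The geometric decomposition of a closed three-manifold, read on its fundamental group. -/

namespace Pool.Agent.Work.MP_3d425c_gt.Js
open MulAction Subgroup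

variable (G : Type) [Group G] {V : Type} [MulAction G V] (T : SimpleGraph V)

/-- The vertex group is a lattice of `PSL(2, ℂ)` whose cusps are the edges at `v`. -/
def Hyp (v : V) : Prop := ∃ ρ c, Lt.Cusp (stabilizer G v) (T.neighborSet v) ρ c

/-- The vertex group is the group of a Seifert manifold with fibre `h` over a sphere or a
projective plane with holes; the boundary curves `c i` (`α i = 0`, not the cross cap) correspond
to the orbits of edges at `v`, with edge groups generated by `h` and `c i`. -/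
def Sei (v : V) : Prop :=
  ∃ (h : G) (n : ℕ) (c : ℕ → G) (tw : Bool) (α : ℕ → ℕ) (β : ℕ → ℤ) (w : ℕ → V),
    Sp.Pres (stabilizer G v) h n c tw α β ∧ 0 < n ∧ α n = 0 ∧ (tw → α 0 = 0) ∧ (∀ i, α i ≠ 1) ∧
    (if tw then c 0 else 1) * ((List.range (n + 1)).map c).prod = 1 ∧
    (∀ i ≤ n, α i = 0 → ¬ (tw ∧ i = 0) →
      T.Adj v (w i) ∧ stabilizer G v ⊓ stabilizer G (w i) = closure {h, c i}) ∧
    ∀ u, T.Adj v u → ∃! i, i ≤ n ∧ α i = 0 ∧ ¬ (tw ∧ i = 0) ∧ ∃ g : G, g • v = v ∧ g • w i = u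

/-- An action on a tree without inversion, with edge groups `ℤ²` that are proper in the vertex
groups, hyperbolic or Seifert vertex groups, and fibres that do not match across an edge. -/
structure Jsj : Prop where
  tree : T.IsTree
  act : ∀ (g : G) u v, T.Adj u v → T.Adj (g • u) (g • v)
  ninv : ∀ (g : G) u v, T.Adj u v → g • u = v → g • v ≠ u
  edge : ∀ u v, T.Adj u v →
    Nonempty (↥(stabilizer G u ⊓ stabilizer G v) ≃* Multiplicative (ℤ × ℤ))
  red : ∀ u v, T.Adj u v → ∃ g : G, g • u = u ∧ g • v ≠ v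
  min : ∀ u v, T.Adj u v → ∀ a : G, a • u = u → a • v = v →
    (∀ g : G, g • u = u ∨ g • v = v → g * a * g⁻¹ ∈ zpowers a) → a = 1
  vert : ∀ v, Hyp G T v ∨ Sei G T v

/-- `G` is finite, or has a nontrivial normal cyclic subgroup (Seifert case), or has a
decomposition along tori. -/
def Geo : Prop := Finite G ∨ (∃ h : G, h ≠ 1 ∧ (zpowers h).Normal) ∨
  ∃ (V : Type) (_ : MulAction G V) (T : SimpleGraph V), Jsj G T

end Pool.Agent.Work.MP_3d425c_gt.Js
end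

-- merged part: Pool.Agent.Work.MP_3d425c_gt.Lt.Cusp
section
/-! Cusp groups are malnormal and contain every non-cyclic abelian subgroup. -/

namespace Pool.Agent.Work.MP_3d425c_gt.Lt
open Matrix Set

theorem mv_ent (x : S2) (v : Fin 2 → ℂ) (i : Fin 2) :
    x.1.mulVec v i = x i 0 * v 0 + x i 1 * v 1 := by
  simp [Matrix.mulVec, dotProduct, Fin.sum_univ_two]

theorem mv_mul (x y : S2) (v : Fin 2 → ℂ) : (x * y).1.mulVec v = x.1.mulVec (y.1.mulVec v) :=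
  (Matrix.mulVec_mulVec _ _ _).symm

/-- the determinant of two vectors -/
def dt (u v : Fin 2 → ℂ) : ℂ := u 0 * v 1 - u 1 * v 0

theorem dt_mv (x : S2) (u v : Fin 2 → ℂ) : dt (x.1.mulVec u) (x.1.mulVec v) = dt u v := by
  simp only [dt, mv_ent]
  linear_combination (u 0 * v 1 - u 1 * v 0) * det_ent x

theorem dt_le (u v : Fin 2 → ℂ) : ‖dt u v‖ ≤ 2 * (‖u‖ * ‖v‖) := by
  have a := mul_le_mul (norm_le_pi_norm u 0) (norm_le_pi_norm v 1) (norm_nonneg _) (norm_nonneg _)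
  have b := mul_le_mul (norm_le_pi_norm u 1) (norm_le_pi_norm v 0) (norm_nonneg _) (norm_nonneg _)
  refine (norm_sub_le _ _).trans ?_
  rw [norm_mul, norm_mul]
  linarith

theorem mv_le {x : S2} (h : Bd 1 x) (v : Fin 2 → ℂ) : ‖x.1.mulVec v‖ ≤ 2 * ‖v‖ := by
  refine (pi_norm_le_iff_of_nonneg (by positivity)).2 fun i => ?_
  have a := mul_le_mul (h i 0) (norm_le_pi_norm v 0) (norm_nonneg _) zero_le_one
  have b := mul_le_mul (h i 1) (norm_le_pi_norm v 1) (norm_nonneg _) zero_le_one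
  rw [mv_ent]
  refine (norm_add_le _ _).trans ?_
  rw [norm_mul, norm_mul]
  linarith

variable {G V : Type} [Group G] [MulAction G V] {H : Subgroup G} {N : Set V}
  {ρ : H →* ProjectiveSpecialLinearGroup (Fin 2) ℂ} {c : V → Fin 2 → ℂ} (L : Cusp H N ρ c)
include L

theorem Cusp.hy (tf : ∀ a : G, a ≠ 1 → ¬ IsOfFinOrder a) : To.Hy H := L.disc.hy_sub tf

/-- A nontrivial element fixes at most one cusp. -/
theorem Cusp.mal (tf : ∀ a : G, a ≠ 1 → ¬ IsOfFinOrder a) {a : G} (ha : a ∈ H) (h1 : a ≠ 1)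
    {w w' : V} (hw : w ∈ N) (hw' : w' ∈ N) (e : a • w = w) (e' : a • w' = w') : w = w' := by
  by_contra ne
  obtain ⟨y, hy⟩ := QuotientGroup.mk_surjective (ρ ⟨a, ha⟩)
  have sq : ∀ u ∈ N, a • u = u → (y * y).1.mulVec (c u) = c u := fun u hu f => by
    have := L.equi _ y hy u hu
    rw [f] at this
    rcases this with k | k
    · rw [mv_mul, k, k]
    · rw [mv_mul, k, Matrix.mulVec_neg, k, neg_neg]
  have d : c w 0 * c w' 1 - c w 1 * c w' 0 ≠ 0 := fun z => by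
    have := L.far w hw w' hw' ne
    rw [z, norm_zero] at this
    linarith
  have p0 := congrFun (sq w hw e) 0
  have p1 := congrFun (sq w hw e) 1
  have q0 := congrFun (sq w' hw' e') 0
  have q1 := congrFun (sq w' hw' e') 1
  rw [mv_ent] at p0 p1 q0 q1
  have f : IsOfFinOrder ((⟨a, ha⟩ : H) * ⟨a, ha⟩) :=
    L.disc.ell (x := y * y) (by rw [QuotientGroup.mk_mul, hy, map_mul])
      (mul_left_cancel₀ d (by linear_combination c w' 1 * p1 - c w 1 * q1))
      (mul_left_cancel₀ d (by linear_combination c w 0 * q0 - c w' 0 * p0))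
      (by rw [show (y * y) 0 0 = 1 from
        mul_left_cancel₀ d (by linear_combination c w' 1 * p0 - c w 1 * q0), norm_one])
  rw [← pow_two] at f
  exact tf a h1 (H.subtype.isOfFinOrder (f.of_pow two_ne_zero))

/-- An element of infinite order with an eigenvalue of modulus one fixes a cusp. -/
theorem Cusp.fix (hN : ∀ g ∈ H, ∀ w ∈ N, g • w ∈ N) {a : H} (hfo : ¬ IsOfFinOrder a) {x z : S2}
    (hx : QuotientGroup.mk x = ρ a) (h : (z⁻¹ * x * z) 1 0 = 0)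
    (h1 : ‖(z⁻¹ * x * z) 0 0‖ = 1) : ∃ w ∈ N, a.1 • w = w := by
  classical
  obtain ⟨R, hR⟩ := L.coc (1 / 4) (by norm_num)
  have hf := L.disc (2 * (2 * R * 1) * R)
  obtain ⟨n, hn⟩ : ∃ n : ℕ, n = hf.toFinset.card := ⟨_, rfl⟩
  obtain ⟨d, hd⟩ := exists_scale h h1 (n + 1)
  rcases hR (z * d) with ⟨w, hw, lt⟩ | ⟨g, y, hy, hb⟩
  · refine ⟨w, hw, by_contra fun ne => ?_⟩
    have far : 1 ≤ ‖dt (c w) (c (a.1 • w))‖ := L.far w hw _ (hN _ a.2 w hw) (Ne.symm ne)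
    have b1 := hd 1 (Nat.le_add_left 1 n)
    rw [pow_one] at b1
    have e : (z * d)⁻¹ * x = d⁻¹ * (z⁻¹ * x * z) * d * (z * d)⁻¹ := by group
    have b2 : ‖(z * d)⁻¹.1.mulVec (x.1.mulVec (c w))‖ ≤ 2 * ‖(z * d)⁻¹.1.mulVec (c w)‖ := by
      rw [← mv_mul, e, mv_mul]
      exact mv_le b1 _
    have b3 : ‖(z * d)⁻¹.1.mulVec (c (a.1 • w))‖ ≤ 2 * ‖(z * d)⁻¹.1.mulVec (c w)‖ := by
      rcases L.equi a x hx w hw with k | k
      · rwa [k] at b2
      · rwa [k, Matrix.mulVec_neg, norm_neg] at b2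
    have b4 := dt_le ((z * d)⁻¹.1.mulVec (c w)) ((z * d)⁻¹.1.mulVec (c (a.1 • w)))
    rw [dt_mv] at b4
    nlinarith [norm_nonneg ((z * d)⁻¹.1.mulVec (c w)),
      norm_nonneg ((z * d)⁻¹.1.mulVec (c (a.1 • w)))]
  · exfalso
    have hb' : Bd R (y * (z * d)) := hb
    have key : ∀ k ≤ n, g * a ^ k * g⁻¹ ∈ hf.toFinset := by
      intro k hk
      refine hf.mem_toFinset.2 ⟨y * x ^ k * y⁻¹, ?_, ?_⟩
      · simp only [QuotientGroup.mk_mul, QuotientGroup.mk_pow, QuotientGroup.mk_inv, hx, hy,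
          map_mul, map_pow, map_inv]
      · have e : y * x ^ k * y⁻¹ =
            y * (z * d) * (d⁻¹ * (z⁻¹ * x * z) * d) ^ k * (y * (z * d))⁻¹ := by
          have : d⁻¹ * (z⁻¹ * x * z) * d = (z * d)⁻¹ * x * (z * d)⁻¹⁻¹ := by group
          rw [this, conj_pow]
          group
        rw [e]
        exact (hb'.mul (hd k (hk.trans (Nat.le_succ n)))).mul hb'.inv
    have hinj : Function.Injective fun k : ℕ => g * a ^ k * g⁻¹ := fun i j e =>
      injective_pow_iff_not_isOfFinOrder.2 hfo (mul_left_cancel (mul_right_cancel e))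
    have := Finset.card_le_card_of_injOn (s := Finset.range (n + 1)) (t := hf.toFinset)
      (fun k => g * a ^ k * g⁻¹)
      (fun k hk => key k (Nat.lt_succ_iff.1 (Finset.mem_range.1 (Finset.mem_coe.1 hk))))
      hinj.injOn
    rw [Finset.card_range, ← hn] at this
    omega

/-- A non-cyclic centraliser fixes a cusp. -/
theorem Cusp.per (tf : ∀ a : G, a ≠ 1 → ¬ IsOfFinOrder a) (hN : ∀ g ∈ H, ∀ w ∈ N, g • w ∈ N)
    {a : H} (ha : a ≠ 1) (nc : ¬ IsCyclic (Subgroup.centralizer ({a} : Set H))) :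
    ∃ w ∈ N, ∀ b : H, b * a = a * b → b.1 • w = w := by
  have tf' := (L.hy tf).tf
  obtain ⟨z, x, hx, p10, k | k⟩ := L.disc.normal tf' ha
  · exact absurd ((L.disc.cj z).cent_lox tf' hx p10 k.1 k.2) nc
  · have e : z⁻¹ * (z * x * z⁻¹) * z = x := by group
    have hd := det_ent x
    rw [p10, ← k.1] at hd
    obtain ⟨w, hw, f⟩ := L.fix hN (tf' a ha) (x := z * x * z⁻¹) (z := z) (by
      simp only [QuotientGroup.mk_mul, QuotientGroup.mk_inv, hx, Lt.cj]
      simp [mul_assoc]) (by rwa [e]) (by rw [e]; exact norm_sign (by linear_combination hd))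
    refine ⟨w, hw, fun b hb => L.mal tf a.2 (fun d => ha (Subtype.ext d)) (hN _ b.2 w hw) hw ?_ f⟩
    rw [← mul_smul, ← Subgroup.coe_mul, ← hb, Subgroup.coe_mul, mul_smul, f]

end Pool.Agent.Work.MP_3d425c_gt.Lt
end

-- merged part: Pool.Agent.Work.MP_3d425c_gt.Sp.Seif
section
/-! Normal forms from the standard presentation. -/

namespace Pool.Agent.Work.MP_3d425c_gt.Sp
open Set Subgroup Monoid

variable {G : Type*} [Group G] {V : Subgroup G} {h : G} {n : ℕ} {c : ℕ → G} {tw : Bool}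
  {α : ℕ → ℕ} {β : ℕ → ℤ}

theorem rel_one {r} (hr : r ∈ rels n tw α β) : PresentedGroup.mk (rels n tw α β) r = 1 :=
  PresentedGroup.one_of_mem hr

theorem Pres.gen (P : Pres V h n c tw α β) : V = closure (insert h (c '' Iio n)) := by
  obtain ⟨e, e1, e2⟩ := P
  refine le_antisymm (fun x hx => ?_) ((closure_le _).2 ?_)
  · obtain ⟨y, hy⟩ := e.surjective ⟨x, hx⟩
    have := PresentedGroup.generated_by (rels n tw α β)
      ((closure (insert h (c '' Iio n))).comap (V.subtype.comp e.toMonoidHom)) (by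
        rintro (_ | i)
        · exact subset_closure (.inl e1)
        · exact subset_closure (.inr ⟨i, i.2, (e2 i).symm⟩)) y
    have e3 : (e y).1 = x := congrArg Subtype.val hy
    exact e3 ▸ this
  · rintro _ (rfl | ⟨i, hi, rfl⟩)
    · exact e1 ▸ Subtype.property _
    · exact e2 ⟨i, hi⟩ ▸ Subtype.property _

theorem Pres.cj (P : Pres V h n c tw α β) {i : ℕ} (hi : i < n) :
    c i * h * (c i)⁻¹ = if tw ∧ i = 0 then h⁻¹ else h := by
  obtain ⟨e, e1, e2⟩ := P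
  have := congrArg (V.subtype.comp e.toMonoidHom)
    (rel_one (tw := tw) (α := α) (β := β) (mem_iUnion.2 ⟨⟨i, hi⟩, .inl rfl⟩))
  have f1 : (V.subtype.comp e.toMonoidHom) (PresentedGroup.mk _ (FreeGroup.of none)) = h := e1
  have f2 : (V.subtype.comp e.toMonoidHom) (PresentedGroup.mk _ (FreeGroup.of (some ⟨i, hi⟩))) =
    c i := e2 ⟨i, hi⟩
  split_ifs at this ⊢
  · simp only [map_mul, map_inv, map_one, f1, f2] at this
    exact eq_inv_of_mul_eq_one_left this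
  · simp only [map_mul, map_inv, map_one, f1, f2] at this
    exact mul_inv_eq_one.1 this

theorem Pres.pow (P : Pres V h n c tw α β) {i : ℕ} (hi : i < n) : c i ^ α i = h ^ β i := by
  obtain ⟨e, e1, e2⟩ := P
  have := congrArg (V.subtype.comp e.toMonoidHom)
    (rel_one (tw := tw) (α := α) (β := β) (mem_iUnion.2 ⟨⟨i, hi⟩, .inr rfl⟩))
  have f1 : (V.subtype.comp e.toMonoidHom) (PresentedGroup.mk _ (FreeGroup.of none)) = h := e1
  have f2 : (V.subtype.comp e.toMonoidHom) (PresentedGroup.mk _ (FreeGroup.of (some ⟨i, hi⟩))) =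
    c i := e2 ⟨i, hi⟩
  simp only [map_mul, map_inv, map_one, map_pow, map_zpow, f1, f2] at this
  exact mul_inv_eq_one.1 this

/-- the quotient map to the free product of cyclic groups -/
theorem Pres.quo (P : Pres V h n c tw α β) :
    ∃ π : V →* CoprodI fun i : ℕ => Multiplicative (ZMod (α i)),
      (∀ x : V, x.1 ∈ zpowers h → π x = 1) ∧ ∀ i < n, ∀ (k : ℤ) (x : V), x.1 = c i ^ k →
        π x = CoprodI.of (i := i) (Multiplicative.ofAdd (k : ZMod (α i))) := by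
  obtain ⟨e, e1, e2⟩ := P
  let f : Option (Fin n) → CoprodI fun i : ℕ => Multiplicative (ZMod (α i)) := fun o =>
    o.elim 1 fun i => CoprodI.of (i := i.1) (Multiplicative.ofAdd 1)
  have hf : ∀ r ∈ rels n tw α β, FreeGroup.lift f r = 1 := by
    intro r hr
    obtain ⟨i, rfl | rfl⟩ := mem_iUnion.1 hr
    · split_ifs <;> simp [f]
    · simp only [map_mul, map_inv, map_pow, map_zpow, FreeGroup.lift_apply_of, f, Option.elim,
        one_zpow, inv_one, mul_one]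
      rw [← map_pow, ← ofAdd_nsmul]
      simp
  refine ⟨(PresentedGroup.toGroup hf).comp e.symm.toMonoidHom, ?_, ?_⟩
  · rintro x ⟨k, hk⟩
    have : x = e (PresentedGroup.of none) ^ k := Subtype.ext (by
      rw [SubgroupClass.coe_zpow, e1]; exact hk.symm)
    simp [this, f]
  · intro i hi k x hx
    have : x = e (PresentedGroup.of (some ⟨i, hi⟩)) ^ k := Subtype.ext (by
      rw [SubgroupClass.coe_zpow, e2]; exact hx)
    rw [this, map_zpow]
    simp only [MulEquiv.toMonoidHom_eq_coe, MonoidHom.coe_comp, MonoidHom.coe_coe,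
      Function.comp_apply, MulEquiv.symm_apply_apply, PresentedGroup.toGroup.of, f, Option.elim]
    rw [← map_zpow, ← ofAdd_zsmul]
    simp

theorem Pres.c_mem (P : Pres V h n c tw α β) {i : ℕ} (hi : i < n) : c i ∈ V :=
  P.gen ▸ subset_closure (.inr ⟨i, hi, rfl⟩)

theorem Pres.zp_iff (P : Pres V h n c tw α β) {i : ℕ} (hi : i < n) (k : ℤ) :
    c i ^ k ∈ zpowers h ↔ (α i : ℤ) ∣ k := by
  constructor
  · intro a
    obtain ⟨π, p1, p2⟩ := P.quo
    have e := (p2 i hi k ⟨_, zpow_mem (P.c_mem hi) k⟩ rfl).symm.trans (p1 _ a)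
    have := CoprodI.of_injective i (e.trans (map_one _).symm)
    exact (ZMod.intCast_zmod_eq_zero_iff_dvd k (α i)).1 this
  · rintro ⟨m, rfl⟩
    rw [zpow_mul, zpow_natCast, P.pow hi]
    exact zpow_mem (zpow_mem (mem_zpowers h) _) _

theorem Pres.nf (P : Pres V h n c tw α β) (l : List (ℕ × ℤ)) (ne : l ≠ [])
    (hl : ∀ x ∈ l, x.1 < n ∧ c x.1 ^ x.2 ∉ zpowers h) (ch : l.IsChain fun x y => x.1 ≠ y.1) :
    (l.map fun x => c x.1 ^ x.2).prod ∉ zpowers h := by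
  classical
  intro a
  obtain ⟨π, p1, p2⟩ := P.quo
  let g : ℕ × ℤ → Σ i : ℕ, Multiplicative (ZMod (α i)) := fun x =>
    ⟨x.1, Multiplicative.ofAdd (x.2 : ZMod (α x.1))⟩
  let w : CoprodI.Word fun i : ℕ => Multiplicative (ZMod (α i)) :=
    { toList := l.map g
      ne_one := fun y hy e => by
        obtain ⟨x, hx, rfl⟩ := List.mem_map.1 hy
        exact (hl x hx).2 ((P.zp_iff (hl x hx).1 _).2
          ((ZMod.intCast_zmod_eq_zero_iff_dvd x.2 (α x.1)).1 e))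
      chain_ne := (List.isChain_map g).2 ch }
  have key : ∀ l : List (ℕ × ℤ), (∀ x ∈ l, x.1 < n) → ∀ y : V,
      y.1 = (l.map fun x => c x.1 ^ x.2).prod →
      π y = ((l.map g).map fun z =>
        CoprodI.of (M := fun i : ℕ => Multiplicative (ZMod (α i))) z.2).prod := by
    intro l
    induction l with
    | nil => exact fun _ y e => (congrArg π (Subtype.ext e)).trans (map_one π)
    | cons x l ih =>
      intro b y e
      let u : V := ⟨_, zpow_mem (P.c_mem (b x List.mem_cons_self)) x.2⟩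
      have := ih (fun z hz => b z (List.mem_cons_of_mem _ hz)) (u⁻¹ * y) (by
        rw [Subgroup.coe_mul, e]
        simp [u])
      rw [map_mul, map_inv, inv_mul_eq_iff_eq_mul, p2 _ (b x List.mem_cons_self) x.2 u rfl] at this
      exact this
  have m : (l.map fun x => c x.1 ^ x.2).prod ∈ V := list_prod_mem fun y hy => by
    obtain ⟨x, hx, rfl⟩ := List.mem_map.1 hy
    exact zpow_mem (P.c_mem (hl x hx).1) _
  have e : w.prod = CoprodI.Word.empty.prod :=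
    ((key l (fun x hx => (hl x hx).1) ⟨_, m⟩ rfl).symm.trans (p1 _ a)).trans
      CoprodI.Word.prod_empty.symm
  have := congrArg CoprodI.Word.toList (CoprodI.Word.equiv.symm.injective (a₁ := w)
    (a₂ := CoprodI.Word.empty) e)
  exact ne (List.map_eq_nil_iff.1 this)

theorem Pres.seif (P : Pres V h n c tw α β) (inf : ¬ IsOfFinOrder h) (pos : 0 < n)
    (h0 : tw → α 0 = 0)
    (pr : (if tw then c 0 else 1) * ((List.range (n + 1)).map c).prod = 1) :
    To.Sf.Seif V h n c tw :=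
  ⟨inf, pos, P.gen, fun _ => P.cj, fun t k a => by
    have := (P.zp_iff pos k).1 a
    rwa [h0 t, Nat.cast_zero, zero_dvd_iff] at this, pr, P.nf⟩

end Pool.Agent.Work.MP_3d425c_gt.Sp
end

-- merged part: Pool.Agent.Work.MP_3d425c_gt.Js.Br
section
/-! From the geometric decomposition to the group properties used in the proof. -/

namespace Pool.Agent.Work.MP_3d425c_gt.Js
open MulAction Subgroup Set Pool.Agent.Work.MP_3d425c_gt.To

variable {G : Type} [Group G] {V : Type} [MulAction G V] {T : SimpleGraph V}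

theorem z2_basis {P : Subgroup G} (e : P ≃* Multiplicative (ℤ × ℤ)) :
    ∃ a b : G, a * b = b * a ∧ ¬ Dep a b ∧ P = closure {a, b} := by
  let a := e.symm (Multiplicative.ofAdd (1, 0))
  let b := e.symm (Multiplicative.ofAdd (0, 1))
  have ea : ∀ m : ℤ, e (a ^ m) = Multiplicative.ofAdd (m, 0) := fun m => by
    rw [map_zpow, e.apply_symm_apply, ← ofAdd_zsmul]; simp
  have eb : ∀ m : ℤ, e (b ^ m) = Multiplicative.ofAdd (0, m) := fun m => by
    rw [map_zpow, e.apply_symm_apply, ← ofAdd_zsmul]; simp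
  refine ⟨a, b, congrArg Subtype.val (e.injective (a₁ := a * b) (a₂ := b * a)
    (by rw [map_mul, map_mul, mul_comm])), ?_, le_antisymm (fun x hx => ?_) ((closure_le _).2 ?_)⟩
  · rintro ⟨m, n, k, d⟩
    have := (ea m).symm.trans ((congrArg e (Subtype.ext d)).trans (eb n))
    have h2 : ((m, 0) : ℤ × ℤ) = (0, n) := this
    exact k ⟨congrArg Prod.fst h2, (congrArg Prod.snd h2).symm⟩
  · have : (⟨x, hx⟩ : P) = a ^ (e ⟨x, hx⟩).toAdd.1 * b ^ (e ⟨x, hx⟩).toAdd.2 :=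
      e.injective (by rw [map_mul, ea, eb, ← ofAdd_add]; simp)
    have h2 : x = a.1 ^ (e ⟨x, hx⟩).toAdd.1 * b.1 ^ (e ⟨x, hx⟩).toAdd.2 := congrArg Subtype.val this
    rw [h2]
    exact mul_mem (zpow_mem (subset_closure (by simp)) _) (zpow_mem (subset_closure (by simp)) _)
  · exact pair_subset a.2 b.2

/-- Two generators of a free abelian group of rank two are independent. -/
theorem z2_ind {P : Subgroup G} (e : P ≃* Multiplicative (ℤ × ℤ)) {x y : G}
    (h : P = closure {x, y}) : ¬ Dep x y := by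
  rintro ⟨m, n, k, d⟩
  have hx : x ∈ P := h ▸ subset_closure (by simp)
  have hy : y ∈ P := h ▸ subset_closure (by simp)
  obtain ⟨p, hp⟩ : ∃ p, p = (e ⟨x, hx⟩).toAdd := ⟨_, rfl⟩
  obtain ⟨q, hq⟩ : ∃ q, q = (e ⟨y, hy⟩).toAdd := ⟨_, rfl⟩
  have d' : m • p = n • q := by
    rw [hp, hq, ← toAdd_zpow, ← toAdd_zpow, ← map_zpow, ← map_zpow]
    exact congrArg (fun z => (e z).toAdd) (Subtype.ext d)
  have d1 : m * p.1 = n * q.1 := congrArg Prod.fst d'
  have d2 : m * p.2 = n * q.2 := congrArg Prod.snd d'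
  have det : p.1 * q.2 - p.2 * q.1 = 0 := by
    by_cases hm : m = 0
    · have hn : n ≠ 0 := fun z => k ⟨hm, z⟩
      apply mul_left_cancel₀ hn
      rw [hm] at d1 d2
      linear_combination p.2 * d1 - p.1 * d2
    · apply mul_left_cancel₀ hm
      linear_combination q.2 * d1 - q.1 * d2
  have all : ∀ z (hz : z ∈ closure {x, y}), ∃ s t : ℤ, (e ⟨z, h ▸ hz⟩).toAdd = s • p + t • q := by
    intro z hz
    induction hz using closure_induction with
    | mem z hz =>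
      rcases hz with rfl | rfl
      · exact ⟨1, 0, by simp [hp]⟩
      · exact ⟨0, 1, by simp [hq]⟩
    | one => exact ⟨0, 0, (congrArg Multiplicative.toAdd (map_one e)).trans (by simp)⟩
    | mul z w hz hw a b =>
      obtain ⟨s, t, a⟩ := a
      obtain ⟨s', t', b⟩ := b
      refine ⟨s + s', t + t', (congrArg Multiplicative.toAdd
        (map_mul e ⟨z, h ▸ hz⟩ ⟨w, h ▸ hw⟩)).trans ?_⟩
      rw [toAdd_mul, a, b, add_smul, add_smul]
      abel
    | inv z hz a =>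
      obtain ⟨s, t, a⟩ := a
      refine ⟨-s, -t, (congrArg Multiplicative.toAdd (map_inv e ⟨z, h ▸ hz⟩)).trans ?_⟩
      rw [toAdd_inv, a, neg_smul, neg_smul]
      abel
  obtain ⟨s, t, a⟩ := all _ (h.le (e.symm (Multiplicative.ofAdd (1, 0))).2)
  obtain ⟨s', t', b⟩ := all _ (h.le (e.symm (Multiplicative.ofAdd (0, 1))).2)
  rw [Subtype.coe_eta, e.apply_symm_apply] at a b
  have a1 : (1 : ℤ) = s * p.1 + t * q.1 := congrArg Prod.fst a
  have a2 : (0 : ℤ) = s * p.2 + t * q.2 := congrArg Prod.snd a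
  have b1 : (0 : ℤ) = s' * p.1 + t' * q.1 := congrArg Prod.fst b
  have b2 : (1 : ℤ) = s' * p.2 + t' * q.2 := congrArg Prod.snd b
  have : (1 : ℤ) = 0 := by
    linear_combination (s' * p.2 + t' * q.2) * a1 + b2 - (s' * p.1 + t' * q.1) * a2
      + (s * t' - t * s') * det
  exact one_ne_zero this

theorem Jsj.top (J : Jsj G T) : Top.Jsj G T :=
  ⟨J.tree, J.act, J.ninv, fun v w a => let ⟨e⟩ := J.edge v w a; z2_basis e⟩

theorem Jsj.nb (J : Jsj G T) (v : V) :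
    ∀ g ∈ stabilizer G v, ∀ w ∈ T.neighborSet v, g • w ∈ T.neighborSet v := fun g hg w hw => by
  have := J.act g _ _ hw
  rwa [show g • v = v from hg] at this

/-- a translate of `v` behind every edge at `v` -/
theorem Jsj.beh (J : Jsj G T) {v w : V} (a : T.Adj v w) : ∃ g : G, Gl.side T v w (g • v) := by
  obtain ⟨g, h1, h2⟩ := J.red w v a.symm
  have k := J.act g _ _ a.symm
  rw [h1] at k
  refine ⟨g, .single ⟨k, fun e => ?_⟩⟩
  rcases Sym2.eq_iff.1 e with ⟨e1, -⟩ | ⟨-, e2⟩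
  · exact a.ne e1.symm
  · exact h2 e2

theorem Jsj.nm (J : Jsj G T) {v w : V} (a : T.Adj v w) {τ : G} (h : τ ∈ Top.Eg G v w)
    (h1 : Top.Nm v τ) (h2 : Top.Nm w τ) : τ = 1 :=
  J.min v w a τ h.1 h.2 fun g k => k.elim (h1 g) (h2 g)

variable (tf : ∀ a : G, a ≠ 1 → ¬ IsOfFinOrder a) {v : V}
include tf

theorem Hyp.hy (H : Hyp G T v) : Hy (stabilizer G v) := let ⟨_, _, L⟩ := H; L.hy tf

theorem Hyp.mal (H : Hyp G T v) : Top.Mal G T v := fun _ _ _ a b n x y z =>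
  let ⟨_, _, L⟩ := H; L.mal tf x n a b y z

/-- A non-cyclic centraliser in a hyperbolic vertex group fixes an edge. -/
theorem Hyp.per (H : Hyp G T v) (J : Jsj G T) {a : stabilizer G v} (ha : a ≠ 1)
    (nc : ¬ IsCyclic (Subgroup.centralizer ({a} : Set (stabilizer G v)))) :
    ∃ w, T.Adj v w ∧ ∀ b : stabilizer G v, b * a = a * b → b.1 • w = w :=
  let ⟨_, _, L⟩ := H; L.per tf (J.nb v) ha nc

/-- Independent commuting elements of a hyperbolic vertex group fix an edge. -/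
theorem Hyp.per' (H : Hyp G T v) (J : Jsj G T) {a b : G} (ha : a • v = v) (hb : b • v = v)
    (c : a * b = b * a) (n : ¬ Dep a b) : ∃ w, T.Adj v w ∧ a • w = w ∧ b • w = w := by
  have n1 : (⟨a, ha⟩ : stabilizer G v) ≠ 1 := fun e => n ⟨1, 0, by simp, by
    rw [show a = 1 from congrArg Subtype.val e]; simp⟩
  obtain ⟨w, k, l⟩ := H.per tf J n1 fun cy => by
    obtain ⟨z, hz⟩ := cy.exists_zpow_surjective
    obtain ⟨i, hi⟩ := hz ⟨⟨a, ha⟩, mem_centralizer_singleton_iff.2 rfl⟩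
    obtain ⟨j, hj⟩ := hz ⟨⟨b, hb⟩, mem_centralizer_singleton_iff.2 (Subtype.ext c.symm)⟩
    have e1 : a = z.1.1 ^ i := (congrArg (fun x => x.1.1) hi).symm
    have e2 : b = z.1.1 ^ j := (congrArg (fun x => x.1.1) hj).symm
    by_cases k : j = 0 ∧ i = 0
    · exact n ⟨1, 1, by simp, by rw [e1, e2, k.1, k.2]⟩
    · exact n ⟨j, i, k, by rw [e1, e2, ← zpow_mul, ← zpow_mul, mul_comm]⟩
  exact ⟨w, k, l ⟨a, ha⟩ rfl, l ⟨b, hb⟩ (Subtype.ext c.symm)⟩

/-- Edge groups have infinite index in a hyperbolic vertex group. -/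
theorem Hyp.hi (H : Hyp G T v) (J : Jsj G T) {w : V} (a : T.Adj v w) :
    ¬ ((stabilizer G w).subgroupOf (stabilizer G v)).FiniteIndex := by
  intro fi
  obtain ⟨g, g1, g2⟩ := J.red v w a
  obtain ⟨x, y, -, n, e⟩ := J.top.edge v w a
  have hx : x ∈ Top.Eg G v w := e ▸ subset_closure (by simp)
  have x1 : x ≠ 1 := fun d => n ⟨1, 0, by simp, by simp [d]⟩
  have m : g⁻¹ * x * g ∈ stabilizer G v :=
    mul_mem (mul_mem (inv_mem (show g ∈ stabilizer G v from g1)) hx.1) g1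
  obtain ⟨k, k0, -, hk⟩ := exists_pow_mem_of_index_ne_zero fi.index_ne_zero
    (⟨_, m⟩ : stabilizer G v)
  have h1 : (g⁻¹ * x * g) ^ k • w = w := hk
  have h2 : x ^ k • g • w = g • w := by
    have : (g⁻¹ * x * g) ^ k = g⁻¹ * x ^ k * g := by
      simpa using conj_pow (a := g⁻¹) (b := x) (i := k)
    rwa [this, mul_smul, mul_smul, inv_smul_eq_iff] at h1
  exact g2 (H.mal tf (x ^ k) _ _ (J.nb v g g1 w a) a
    (fun d => tf x x1 (isOfFinOrder_iff_pow_eq_one.2 ⟨k, k0, d⟩)) (pow_mem hx.1 k) h2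
    (pow_mem hx.2 k))

omit tf in
/-- The data of a Seifert vertex. -/
theorem Sei.out (S : Sei G T v) (J : Jsj G T) :
    ∃ (h : G) (n : ℕ) (c : ℕ → G) (tw : Bool) (w : ℕ → V), Sf.Seif (stabilizer G v) h n c tw ∧
      (∀ i ≤ n, c i ∉ zpowers h) ∧ ¬ Ph.Dp h (c n) ∧
      (∀ i, i ≤ n ∧ ¬ (tw ∧ i = 0) ∧ ¬ Ph.Dp h (c i) →
        T.Adj v (w i) ∧ Top.Eg G v (w i) = closure {h, c i}) ∧
      ∀ u, T.Adj v u → ∃! i, (i ≤ n ∧ ¬ (tw ∧ i = 0) ∧ ¬ Ph.Dp h (c i)) ∧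
        ∃ g : G, g • v = v ∧ g • w i = u := by
  obtain ⟨h, n, c, tw, α, β, w, P, pos, an, a0, a1, pr, hw, hu⟩ := S
  have ind : ∀ i ≤ n, α i = 0 → ¬ (tw ∧ i = 0) → ¬ Dep h (c i) := fun i hi a b =>
    let ⟨k, l⟩ := hw i hi a b
    let ⟨e⟩ := J.edge _ _ k
    z2_ind e l
  have hn := ind n le_rfl an fun k => pos.ne' k.2
  have inf : ¬ IsOfFinOrder h := fun f => by
    obtain ⟨k, k0, e⟩ := isOfFinOrder_iff_pow_eq_one.1 f
    exact hn ⟨k, 0, fun z => k0.ne' (by exact_mod_cast z.1), by simp [e]⟩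
  have iff : ∀ i, (i ≤ n ∧ ¬ (tw ∧ i = 0) ∧ ¬ Ph.Dp h (c i)) ↔
      (i ≤ n ∧ α i = 0 ∧ ¬ (tw ∧ i = 0)) := fun i => by
    refine ⟨fun ⟨a, b, d⟩ => ⟨a, ?_, b⟩, fun ⟨a, b, d⟩ => ⟨a, d, ind i a b d⟩⟩
    rcases a.eq_or_lt with rfl | lt
    · exact an
    · by_contra z
      exact d ⟨β i, α i, fun k => z (by exact_mod_cast k.2), by rw [zpow_natCast, P.pow lt]⟩
  refine ⟨h, n, c, tw, w, P.seif inf pos a0 pr, fun i hi m => ?_, hn, fun i k => ?_,
    fun u a => ?_⟩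
  · rcases hi.eq_or_lt with rfl | lt
    · obtain ⟨k, hk⟩ := m
      exact hn ⟨k, 1, by simp, by simpa using hk⟩
    · have := (P.zp_iff lt 1).1 (by simpa using m)
      exact a1 i (Nat.dvd_one.1 (by exact_mod_cast this))
  · obtain ⟨a, b, d⟩ := (iff i).1 k
    exact hw i a b d
  · simpa only [iff, and_assoc] using hu u a

omit tf in
theorem Sei.sv (S : Sei G T v) (J : Jsj G T) :
    ∃ (h : G) (n : ℕ) (c : ℕ → G) (tw : Bool) (B : Set ℕ) (w : ℕ → V),
      Top.Sv T v h n c tw B w ∧ (∀ i ≤ n, c i ∉ zpowers h) ∧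
      ∀ i, i ∈ B ↔ i ≤ n ∧ ¬ (tw ∧ i = 0) ∧ ¬ Ph.Dp h (c i) := by
  obtain ⟨h, n, c, tw, w, s, nd, hn, hw, hu⟩ := S.out J
  refine ⟨h, n, c, tw, {i | i ≤ n ∧ ¬ (tw ∧ i = 0) ∧ ¬ Ph.Dp h (c i)}, w,
    ⟨s, ⟨le_rfl, fun k => s.pos.ne' k.2, hn⟩, fun i k => ⟨k.1, k.2.1, hw i k⟩,
      fun i hi k a => ?_, fun u a => ?_, fun i a j b g g1 g2 => ?_⟩, nd, fun _ => Iff.rfl⟩
  · obtain ⟨p, q, d, e⟩ : Ph.Dp h (c i) := by_contra fun d => k ⟨hi.le, a, d⟩
    refine ⟨q, fun z => ?_, p, e⟩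
    rw [z, zpow_zero] at e
    exact s.inf (isOfFinOrder_iff_zpow_eq_one.2 ⟨p, fun y => d ⟨y, z⟩, e⟩)
  · obtain ⟨i, ⟨k, l⟩, -⟩ := hu u a
    exact ⟨i, k, l⟩
  · exact (hu _ (hw j b).1).unique ⟨a, g, g1, g2⟩ ⟨b, 1, one_smul _ _, one_smul _ _⟩

theorem Hyp.hp (H : Hyp G T v) (J : Jsj G T) : Top.Hp G T v :=
  ⟨let ⟨ρ, _, L⟩ := H; ⟨ρ, L.disc⟩, H.mal tf, fun _ _ => H.per' tf J⟩

theorem Jsj.dec (J : Jsj G T) : Top.Dec G T :=
  ⟨J.top, J.red, fun _ _ _ a h n h1 h2 => n (J.nm a h h1 h2), fun v => (J.vert v).imp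
    (fun H => H.hp tf J) fun S =>
      let ⟨h, n, c, tw, B, w, s, _⟩ := S.sv J
      ⟨h, n, c, tw, B, w, s⟩⟩

theorem normal_pm {h : G} (n : h ≠ 1) (N : (zpowers h).Normal) (g : G) :
    g * h * g⁻¹ = h ∨ g * h * g⁻¹ = h⁻¹ := by
  obtain ⟨k, hk⟩ := N.conj_mem h (mem_zpowers h) g
  obtain ⟨l, hl⟩ := N.conj_mem h (mem_zpowers h) g⁻¹
  have hk' : h ^ k = g * h * g⁻¹ := hk
  have hl' : h ^ l = g⁻¹ * h * g⁻¹⁻¹ := hl
  have e : h ^ (k * l) = h ^ (1 : ℤ) := by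
    rw [zpow_mul, hk', conj_zpow, hl']
    group
  rcases Int.eq_one_or_neg_one_of_mul_eq_one
    (injective_zpow_iff_not_isOfFinOrder.2 (tf h n) e) with rfl | rfl
  · exact .inl (by rw [← hk', zpow_one])
  · exact .inr (by rw [← hk', zpow_neg_one])

/-- The bridge. -/
theorem Geo.top (g : Geo G) [Infinite G] : Top.Geo G := by
  rcases g with f | ⟨h, n, N⟩ | ⟨V, _, T, J⟩
  · exact (not_finite G).elim
  · exact .inl ⟨h, n, normal_pm tf n N⟩
  · exact .inr ⟨V, inferInstance, T, J.dec tf⟩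

end Pool.Agent.Work.MP_3d425c_gt.Js
end

-- merged part: Pool.Agent.Work.MP_3d425c_gt.To.Fin
section
/-! Rational homology spheres with a geometric decomposition and a taut foliation. -/

namespace Pool.Agent.Work.MP_3d425c_gt.Fn
open Pool.Agent.Work.MP_3d425c_gt.Md Pool.Agent.Work.MP_3d425c_gt.To MulAction
open scoped Manifold ContDiff

theorem geo_tri {G X0 X1 X2 X3 : Type} [Group G] [MulAction G X0] [MulAction G X1]
    [MulAction G X2] [MulAction G X3] (T : Tri G X0 X1 X2 X3) (h0 : NoHom G) (g : Js.Geo G)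
    (hD : Nv.Disc T) (mid : ∀ v, ∃ f, T.d1 (T.d2 f 2) 0 = v) (φ : X2 → ℝ ≃o ℝ) (hf : T.Fol φ)
    (ht : T.Taut φ) : Nontrivial G ∧ Md.LO G := by
  obtain ⟨ρ, hρ, hb⟩ := Tri.ball h0 hf ht mid
  obtain ⟨y, hy⟩ := hb φ hf fun f t => by rw [sub_self, abs_zero]; exact hρ.le
  have := Bg.inf_of_nc (Nv.fw_nov hD hy hf.1) (hy.inf hf)
  have hM := Bg.mfd_taut hD mid (Or.inr h0) hf ht
  have tf := Bg.tf_disc hM hD
  have := objB_countG T
  refine ⟨inferInstance, ?_⟩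
  rcases g.top tf with ⟨a, a1, a2⟩ | ⟨V, _, Γ, D⟩
  · exact T.lo_inv tf h0 hD mid φ hf ht a1 a2
  obtain ⟨Y, _, x₀, C, up, h, cyc, E, e1, -, e2⟩ := T.model_taut tf h0 hD mid φ hf ht
  have cy : Cv.Cyc G Y := fun x => by
    obtain ⟨k, hk⟩ := (cyc x).exists_zpow_surjective
    exact ⟨k.1, fun a ha => (hk ⟨a, ha⟩).imp fun n e => congrArg Subtype.val e⟩
  refine Top.phase2 tf D.jsj D.nm ⟨om_of_OM h, cy, E, e1, e2⟩ x₀ fun σ S N v => ?_
  rcases D.pc v with p | ⟨_, _, _, _, _, _, s⟩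
  · obtain ⟨r, k⟩ := p.rep
    exact .inl ⟨k.hy_sub tf, Bq.bg2_of hM hD h0 tf D.jsj D.prop p, p.mal⟩
  · exact .inr (Top.sf_out tf D.jsj (om_of_OM h) cy (dep_of_cyc cy) S N s)

variable {M : Type} [TopologicalSpace M] [ChartedSpace (EuclideanSpace ℝ (Fin 3)) M]
  [IsManifold 𝓘(ℝ, EuclideanSpace ℝ (Fin 3)) ∞ M] [CompactSpace M] [T2Space M] [ConnectedSpace M]

theorem main_geo (m : M) (h0 : ∀ χ : FundamentalGroup M m →* Multiplicative ℝ, χ = 1)
    (g : Js.Geo (FundamentalGroup M m))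
    {A : Set (OpenPartialHomeomorph M ((ℝ × ℝ) × ℝ))} (hA : Sm.Foliation A) (hT : Sm.Taut A) :
    Nontrivial (FundamentalGroup M m) ∧ Md.LO (FundamentalGroup M m) := by
  obtain ⟨Y, _, _, p, hp, _⟩ := Tp.exists_universal_cover_manifold Sm.E3 m
  obtain ⟨X0, X1, X2, X3, _, _, _, _, T, φ, a, b, c, d⟩ := Sm.normal_form p hp hA hT
  exact geo_tri T h0 g a b φ c d

end Pool.Agent.Work.MP_3d425c_gt.Fn
end

-- merged part: Pool.Agent.Work.MP_3d425c_gt.Jt.Main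
section
/-! Taut foliations and decompositions into simple and Seifert pieces. -/

namespace Pool.Agent.Work.MP_3d425c_gt.Jt
open MulAction Subgroup Relation Pool.Agent.Work.MP_3d425c_gt.To
  Pool.Agent.Work.MP_3d425c_gt.Md
open scoped Manifold ContDiff

section Grp
variable {G : Type} [Group G] {V : Type} [MulAction G V] {T : SimpleGraph V} {v : V}

theorem Jsj.top (J : Jsj G T) : Top.Jsj G T :=
  ⟨J.tree, J.act, J.ninv, fun v w a => let ⟨e⟩ := J.edge v w a; Js.z2_basis e⟩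

theorem gen_of_cyc {H : Subgroup G} (c : IsCyclic H) : ∃ z ∈ H, ∀ x ∈ H, ∃ i : ℤ, x = z ^ i := by
  obtain ⟨z, hz⟩ := c.exists_zpow_surjective
  exact ⟨z.1, z.2, fun x hx => (hz ⟨x, hx⟩).imp fun _ e => (congrArg Subtype.val e).symm⟩

theorem mem_cs {a b : G} (c : b * a = a * b) (h : b • v = v) :
    b ∈ centralizer {a} ⊓ stabilizer G v := ⟨mem_centralizer_singleton_iff.2 c, h⟩

theorem Jsj.ncyc (J : Jsj G T) {a : G} {w : V} (k : T.Adj v w) (h : a • v = v) (h' : a • w = w) :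
    ¬ IsCyclic ↥(centralizer {a} ⊓ stabilizer G v) := by
  intro c
  obtain ⟨x, y, -, n, e⟩ := J.top.edge v w k
  have hx : x ∈ Top.Eg G v w := e ▸ subset_closure (by simp)
  have hy : y ∈ Top.Eg G v w := e ▸ subset_closure (by simp)
  obtain ⟨z, -, hz⟩ := gen_of_cyc c
  obtain ⟨i, rfl⟩ := hz x (mem_cs (J.top.comm k _ hx _ ⟨h, h'⟩) hx.1)
  obtain ⟨j, rfl⟩ := hz y (mem_cs (J.top.comm k _ hy _ ⟨h, h'⟩) hy.1)
  by_cases d : j = 0 ∧ i = 0
  · exact n ⟨1, 1, by simp, by rw [d.1, d.2]⟩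
  · exact n ⟨j, i, d, by rw [← zpow_mul, ← zpow_mul, mul_comm]⟩

theorem Sim.mal (S : Sim G T v) (J : Jsj G T) : Top.Mal G T v := fun a _ _ k l n x y z =>
  ((S a n x).resolve_right (J.ncyc k x y)).unique ⟨k, y⟩ ⟨l, z⟩

theorem Jsj.nb (J : Jsj G T) {g : G} {w : V} (h : g • v = v) (k : T.Adj v w) :
    T.Adj v (g • w) := by
  have := J.act g _ _ k
  rwa [h] at this

theorem Sim.cen (S : Sim G T v) (J : Jsj G T) {a b : G} {w : V} (k : T.Adj v w) (n : a ≠ 1)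
    (h : a • v = v) (h' : a • w = w) (c : b * a = a * b) (hb : b • v = v) : b • w = w :=
  S.mal J a _ _ (J.nb hb k) k n h (by rw [← mul_smul, ← c, mul_smul, h']) h'

/-- The centraliser in the vertex group, in two forms. -/
def cs (a : stabilizer G v) :
    centralizer ({a} : Set (stabilizer G v)) ≃* ↥(centralizer {a.1} ⊓ stabilizer G v) where
  toFun b := ⟨b.1.1, mem_cs (congrArg Subtype.val (mem_centralizer_singleton_iff.1 b.2)) b.1.2⟩
  invFun p := ⟨⟨p.1, p.2.2⟩, mem_centralizer_singleton_iff.2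
    (Subtype.ext (mem_centralizer_singleton_iff.1 p.2.1))⟩
  left_inv _ := rfl
  right_inv _ := rfl
  map_mul' _ _ := rfl

theorem Sim.per (S : Sim G T v) (J : Jsj G T) (a : stabilizer G v) (n : a ≠ 1)
    (c : ¬ IsCyclic (centralizer ({a} : Set (stabilizer G v)))) :
    ∃ w, T.Adj v w ∧ ∀ b : stabilizer G v, b * a = a * b → b.1 • w = w := by
  have n' : a.1 ≠ 1 := fun e => n (Subtype.ext e)
  rcases S a.1 n' a.2 with ⟨w, ⟨k, l⟩, -⟩ | k
  · exact ⟨w, k, fun b e => S.cen J k n' a.2 l (congrArg Subtype.val e) b.2⟩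
  · exact (c ((cs a).isCyclic.2 k)).elim

variable (tf : ∀ a : G, a ≠ 1 → ¬ IsOfFinOrder a)
include tf

theorem Sim.mn (S : Sim G T v) (J : Jsj G T) {a g : G} (n : a ≠ 1) (ha : a • v = v)
    (hg : g • v = v) (c : g * a * g⁻¹ * a = a * (g * a * g⁻¹)) : g * a = a * g := by
  have sg : g ∈ stabilizer G v := hg
  have sa : a ∈ stabilizer G v := ha
  have sb : g * a * g⁻¹ ∈ stabilizer G v := mul_mem (mul_mem sg sa) (inv_mem sg)
  rcases S a n ha with ⟨w, ⟨k, l⟩, -⟩ | k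
  · have h1 : (g * a * g⁻¹) • w = w := S.cen J k n ha l c sb
    have h2 : a • g⁻¹ • w = g⁻¹ • w := by
      rwa [mul_smul, mul_smul, ← eq_inv_smul_iff] at h1
    have h3 : g⁻¹ • w = w := S.mal J a _ _ (J.nb (inv_mem sg) k) k n ha h2 l
    exact J.top.comm k _ ⟨hg, (inv_smul_eq_iff.1 h3).symm⟩ _ ⟨ha, l⟩
  obtain ⟨z, sz, hz⟩ := gen_of_cyc k
  obtain ⟨i, hi⟩ := hz a (mem_cs rfl ha)
  obtain ⟨j, hj⟩ := hz _ (mem_cs c sb)
  have z1 : z ≠ 1 := fun e => n (by rw [hi, e, one_zpow])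
  have inj := injective_zpow_iff_not_isOfFinOrder.2 (tf z z1)
  have cz : ∀ x, Commute x z → x * a = a * x := fun x e => hi ▸ (e.zpow_right i).eq
  obtain ⟨p, hp⟩ := hz (g⁻¹ * z * g) (mem_cs (by
    have : z * (g * a * g⁻¹) = g * a * g⁻¹ * z := hj ▸ (Commute.self_zpow z j).eq
    calc g⁻¹ * z * g * a = g⁻¹ * (z * (g * a * g⁻¹)) * g := by group
      _ = _ := by rw [this]; group) (mul_mem (mul_mem (inv_mem sg) sz.2) sg))
  have e1 : z = (g * z * g⁻¹) ^ p := by rw [conj_zpow, ← hp]; group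
  obtain ⟨q, hq⟩ := hz (g * z * g⁻¹) (mem_cs (cz _ (by
    conv_rhs => rw [e1]
    exact Commute.self_zpow _ p)) (mul_mem (mul_mem sg sz.2) (inv_mem sg)))
  have e2 : q * p = 1 := inj (by
    show z ^ (q * p) = z ^ (1 : ℤ)
    rw [zpow_mul, ← hq, ← e1, zpow_one])
  rcases Int.eq_one_or_neg_one_of_mul_eq_one e2 with rfl | rfl
  · exact cz g (by rw [zpow_one] at hq; exact mul_inv_eq_iff_eq_mul.1 hq)
  rw [zpow_neg_one] at hq
  obtain ⟨m, hm⟩ := hz (g * g) (mem_cs (cz _ (by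
    have : g * g * z * (g * g)⁻¹ = z := by
      calc g * g * z * (g * g)⁻¹ = g * (g * z * g⁻¹) * g⁻¹ := by group
        _ = g * z⁻¹ * g⁻¹ := by rw [hq]
        _ = (g * z * g⁻¹)⁻¹ := by group
        _ = z := by rw [hq, inv_inv]
    exact mul_inv_eq_iff_eq_mul.1 this)) (mul_mem sg sg))
  have e3 : m = -m := inj (by
    show z ^ m = z ^ (-m)
    rw [zpow_neg, ← inv_zpow, ← hq, conj_zpow, ← hm]
    group)
  have g1 : g = 1 := by_contra fun d => tf g d (isOfFinOrder_iff_pow_eq_one.2 ⟨2, two_pos, by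
    rw [sq, hm, show m = 0 by omega, zpow_zero]⟩)
  simp [g1]

theorem Sim.hy (S : Sim G T v) (J : Jsj G T) : Hy (stabilizer G v) := by
  refine ⟨fun a n f => tf a.1 (fun e => n (Subtype.ext e))
    ((stabilizer G v).subtype.isOfFinOrder f), fun a n => ?_, fun a g n c =>
      Subtype.ext (S.mn tf J (fun e => n (Subtype.ext e)) a.2 g.2 (congrArg Subtype.val c))⟩
  have n' : a.1 ≠ 1 := fun e => n (Subtype.ext e)
  rcases S a.1 n' a.2 with ⟨w, ⟨k, l⟩, -⟩ | k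
  · obtain ⟨e⟩ := J.edge v w k
    refine .inr ⟨((cs a).trans (MulEquiv.subgroupCongr (le_antisymm (fun b hb => ?_)
      fun b hb => ?_))).trans e⟩
    · exact ⟨hb.2, S.cen J k n' a.2 l (mem_centralizer_singleton_iff.1 hb.1) hb.2⟩
    · exact mem_cs (J.top.comm k _ hb _ ⟨a.2, l⟩) hb.1
  · exact .inl ((cs a).isCyclic.2 k)

omit tf in
/-- The data of a Seifert vertex. -/
theorem Jsj.sv (J : Jsj G T) (S : Sei G T v) :
    ∃ (h : G) (n : ℕ) (c : ℕ → G) (tw : Bool) (B : Set ℕ) (w : ℕ → V),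
      Top.Sv T v h n c tw B w := by
  obtain ⟨h, n, c, tw, α, β, w, P, pos, an, a0, pr, hw, hu⟩ := S
  have ind : ∀ i ≤ n, α i = 0 → ¬ (tw ∧ i = 0) → ¬ Dep h (c i) := fun i hi a b =>
    let ⟨k, l⟩ := hw i hi a b
    let ⟨e⟩ := J.edge _ _ k
    Js.z2_ind e l
  have hn := ind n le_rfl an fun k => pos.ne' k.2
  have inf : ¬ IsOfFinOrder h := fun f => by
    obtain ⟨k, k0, e⟩ := isOfFinOrder_iff_pow_eq_one.1 f
    exact hn ⟨k, 0, fun z => k0.ne' (by exact_mod_cast z.1), by simp [e]⟩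
  refine ⟨h, n, c, tw, {i | i ≤ n ∧ α i = 0 ∧ ¬ (tw ∧ i = 0)}, w, P.seif inf pos a0 pr,
    ⟨le_rfl, an, fun k => pos.ne' k.2⟩, fun i k => ⟨k.1, k.2.2, hw i k.1 k.2.1 k.2.2⟩,
    fun i hi k a => ⟨α i, fun z => k ⟨hi.le, by exact_mod_cast z, a⟩, β i, ?_⟩,
    fun u a => ?_, fun i a j b g g1 g2 => ?_⟩
  · simp only [zpow_natCast, P.pow hi]
  · obtain ⟨i, ⟨k1, k2, k3, l⟩, -⟩ := hu u a
    exact ⟨i, ⟨k1, k2, k3⟩, l⟩
  · exact (hu _ (hw j b.1 b.2.1 b.2.2).1).unique ⟨a.1, a.2.1, a.2.2, g, g1, g2⟩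
      ⟨b.1, b.2.1, b.2.2, 1, one_smul _ _, one_smul _ _⟩

/-- Hyperbolic pieces are simple. -/
theorem sim_of_hyp (H : Js.Hyp G T v) (J : Js.Jsj G T) : Sim G T v := fun a n h => by
  by_cases c : IsCyclic (centralizer ({⟨a, h⟩} : Set (stabilizer G v)))
  · exact .inr ((cs ⟨a, h⟩).isCyclic.1 c)
  obtain ⟨w, k, l⟩ := H.per tf J (a := ⟨a, h⟩) (fun e => n (congrArg Subtype.val e)) c
  exact .inl ⟨w, ⟨k, l _ rfl⟩, fun u x => H.mal tf a _ _ x.1 k n h x.2 (l ⟨a, h⟩ rfl)⟩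

/-- The geometric decomposition is a decomposition in the present sense. -/
theorem geo_of_js (g : Js.Geo G) : Geo G :=
  g.imp_right <| Or.imp_right fun ⟨V, i, T, J⟩ => ⟨V, i, T, J.tree, J.act, J.ninv, J.edge, J.red,
    J.min, fun v => (J.vert v).imp (fun H => sim_of_hyp tf H J)
      fun ⟨h, n, c, tw, α, β, w, a, b, d, e, _, f⟩ => ⟨h, n, c, tw, α, β, w, a, b, d, e, f⟩⟩

end Grp

theorem geo_tri {G X0 X1 X2 X3 : Type} [Group G] [MulAction G X0] [MulAction G X1]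
    [MulAction G X2] [MulAction G X3] (T : Tri G X0 X1 X2 X3) (h0 : NoHom G) (g : Geo G)
    (hD : Nv.Disc T) (mid : ∀ v, ∃ f, T.d1 (T.d2 f 2) 0 = v) (φ : X2 → ℝ ≃o ℝ) (hf : T.Fol φ)
    (ht : T.Taut φ) : Nontrivial G ∧ Md.LO G := by
  obtain ⟨ρ, hρ, hb⟩ := Tri.ball h0 hf ht mid
  obtain ⟨y, hy⟩ := hb φ hf fun f t => by rw [sub_self, abs_zero]; exact hρ.le
  have := Bg.inf_of_nc (Nv.fw_nov hD hy hf.1) (hy.inf hf)
  have hM := Bg.mfd_taut hD mid (Or.inr h0) hf ht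
  have tf := Bg.tf_disc hM hD
  have := objB_countG T
  refine ⟨inferInstance, ?_⟩
  rcases g with f | ⟨a, a1, a2⟩ | ⟨V, _, Γ, J⟩
  · exact (not_finite G).elim
  · exact T.lo_inv tf h0 hD mid φ hf ht a1 (Js.normal_pm tf a1 a2)
  obtain ⟨Y, _, x₀, C, up, h, cyc, E, e1, -, e2⟩ := T.model_taut tf h0 hD mid φ hf ht
  have cy : Cv.Cyc G Y := fun x => by
    obtain ⟨k, hk⟩ := (cyc x).exists_zpow_surjective
    exact ⟨k.1, fun a ha => (hk ⟨a, ha⟩).imp fun n e => congrArg Subtype.val e⟩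
  refine Top.phase2 tf J.top (fun v w τ a k n h1 h2 => n (J.min v w a τ k.1 k.2
    fun g d => d.elim (h1 g) (h2 g))) ⟨om_of_OM h, cy, E, e1, e2⟩ x₀ fun σ S N v => ?_
  rcases J.vert v with p | s
  · refine .inl ⟨p.hy tf J, Bq.bg2_of_dual hM tf (fun E _ _ => Bq.dual_of hM hD h0 E) J.tree J.act
      v (fun w hw => ?_) (p.hy tf J) (fun w hw a b a1 a2 b1 b2 =>
        J.top.comm hw a ⟨a1, a2⟩ b ⟨b1, b2⟩) (p.mal J) (p.per J), p.mal J⟩
    obtain ⟨g, e, n⟩ := J.red w v hw.symm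
    refine ⟨g, ReflTransGen.single ⟨by simpa only [e] using J.act g _ _ hw.symm, fun k => ?_⟩⟩
    rcases Sym2.eq_iff.1 k with k | k
    · exact hw.ne k.1.symm
    · exact n k.2
  · obtain ⟨_, _, _, _, _, _, s⟩ := J.sv s
    exact .inr (Top.sf_out tf J.top (om_of_OM h) cy (dep_of_cyc cy) S N s)

variable {M : Type} [TopologicalSpace M] [ChartedSpace (EuclideanSpace ℝ (Fin 3)) M]
  [IsManifold 𝓘(ℝ, EuclideanSpace ℝ (Fin 3)) ∞ M] [CompactSpace M] [T2Space M] [ConnectedSpace M]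

theorem main_geo (m : M) (h0 : ∀ χ : FundamentalGroup M m →* Multiplicative ℝ, χ = 1)
    (g : Geo (FundamentalGroup M m))
    {A : Set (OpenPartialHomeomorph M ((ℝ × ℝ) × ℝ))} (hA : Sm.Foliation A) (hT : Sm.Taut A) :
    Nontrivial (FundamentalGroup M m) ∧ Md.LO (FundamentalGroup M m) := by
  obtain ⟨Y, _, _, p, hp, _⟩ := Tp.exists_universal_cover_manifold Sm.E3 m
  obtain ⟨X0, X1, X2, X3, _, _, _, _, T, φ, a, b, c, d⟩ := Sm.normal_form p hp hA hT
  exact geo_tri T h0 g a b φ c d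

end Pool.Agent.Work.MP_3d425c_gt.Jt
end

-- merged part: Pool.Agent.Work.MP_3d425c_gt.Nz.Defs
section
/-! The groups that are treated. -/

namespace Pool.Agent.Work.MP_3d425c_gt.Nz

/-- `G` has no subgroup `ℤ²` (atoroidal case), or has a nontrivial normal cyclic subgroup
(Seifert case), or has a decomposition along tori. -/
def Geo (G : Type) [Group G] : Prop :=
  (∀ f : Multiplicative (ℤ × ℤ) →* G, ¬ Function.Injective f) ∨
    (∃ h : G, h ≠ 1 ∧ (Subgroup.zpowers h).Normal) ∨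
    ∃ (V : Type) (_ : MulAction G V) (T : SimpleGraph V), Jt.Jsj G T

end Pool.Agent.Work.MP_3d425c_gt.Nz
end

-- merged part: Pool.Agent.Work.MP_3d425c_gt.Nz.Main
section
/-! Taut foliations on atoroidal manifolds, and the assembly of all cases. -/

namespace Pool.Agent.Work.MP_3d425c_gt.Nz
open MulAction Subgroup Pool.Agent.Work.MP_3d425c_gt.To Pool.Agent.Work.MP_3d425c_gt.Md
open scoped Manifold ContDiff

theorem dep_of_nz {G : Type} [Group G]
    (h : ∀ f : Multiplicative (ℤ × ℤ) →* G, ¬ Function.Injective f) (a b : G)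
    (c : a * b = b * a) : Dep a b := by
  have k := h (MonoidHom.mk' (fun v => a ^ v.toAdd.1 * b ^ v.toAdd.2) fun v w => by
    simp only [toAdd_mul, Prod.fst_add, Prod.snd_add, zpow_add]
    exact (Commute.zpow_zpow c _ _).mul_mul_mul_comm _ _)
  rw [injective_iff_map_eq_one] at k
  push Not at k
  obtain ⟨v, e, n⟩ := k
  exact ⟨v.toAdd.1, -v.toAdd.2, fun z => n (Prod.ext z.1 (neg_eq_zero.1 z.2)),
    (zpow_neg b _).symm ▸ eq_inv_of_mul_eq_one_left e⟩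

/-- The earlier class of groups is contained in the present one. -/
theorem geo_of_jt {G : Type} [Group G] (g : Jt.Geo G) : Geo G :=
  g.imp_left fun (_ : Finite G) f k =>
    have := Finite.of_injective f k
    not_finite (Multiplicative (ℤ × ℤ))

theorem geo_tri {G X0 X1 X2 X3 : Type} [Group G] [MulAction G X0] [MulAction G X1]
    [MulAction G X2] [MulAction G X3] (T : Tri G X0 X1 X2 X3) (h0 : NoHom G) (g : Geo G)
    (hD : Nv.Disc T) (mid : ∀ v, ∃ f, T.d1 (T.d2 f 2) 0 = v) (φ : X2 → ℝ ≃o ℝ) (hf : T.Fol φ)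
    (ht : T.Taut φ) : Nontrivial G ∧ Md.LO G := by
  rcases g with g | g
  swap
  · exact Jt.geo_tri T h0 (.inr g) hD mid φ hf ht
  obtain ⟨ρ, hρ, hb⟩ := Tri.ball h0 hf ht mid
  obtain ⟨y, hy⟩ := hb φ hf fun f t => by rw [sub_self, abs_zero]; exact hρ.le
  have := Bg.inf_of_nc (Nv.fw_nov hD hy hf.1) (hy.inf hf)
  have hM := Bg.mfd_taut hD mid (Or.inr h0) hf ht
  have tf := Bg.tf_disc hM hD
  have := objB_countG T
  have nz := dep_of_nz g
  have hB := big hM tf nz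
  rcases csa_or tf nz hB h0 with a | c
  · exact Jt.geo_tri T h0 (.inr (.inl a)) hD mid φ hf ht
  obtain ⟨Y, _, x₀, C, up, h, cyc, E, e1, -, e2⟩ := T.model_taut tf h0 hD mid φ hf ht
  refine ⟨inferInstance, lo_nz ⟨c, nz⟩ hB ⟨om_of_OM h, fun x => ?_, E, e1, e2⟩ x₀⟩
  obtain ⟨k, hk⟩ := (cyc x).exists_zpow_surjective
  exact ⟨k.1, fun a ha => (hk ⟨a, ha⟩).imp fun n e => congrArg Subtype.val e⟩

variable {M : Type} [TopologicalSpace M] [ChartedSpace (EuclideanSpace ℝ (Fin 3)) M]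
  [IsManifold 𝓘(ℝ, EuclideanSpace ℝ (Fin 3)) ∞ M] [CompactSpace M] [T2Space M] [ConnectedSpace M]

theorem main_geo (m : M) (h0 : ∀ χ : FundamentalGroup M m →* Multiplicative ℝ, χ = 1)
    (g : Geo (FundamentalGroup M m))
    {A : Set (OpenPartialHomeomorph M ((ℝ × ℝ) × ℝ))} (hA : Sm.Foliation A) (hT : Sm.Taut A) :
    Nontrivial (FundamentalGroup M m) ∧ Md.LO (FundamentalGroup M m) := by
  obtain ⟨Y, _, _, p, hp, _⟩ := Tp.exists_universal_cover_manifold Sm.E3 m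
  obtain ⟨X0, X1, X2, X3, _, _, _, _, T, φ, a, b, c, d⟩ := Sm.normal_form p hp hA hT
  exact geo_tri T h0 g a b φ c d

end Pool.Agent.Work.MP_3d425c_gt.Nz
end

-- merged part: Pool.Agent.Work.MP_3d425c_gt.Rv.Top
section
/-! Assembly along the tree for atoroidal vertices. -/

namespace Pool.Agent.Work.MP_3d425c_gt.Rv
open Set MulAction Pool.Agent.Work.MP_3d425c_gt.Cy Pool.Agent.Work.MP_3d425c_gt.Gl
  Pool.Agent.Work.MP_3d425c_gt.To Pool.Agent.Work.MP_3d425c_gt.To.Top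

universe u

/-- The conclusion of the relative theorem, as a property of the group. -/
def Rel (Γ : Type) [Group Γ] : Prop :=
  ∀ (X : Type u) [MulAction Γ X] (C : Set (ℝ → X)) (up : X → X → Prop) (s : Γ → ℝ), Sp s →
    Om Γ C up → X →
    (∀ g : Γ, g ≠ 1 → ∀ c ∈ C, ∀ u v : ℝ, u < v → ∃ t ∈ Icc u v, ¬ g • c t = c t) →
    Cv.Cyc Γ X → (∀ a, 0 < s a → ∃ y : X, ∀ p, p * a = a * p → 0 < s p → Lt up y (p • y)) →
    To.LO fun a => 0 < s a

section Abs
variable {Γ : Type} {I : Type*} {X : Type u} [Group Γ] [MulAction Γ I] [MulAction Γ X]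
  {C : Set (ℝ → X)} {up : X → X → Prop}

theorem exists_sp (hG : Hz Γ) (P : Per Γ I) {s : I → Γ → ℝ} (S : PSl s) :
    ∃ c : Γ → ℝ, Sp c ∧ (∀ a i, a • i = i → c a = s i a) ∧ ∀ a, c a ≠ 0 → ∃ i : I, a • i = i := by
  classical
  have s1 : ∀ i, s i 1 = 0 := fun i => by
    have := S.add i 1 1 (one_smul _ _) (one_smul _ _)
    rw [mul_one] at this
    linarith
  obtain ⟨c, c1, c2⟩ : ∃ c : Γ → ℝ, (∀ a i, a • i = i → c a = s i a) ∧
      ∀ a, (¬ ∃ i : I, a • i = i) → c a = 0 := by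
    refine ⟨fun a => if k : ∃ i : I, a • i = i then s k.choose a else 0, fun a i e => ?_,
      fun a k => dif_neg k⟩
    have k : ∃ i : I, a • i = i := ⟨i, e⟩
    simp only [dif_pos k]
    by_cases n : a = 1
    · subst n
      rw [s1, s1]
    · rw [P.mal a _ _ n k.choose_spec e]
  have c0 : c 1 = 0 := by
    by_cases k : ∃ i : I, (1 : Γ) • i = i
    · rw [c1 1 _ k.choose_spec, s1]
    · exact c2 _ k
  have c3 : ∀ a, c a ≠ 0 → ∃ i : I, a • i = i := fun a k => by_contra fun n => k (c2 a n)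
  refine ⟨c, ⟨⟨fun g a => ?_, fun a b e => ?_⟩, fun a k => ?_⟩, c1, c3⟩
  · by_cases k : ∃ i : I, a • i = i
    · obtain ⟨i, k⟩ := k
      rw [c1 a i k, c1 _ (g • i) (by simp [mul_smul, k]), S.eqv g i a k]
    · rw [c2 a k, c2]
      rintro ⟨i, l⟩
      exact k ⟨g⁻¹ • i, by simpa [mul_smul, smul_eq_iff_eq_inv_smul g] using l⟩
  · by_cases na : a = 1
    · simp [na, c0]
    by_cases nb : b = 1
    · simp [nb, c0]
    have q : ∀ i : I, a • i = i → b • i = i → c (a * b) = c a + c b := fun i x y => by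
      rw [c1 a i x, c1 b i y, c1 _ i (by rw [mul_smul, y, x]), S.add i a b x y]
    by_cases ka : ∃ i : I, a • i = i
    · obtain ⟨i, k⟩ := ka
      exact q i k (P.cent na k e.symm)
    by_cases kb : ∃ i : I, b • i = i
    · obtain ⟨i, k⟩ := kb
      exact q i (P.cent nb k e) k
    rw [c2 a ka, c2 b kb, add_zero]
    by_cases n : a * b = 1
    · rw [n, c0]
    · exact c2 _ fun ⟨i, k⟩ => ka ⟨i, P.cent n k (by rw [mul_assoc, ← e])⟩
  · obtain ⟨i, e⟩ := c3 a k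
    obtain ⟨x, y, hx, hy, n⟩ := P.two i
    by_cases d : Dep a x
    · exact ⟨y, P.comm i _ _ hy e, fun d' =>
        n (hG.dep_trans (fun l => k (by rw [l, c0])) d.symm d')⟩
    · exact ⟨x, P.comm i _ _ hx e, d⟩

/-- The relative theorem for a malnormal family with anchors. -/
theorem per_ord (hG : Hz Γ) (hB : Rel.{u} Γ) (P : Per Γ I) {s : I → Γ → ℝ} (S : PSl s)
    (h : Om Γ C up) (x₀ : X) (nf : Top.Nf Γ C) (cy : Cv.Cyc Γ X)
    (anc : ∀ i, ∃ y : X, ∀ p : Γ, p • i = i → 0 < s i p → Lt up y (p • y)) :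
    ∃ r : Γ → Γ → Prop, IsStrictTotalOrder Γ r ∧ (∀ a b c, r a b ↔ r (c * a) (c * b)) ∧
      ∀ i x p q, p • i = i → q • i = i → 0 < s i p → 0 < s i q → r x (p * x) → r x (q * x) := by
  obtain ⟨c, c1, c2, c3⟩ := exists_sp hG P S
  obtain ⟨r, r1, r2, r3⟩ := hB X C up c c1 h x₀ nf cy fun a k => by
    obtain ⟨i, e⟩ := c3 a k.ne'
    obtain ⟨y, hy⟩ := anc i
    refine ⟨y, fun p l m => ?_⟩
    have f := P.cent (fun n => by rw [n, c1.cf.one] at k; exact lt_irrefl _ k) e l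
    exact hy p f (c2 p i f ▸ m)
  exact ⟨r, r1, r2, fun i x p q hp hq a b => r3 x p q (a.trans_eq (c2 p i hp).symm)
    (b.trans_eq (c2 q i hq).symm) (P.comm i p q hp hq)⟩

theorem per_conv [Countable Γ] (tf : ∀ a : Γ, a ≠ 1 → ¬ IsOfFinOrder a) (P : Per Γ I)
    {s : I → Γ → ℝ} (S : PSl s) (O : Cv.Ob Γ C up) (x₀ : X)
    (hx : ∀ i, Cvt C up (stabilizer Γ i) (s i)) :
    ∃ (Y : Type u) (_ : MulAction Γ Y) (_ : Y) (C' : Set (ℝ → Y)) (up' : Y → Y → Prop),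
      Om Γ C' up' ∧ Top.Nf Γ C' ∧ Cv.Cyc Γ Y ∧
        ∀ i, ∃ y : Y, ∀ p : Γ, p • i = i → 0 < s i p → Lt up' y (p • y) := by
  obtain ⟨Y, _, y₀, C', up', O', anc⟩ : ∃ (Y : Type u) (_ : MulAction Γ Y) (_ : Y)
      (C' : Set (ℝ → Y)) (up' : Y → Y → Prop), Cv.Ob Γ C' up' ∧
        ∀ i, ∃ y : Y, ∀ p : Γ, p • i = i → 0 < s i p → Lt up' y (p • y) := by
    rcases isEmpty_or_nonempty I with _ | ⟨⟨i₀⟩⟩
    · exact ⟨X, _, x₀, C, up, O, fun i => isEmptyElim i⟩
    have := P.cnt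
    obtain ⟨Y, _, C', up', O', k⟩ := Cv.conv tf O (J := orbitRel.Quotient Γ I)
      (fun j => stabilizer Γ j.out) (fun j p hp q hq => P.comm _ p q hp hq)
      (fun j k g p hp n hk => by
        have e : g • j.out = k.out := P.mal (g * p * g⁻¹) _ _ (by simpa using n)
          (by rw [mul_smul, mul_smul, inv_smul_smul, show p • j.out = j.out from hp]) hk
        have e' : j = k := by
          have q : orbitRel Γ I k.out j.out := ⟨g, e⟩
          exact j.out_eq'.symm.trans ((Quotient.sound' q).symm.trans k.out_eq')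
        exact ⟨e', by rw [mem_stabilizer_iff, e, e']⟩)
      (fun j => s j.out) (fun j p hp q hq => S.add _ p q hp hq) fun j => hx j.out
    refine ⟨Y, _, (k (Quotient.mk'' i₀)).choose, C', up', O', fun i => ?_⟩
    obtain ⟨y, hy⟩ := k (Quotient.mk'' i)
    obtain ⟨g, e⟩ : ∃ g : Γ, g • i = (Quotient.mk'' i : orbitRel.Quotient Γ I).out :=
      Quotient.mk_out' (s₁ := orbitRel Γ I) i
    refine ⟨g⁻¹ • y, fun p hp l => ?_⟩
    have := hy (g * p * g⁻¹) (by rw [mem_stabilizer_iff, ← e]; simp [mul_smul, hp])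
      (by rw [← e, S.eqv g i p hp]; exact l)
    refine ⟨?_, fun q => this.2 ?_⟩
    · simpa [mul_smul] using O'.om.ups g⁻¹ _ _ this.1
    · simpa [mul_smul] using O'.om.ups g _ _ q
  obtain ⟨Z, _, C'', up'', j, a, b, c, d, e⟩ := exists_nf tf O'
  refine ⟨Z, _, j y₀, C'', up'', a, b, c, fun i => ?_⟩
  obtain ⟨y, k⟩ := anc i
  exact ⟨j y, fun p hp l => d p y ▸ e _ _ (k p hp l)⟩

end Abs

variable {G : Type} {V : Type*} [Group G] [MulAction G V] {T : SimpleGraph V}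
  {σ σ' : V → V → G → ℝ}

/-- An atoroidal vertex whose group acts on an object with anchors. -/
theorem hyp_ord (J : Top.Jsj G T) (S : Slo T σ) {v : V} (hy : Hz (stabilizer G v))
    (hB : Rel.{u} (stabilizer G v)) (m : Mal G T v) {X : Type u} [MulAction (stabilizer G v) X]
    {C : Set (ℝ → X)} {up : X → X → Prop} (h : Om (stabilizer G v) C up) (x₀ : X)
    (nf : Top.Nf (stabilizer G v) C) (dep : Cv.Cyc (stabilizer G v) X)
    (anc : ∀ w, T.Adj v w → ∃ y : X, ∀ p : stabilizer G v, p.1 • w = w → 0 < σ v w p →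
      Lt up y (p • y)) : ∃ r, Ord (stabilizer G v) (Fam T v (σ v)) r := by
  let _ := nbAct J v
  obtain ⟨r, l1, l2, d⟩ := per_ord hy hB (J.per m) (S.psl J v) h x₀ nf dep fun i =>
    let ⟨y, k⟩ := anc i i.2
    ⟨y, fun p e => k p (congrArg Subtype.val e)⟩
  refine ⟨fun x y => ∃ hx hy, r ⟨x, hx⟩ ⟨y, hy⟩, ⟨fun _ _ ⟨_, _, k⟩ => l1.irrefl _ k,
    fun _ _ _ _ _ _ ⟨a, _, k⟩ ⟨_, b, k'⟩ => ⟨a, b, l1.trans _ _ _ k k'⟩, fun x hx y hy n =>
    ((lin_of_lo l1 univ).tot ⟨x, hx⟩ trivial ⟨y, hy⟩ trivial fun e =>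
      n (congrArg Subtype.val e)).imp (fun k => ⟨hx, hy, k⟩) fun k => ⟨hy, hx, k⟩⟩,
    fun g hg _ _ _ _ ⟨a, b, k⟩ => ⟨mul_mem hg a, mul_mem hg b, (l2 _ _ ⟨g, hg⟩).1 k⟩, ?_⟩
  rintro _ ⟨w, a, rfl⟩ x hx p hp q hq sp sq ⟨_, _, k⟩
  exact ⟨hx, mul_mem hq.1 hx, d ⟨w, a⟩ ⟨x, hx⟩ ⟨p, hp.1⟩ ⟨q, hq.1⟩ (Subtype.ext hp.2)
    (Subtype.ext hq.2) sp sq k⟩

variable {X : Type u} [MulAction G X] {C : Set (ℝ → X)} {up : X → X → Prop}

/-- An atoroidal vertex detects slopes that differ from the natural ones on broken axes only. -/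
theorem hyp_ord2 [Countable G] (J : Top.Jsj G T) (S : Slo T σ) (S' : Slo T σ') {v : V}
    (hy : Hz (stabilizer G v)) (hB : Rel.{u} (stabilizer G v)) (m : Mal G T v) (O : Cv.Ob G C up)
    (x₀ : X) (N : ∀ w, T.Adj v w → Nt C up (Eg G v w) (σ v w))
    (alt : ∀ w, T.Adj v w → (∀ p ∈ Eg G v w, σ' v w p = σ v w p) ∨
      (Zg C up (Eg G v w) (σ v w) ∧ ∀ p ∈ Eg G v w, σ v w p = 0 → σ' v w p = 0 → p = 1)) :
    ∃ r, Ord (stabilizer G v) (Fam T v (σ' v)) r := by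
  let _ := nbAct J v
  have mem : ∀ (i : T.neighborSet v) (p : stabilizer G v),
      p ∈ stabilizer (stabilizer G v) i ↔ p.1 ∈ Eg G v i := fun i p =>
    ⟨fun k => ⟨p.2, congrArg Subtype.val k⟩, fun k => Subtype.ext k.2⟩
  obtain ⟨Y, _, y₀, C', up', a, b, c, d⟩ := per_conv hy.tf (J.per m) (S'.psl J v) (ob_sub O _) x₀
    fun i => by
      have z : Zg C up (Eg G v i) (σ v i) → ((∀ p ∈ Eg G v i, σ' v i p = σ v i p) ∨
          ∀ p ∈ Eg G v i, σ v i p = 0 → σ' v i p = 0 → p = 1) →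
          Cvt C up (stabilizer (stabilizer G v) i) fun p => σ' v i p := by
        rintro ⟨⟨t, ht, t1⟩, z1, m, n, z2⟩ k
        obtain ⟨τ, hτ, τ1, τ0⟩ := S.ker_ne J i.2 z1
        refine .inr ⟨fun p => σ v i p, m, n,
          fun p hp q hq => S.add v i i.2 _ ((mem i p).1 hp) _ ((mem i q).1 hq),
          ⟨⟨t, ht.1⟩, (mem i _).2 ht, t1⟩, fun q hq => ⟨z1 _ ((mem i q).1 hq), ?_,
            (z2 _ ((mem i q).1 hq)).2⟩,
          ⟨⟨τ, hτ.1⟩, (mem i _).2 hτ, fun e => τ1 (congrArg Subtype.val e), τ0⟩,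
          k.imp (fun k p hp l => l.trans_eq (k _ ((mem i p).1 hp)))
            fun k p hp l l' => Subtype.ext (k _ ((mem i p).1 hp) l l')⟩
        exact (z2 _ ((mem i q).1 hq)).1.trans
          ⟨fun e => ⟨e.lg, e.ne, e.un, e.um⟩, fun e => ⟨e.lg, e.ne, e.un, e.um⟩⟩
      rcases alt i i.2 with k | k
      · rcases N i i.2 with ⟨y, L⟩ | Z
        · exact .inl ⟨y, fun p hp l =>
            L.asc _ ((mem i p).1 hp) (l.trans_eq (k _ ((mem i p).1 hp)))⟩
        · exact z Z (.inl k)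
      · exact z k.1 (.inr k.2)
  exact hyp_ord J S' hy hB m a y₀ b c fun w e =>
    let ⟨y, k⟩ := d ⟨w, e⟩
    ⟨y, fun p q => k p (Subtype.ext q)⟩

/-- The assembly. -/
theorem phase2R [Countable G] (tf : ∀ a : G, a ≠ 1 → ¬ IsOfFinOrder a) (J : Top.Jsj G T)
    (nm : ∀ v w (τ : G), T.Adj v w → τ ∈ Eg G v w → τ ≠ 1 → Nm v τ → ¬ Nm w τ)
    (O : Cv.Ob G C up) (x₀ : X)
    (hv : ∀ σ : V → V → G → ℝ, Slo T σ → (∀ v w, T.Adj v w → Nt C up (Eg G v w) (σ v w)) → ∀ v,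
      (Hz (stabilizer G v) ∧ Rel.{u} (stabilizer G v) ∧ Mal G T v) ∨ SfOut T C up σ v) :
    ∃ r : G → G → Prop, IsStrictTotalOrder G r ∧ ∀ a b c, r a b ↔ r (c * a) (c * b) := by
  classical
  obtain ⟨σ, S, N⟩ := J.nat O.om x₀ (dep_of_cyc O.cy)
  obtain ⟨Q, hQ⟩ : ∃ Q : V → Prop, ∀ v, Q v ↔ SfOut T C up σ v := ⟨_, fun _ => Iff.rfl⟩
  have qi : ∀ (g : G) v, Q (g • v) ↔ Q v := fun g v => by
    rw [hQ, hQ]
    exact ⟨fun k => k.tr J S O.om g, fun k => SfOut.tr J S O.om g⁻¹ (by simpa using k)⟩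
  obtain ⟨s, s1, s2⟩ : ∃ s : V → V → G → ℝ, (∀ v, Q v → Out T C up σ v (s v)) ∧
      ∀ (g : G) v w, Q v → T.Adj v w → ∀ p ∈ Eg G v w,
        s (g • v) (g • w) (g * p * g⁻¹) = s v w p := by
    obtain ⟨ρ, r1, r2⟩ : ∃ ρ : V → V, (∀ v, ∃ g : G, g • v = ρ v) ∧
        ∀ (g : G) v, ρ (g • v) = ρ v :=
      ⟨fun v => (Quotient.mk'' v : orbitRel.Quotient G V).out,
        fun v => Quotient.mk_out' (s₁ := orbitRel G V) v,
        fun g v => congrArg Quotient.out (Quotient.sound' ⟨g, rfl⟩)⟩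
    choose γ hγ using r1
    choose! s₀ h₀ using fun v (k : Q v) => ((hQ v).1 k).out
    have q : ∀ v, Q v → Out T C up σ (γ v • v) (s₀ (ρ v)) := fun v k => by
      rw [hγ]
      exact h₀ _ (hγ v ▸ (qi _ v).2 k)
    refine ⟨fun v w p => s₀ (ρ v) (γ v • w) (γ v * p * (γ v)⁻¹),
      fun v k => (q v k).tr J S O.om _, fun g v w k a p hp => ?_⟩
    have := (q v k).eqv (γ (g • v) * g * (γ v)⁻¹) (γ v • w)
      (by rw [mul_smul, mul_smul, inv_smul_smul, hγ, hγ, r2]) (J.act _ _ _ a) _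
      ((conj_Eg (γ v)).2 hp)
    simp only [r2]
    rw [← this]
    congr 1
    · simp [mul_smul]
    · group
  have both : ∀ v w, T.Adj v w → Q v → Q w → ∀ p ∈ Eg G v w, s v w p = σ v w p := by
    intro v w a qv qw
    refine ((s1 v qv).alt w a).resolve_right fun ⟨Z, _⟩ => ?_
    obtain ⟨τ, t1, t2, t3, t4⟩ := ((hQ v).1 qv).zz w a Z
    obtain ⟨υ, u1, u2, u3, u4⟩ := ((hQ w).1 qw).zz v a.symm
      (by rw [← S.symm v w a, Eg_comm G w v]; exact Z)
    obtain ⟨κ, -, -, k⟩ := S.ker J a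
    obtain ⟨i, rfl⟩ := k τ t1 t3
    obtain ⟨j, rfl⟩ := k υ (Eg_comm G w v ▸ u1) (by rw [S.symm v w a]; exact u3)
    have j0 : j ≠ 0 := fun e => u2 (by simp [e])
    refine nm v w _ a (zpow_mem t1 j) (fun e => tf _ t2 (isOfFinOrder_iff_zpow_eq_one.2
      ⟨j, j0, e⟩)) (t4.zpow j) ?_
    have := u4.zpow i
    simp only [← zpow_mul] at this ⊢
    rwa [mul_comm]
  obtain ⟨σ', k0, k1, k2, k3⟩ : ∃ σ' : V → V → G → ℝ, (∀ v w p, p ∉ Eg G v w → σ' v w p = 0) ∧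
      (∀ v w, Q v → ∀ p ∈ Eg G v w, σ' v w p = s v w p) ∧
      (∀ v w, T.Adj v w → Q w → ∀ p ∈ Eg G v w, σ' v w p = s w v p) ∧
      ∀ v w, ¬ Q v → ¬ Q w → ∀ p ∈ Eg G v w, σ' v w p = σ v w p := by
    refine ⟨fun v w p => if p ∈ Eg G v w then
      if Q v then s v w p else if Q w then s w v p else σ v w p else 0,
      fun v w p k => if_neg k, fun v w q p k => by simp only [if_pos k, if_pos q],
      fun v w a q p k => ?_, fun v w q q' p k => by simp only [if_pos k, if_neg q, if_neg q']⟩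
    by_cases q' : Q v
    · simp only [if_pos k, if_pos q']
      rw [both v w a q' q p k, both w v a.symm q q' p (Eg_comm G v w ▸ k), S.symm v w a]
    · simp only [if_pos k, if_neg q', if_pos q]
  have S' : Slo T σ' := by
    refine ⟨fun v w a => funext fun p => ?_, fun g v w a p hp => ?_, fun v w a p hp q hq => ?_,
      fun v w a => ?_⟩
    · by_cases hp : p ∈ Eg G v w
      · have hp' : p ∈ Eg G w v := Eg_comm G v w ▸ hp
        by_cases qv : Q v
        · rw [k1 v w qv p hp, k2 w v a.symm qv p hp']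
        by_cases qw : Q w
        · rw [k2 v w a qw p hp, k1 w v qw p hp']
        · rw [k3 v w qv qw p hp, k3 w v qw qv p hp', S.symm v w a]
      · rw [k0 v w p hp, k0 w v p (Eg_comm G v w ▸ hp)]
    · have m := (conj_Eg g).2 hp
      by_cases qv : Q v
      · rw [k1 v w qv p hp, k1 _ _ ((qi g v).2 qv) _ m, s2 g v w qv a p hp]
      by_cases qw : Q w
      · rw [k2 v w a qw p hp, k2 _ _ (J.act g _ _ a) ((qi g w).2 qw) _ m,
          s2 g w v qw a.symm p (Eg_comm G v w ▸ hp)]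
      · rw [k3 v w qv qw p hp, k3 _ _ (mt (qi g v).1 qv) (mt (qi g w).1 qw) _ m,
          S.eqv g v w a p hp]
    · have m := mul_mem hp hq
      by_cases qv : Q v
      · rw [k1 v w qv _ m, k1 v w qv p hp, k1 v w qv q hq, (s1 v qv).add w a p hp q hq]
      by_cases qw : Q w
      · rw [k2 v w a qw _ m, k2 v w a qw p hp, k2 v w a qw q hq,
          (s1 w qw).add v a.symm p (Eg_comm G v w ▸ hp) q (Eg_comm G v w ▸ hq)]
      · rw [k3 v w qv qw _ m, k3 v w qv qw p hp, k3 v w qv qw q hq, S.add v w a p hp q hq]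
    · by_cases qv : Q v
      · obtain ⟨p, hp, k⟩ := (s1 v qv).pos w a
        exact ⟨p, hp, k.trans_eq (k1 v w qv p hp).symm⟩
      by_cases qw : Q w
      · obtain ⟨p, hp, k⟩ := (s1 w qw).pos v a.symm
        rw [Eg_comm G w v] at hp
        exact ⟨p, hp, k.trans_eq (k2 v w a qw p hp).symm⟩
      · obtain ⟨p, hp, k⟩ := S.pos v w a
        exact ⟨p, hp, k.trans_eq (k3 v w qv qw p hp).symm⟩
  refine J.lo S' fun v => ?_
  by_cases qv : Q v
  · obtain ⟨r, o⟩ := (s1 v qv).ord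
    exact ⟨r, ord_congr (fun w _ => k1 v w qv) o⟩
  obtain ⟨hy, hB, m⟩ := (hv σ S N v).resolve_right fun k => qv ((hQ v).2 k)
  refine hyp_ord2 J S S' hy hB m O x₀ (N v) fun w a => ?_
  by_cases qw : Q w
  · have := (s1 w qw).alt v a.symm
    rw [← S.symm v w a, Eg_comm G w v] at this
    exact this.imp (fun k p hp => (k2 v w a qw p hp).trans (k p hp))
      fun k => ⟨k.1, fun p hp l l' => k.2 p hp l ((k2 v w a qw p hp).symm.trans l')⟩
  · exact .inl (k3 v w qv qw)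

end Pool.Agent.Work.MP_3d425c_gt.Rv
end

-- merged part: Pool.Agent.Work.MP_3d425c_gt.Rv.Main
section
/-! Taut foliations and decompositions into atoroidal and Seifert pieces. -/

namespace Pool.Agent.Work.MP_3d425c_gt.Rv
open MulAction Subgroup Relation Pool.Agent.Work.MP_3d425c_gt.To
  Pool.Agent.Work.MP_3d425c_gt.Md
open scoped Manifold ContDiff

section Grp
variable {G : Type} [Group G] {V : Type} [MulAction G V] {T : SimpleGraph V} {v : V}

theorem Jsj.top (J : Jsj G T) : Top.Jsj G T :=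
  ⟨J.tree, J.act, J.ninv, fun v w a => let ⟨e⟩ := J.edge v w a; Js.z2_basis e⟩

theorem Sim.mal (S : Sim G T v) : Top.Mal G T v := fun a _ _ k l n x y z =>
  S.1 a n x ⟨k, y⟩ ⟨l, z⟩

theorem Sim.cusp (S : Sim G T v) (a b : G) (ha : a • v = v) (hb : b • v = v)
    (c : a * b = b * a) (n : ¬ Dep a b) : ∃ w, T.Adj v w ∧ a • w = w ∧ b • w = w := by
  obtain ⟨w, k, l⟩ := S.2 (MonoidHom.mk' (fun z => a ^ z.toAdd.1 * b ^ z.toAdd.2) fun z w => by
    simp only [toAdd_mul, Prod.fst_add, Prod.snd_add, zpow_add]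
    exact (Commute.zpow_zpow c _ _).mul_mul_mul_comm _ _)
    ((injective_iff_map_eq_one _).2 fun z e => by_contra fun d => n
      ⟨z.toAdd.1, -z.toAdd.2, fun k => d (Prod.ext k.1 (neg_eq_zero.1 k.2)),
        (zpow_neg b _).symm ▸ eq_inv_of_mul_eq_one_left e⟩)
    fun z => mul_mem (zpow_mem (show a ∈ stabilizer G v from ha) _)
      (zpow_mem (show b ∈ stabilizer G v from hb) _)
  exact ⟨w, k, by simpa using l (.ofAdd (1, 0)), by simpa using l (.ofAdd (0, 1))⟩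

/-- The data of a Seifert vertex. -/
theorem Jsj.sv (J : Jsj G T) (S : Jt.Sei G T v) :
    ∃ (h : G) (n : ℕ) (c : ℕ → G) (tw : Bool) (B : Set ℕ) (w : ℕ → V),
      Top.Sv T v h n c tw B w := by
  obtain ⟨h, n, c, tw, α, β, w, P, pos, an, a0, pr, hw, hu⟩ := S
  have ind : ∀ i ≤ n, α i = 0 → ¬ (tw ∧ i = 0) → ¬ Dep h (c i) := fun i hi a b =>
    let ⟨k, l⟩ := hw i hi a b
    let ⟨e⟩ := J.edge _ _ k
    Js.z2_ind e l
  have hn := ind n le_rfl an fun k => pos.ne' k.2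
  have inf : ¬ IsOfFinOrder h := fun f => by
    obtain ⟨k, k0, e⟩ := isOfFinOrder_iff_pow_eq_one.1 f
    exact hn ⟨k, 0, fun z => k0.ne' (by exact_mod_cast z.1), by simp [e]⟩
  refine ⟨h, n, c, tw, {i | i ≤ n ∧ α i = 0 ∧ ¬ (tw ∧ i = 0)}, w, P.seif inf pos a0 pr,
    ⟨le_rfl, an, fun k => pos.ne' k.2⟩, fun i k => ⟨k.1, k.2.2, hw i k.1 k.2.1 k.2.2⟩,
    fun i hi k a => ⟨α i, fun z => k ⟨hi.le, by exact_mod_cast z, a⟩, β i, ?_⟩,
    fun u a => ?_, fun i a j b g g1 g2 => ?_⟩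
  · simp only [zpow_natCast, P.pow hi]
  · obtain ⟨i, ⟨k1, k2, k3, l⟩, -⟩ := hu u a
    exact ⟨i, ⟨k1, k2, k3⟩, l⟩
  · exact (hu _ (hw j b.1 b.2.1 b.2.2).1).unique ⟨a.1, a.2.1, a.2.2, g, g1, g2⟩
      ⟨b.1, b.2.1, b.2.2, 1, one_smul _ _, one_smul _ _⟩

/-- The centralisers of a simple vertex group. -/
theorem Sim.hz (S : Sim G T v) (J : Jsj G T) (tf : ∀ a : G, a ≠ 1 → ¬ IsOfFinOrder a)
    (cyc : ∀ E : Subgroup (stabilizer G v), E.FG → (∀ a ∈ E, ∀ b ∈ E, a * b = b * a → Dep a b) →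
      ∀ k : E, (∀ φ : E →* Multiplicative ℝ, φ k = 1 → φ = 1) → IsCyclic E) :
    Hz (stabilizer G v) := by
  let _ := Top.nbAct J.top v
  refine hz_of (I := T.neighborSet v) (fun a n f => tf a.1 (fun e => n (Subtype.ext e))
    ((stabilizer G v).subtype.isOfFinOrder f)) (J.top.per S.mal) (fun a b c n => ?_)
    (fun i => ?_) cyc
  · obtain ⟨w, k, x, y⟩ := S.cusp a.1 b.1 a.2 b.2 (congrArg Subtype.val c)
      fun ⟨i, j, k, e⟩ => n ⟨i, j, k, Subtype.ext e⟩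
    exact ⟨⟨w, k⟩, Subtype.ext x, Subtype.ext y⟩
  · obtain ⟨e⟩ := J.edge v i i.2
    refine ⟨MulEquiv.trans ⟨⟨fun a => ⟨a.1.1, a.1.2, congrArg Subtype.val a.2⟩,
      fun a => ⟨⟨a.1, a.2.1⟩, Subtype.ext a.2.2⟩, fun _ => rfl, fun _ => rfl⟩, fun _ _ => rfl⟩ e⟩

/-- Simple pieces in the earlier sense are simple. -/
theorem sim_of_jt (S : Jt.Sim G T v) (J : Jt.Jsj G T) : Sim G T v := by
  refine ⟨fun a n h _ x _ y => S.mal J a _ _ x.1 y.1 n h x.2 y.2, fun f i h => ?_⟩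
  have c : ∀ x y, f x * f y = f y * f x := fun x y => by rw [← map_mul, mul_comm, map_mul]
  have n : f (.ofAdd (1, 0)) ≠ 1 := fun e => by simpa using i (e.trans f.map_one.symm)
  rcases S _ n (h _) with ⟨w, ⟨k, l⟩, -⟩ | k
  · exact ⟨w, k, fun z => S.cen J k n (h _) l (c _ _) (h _)⟩
  obtain ⟨z, -, hz⟩ := Jt.gen_of_cyc k
  obtain ⟨p, hp⟩ := hz _ (Jt.mem_cs rfl (h _))
  obtain ⟨q, hq⟩ := hz (f (.ofAdd (0, 1))) (Jt.mem_cs (c _ _) (h _))
  have e : f (.ofAdd (1, 0) ^ q) = f (.ofAdd (0, 1) ^ p) := by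
    rw [map_zpow, map_zpow, hp, hq, ← zpow_mul, ← zpow_mul, mul_comm]
  have e2 : p = 0 := by simpa using congrArg (fun x => x.toAdd.2) (i e).symm
  exact (n (by rw [hp, e2, zpow_zero])).elim

/-- The earlier class of groups is contained in the present one. -/
theorem geo_of_nz (g : Nz.Geo G) : Geo G :=
  g.imp_right <| Or.imp_right fun ⟨V, i, T, J⟩ => ⟨V, i, T, J.tree, J.act, J.ninv, J.edge, J.red,
    J.min, fun v => (J.vert v).imp_left fun S => sim_of_jt S J⟩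

end Grp

theorem geo_tri {G X0 X1 X2 X3 : Type} [Group G] [MulAction G X0] [MulAction G X1]
    [MulAction G X2] [MulAction G X3] (T : Tri G X0 X1 X2 X3) (h0 : NoHom G) (g : Geo G)
    (hD : Nv.Disc T) (mid : ∀ v, ∃ f, T.d1 (T.d2 f 2) 0 = v) (φ : X2 → ℝ ≃o ℝ) (hf : T.Fol φ)
    (ht : T.Taut φ) : Nontrivial G ∧ Md.LO G := by
  by_cases nz : ∀ f : Multiplicative (ℤ × ℤ) →* G, ¬ Function.Injective f
  · exact Nz.geo_tri T h0 (.inl nz) hD mid φ hf ht
  rcases g.resolve_left nz with g | ⟨V, _, Γ, J⟩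
  · exact Nz.geo_tri T h0 (.inr (.inl g)) hD mid φ hf ht
  have z : ∃ a b : G, a * b = b * a ∧ ¬ Dep a b := by
    push Not at nz
    obtain ⟨f, i⟩ := nz
    obtain ⟨a, b, c, n, -⟩ := Js.z2_basis (MonoidHom.ofInjective i).symm
    exact ⟨a, b, c, n⟩
  obtain ⟨ρ, hρ, hb⟩ := Tri.ball h0 hf ht mid
  obtain ⟨y, hy⟩ := hb φ hf fun f t => by rw [sub_self, abs_zero]; exact hρ.le
  have := Bg.inf_of_nc (Nv.fw_nov hD hy hf.1) (hy.inf hf)
  have hM := Bg.mfd_taut hD mid (Or.inr h0) hf ht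
  have tf := Bg.tf_disc hM hD
  have := objB_countG T
  refine ⟨inferInstance, ?_⟩
  obtain ⟨Y, _, x₀, C, up, h, cyc, E, e1, -, e2⟩ := T.model_taut tf h0 hD mid φ hf ht
  have cy : Cv.Cyc G Y := fun x => by
    obtain ⟨k, hk⟩ := (cyc x).exists_zpow_surjective
    exact ⟨k.1, fun a ha => (hk ⟨a, ha⟩).imp fun n e => congrArg Subtype.val e⟩
  refine phase2R tf J.top (fun v w τ a k n h1 h2 => n (J.min v w a τ k.1 k.2
    fun g d => d.elim (h1 g) (h2 g))) ⟨om_of_OM h, cy, E, e1, e2⟩ x₀ fun σ S N v => ?_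
  rcases J.vert v with p | s
  · have hz := p.hz J tf (cyc_sub hM tf z _)
    refine .inl ⟨hz, fun _ _ _ _ _ a b c d e f => thmR hz (bg2_of_dual hM tf
      (fun E _ _ => Bq.dual_of hM hD h0 E) J.tree J.act v (fun w hw => ?_) hz
      (fun w hw a b a1 a2 b1 b2 => J.top.comm hw a ⟨a1, a2⟩ b ⟨b1, b2⟩) (J.edge v) p.mal p.cusp)
      a b c d e f, p.mal⟩
    obtain ⟨g, e, n⟩ := J.red w v hw.symm
    refine ⟨g, ReflTransGen.single ⟨by simpa only [e] using J.act g _ _ hw.symm, fun k => ?_⟩⟩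
    rcases Sym2.eq_iff.1 k with k | k
    · exact hw.ne k.1.symm
    · exact n k.2
  · obtain ⟨_, _, _, _, _, _, s⟩ := J.sv s
    exact .inr (Top.sf_out tf J.top (om_of_OM h) cy (dep_of_cyc cy) S N s)

variable {M : Type} [TopologicalSpace M] [ChartedSpace (EuclideanSpace ℝ (Fin 3)) M]
  [IsManifold 𝓘(ℝ, EuclideanSpace ℝ (Fin 3)) ∞ M] [CompactSpace M] [T2Space M] [ConnectedSpace M]

theorem main_geo (m : M) (h0 : ∀ χ : FundamentalGroup M m →* Multiplicative ℝ, χ = 1)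
    (g : Geo (FundamentalGroup M m))
    {A : Set (OpenPartialHomeomorph M ((ℝ × ℝ) × ℝ))} (hA : Sm.Foliation A) (hT : Sm.Taut A) :
    Nontrivial (FundamentalGroup M m) ∧ Md.LO (FundamentalGroup M m) := by
  obtain ⟨Y, _, _, p, hp, _⟩ := Tp.exists_universal_cover_manifold Sm.E3 m
  obtain ⟨X0, X1, X2, X3, _, _, _, _, T, φ, a, b, c, d⟩ := Sm.normal_form p hp hA hT
  exact geo_tri T h0 g a b φ c d

end Pool.Agent.Work.MP_3d425c_gt.Rv
end
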